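import Mathlib

/-!
Deterministic lemmas: second-order Taylor bounds on compact convex sets, convergence of
pseudo-orbits with a Lyapunov function, and a rate of convergence at a hyperbolic point.
-/

set_option autoImplicit false

open Filter Topology Finset

namespace Pool.Agent.H422Z.Urn

theorem taylor_pack {E F : Type*} [NormedAddCommGroup E] [NormedSpace ℝ E]
    [NormedAddCommGroup F] [NormedSpace ℝ F] {K : Set E} (hK : IsCompact K) (hc : Convex ℝ K)
    {g : E → F} (hg : ∀ x ∈ K, ContDiffAt ℝ 2 g x) :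
    ∃ C : ℝ, 0 < C ∧ (∀ a ∈ K, ‖g a‖ ≤ C) ∧ (∀ a ∈ K, ‖fderiv ℝ g a‖ ≤ C) ∧
      (∀ a ∈ K, ∀ b ∈ K, ‖g b - g a‖ ≤ C * ‖b - a‖) ∧
      (∀ a ∈ K, ∀ b ∈ K, ‖g b - g a - fderiv ℝ g a (b - a)‖ ≤ C * ‖b - a‖ ^ 2) := by
  have hd : ∀ x ∈ K, ContDiffAt ℝ 1 (fderiv ℝ g) x := fun x hx =>
    (hg x hx).fderiv_right (m := 1) (by norm_num)
  have hdiff : ∀ x ∈ K, DifferentiableAt ℝ g x := fun x hx =>
    (hg x hx).differentiableAt (by norm_num)
  have hloc : LocallyLipschitzOn K (fderiv ℝ g) := by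
    intro x hx
    obtain ⟨L, t, ht, hL⟩ := (hd x hx).exists_lipschitzOnWith
    exact ⟨L, t, mem_nhdsWithin_of_mem_nhds ht, hL⟩
  obtain ⟨L, hL⟩ := hloc.exists_lipschitzOnWith_of_compact hK
  obtain ⟨C1, hC1⟩ := hK.exists_bound_of_continuousOn
    (fun x hx => (hg x hx).continuousAt.continuousWithinAt)
  obtain ⟨C2, hC2⟩ := hK.exists_bound_of_continuousOn
    (fun x hx => (hd x hx).continuousAt.continuousWithinAt)
  set C : ℝ := max (max C1 C2) L + 1 with hC
  have hL0 : (0 : ℝ) ≤ L := L.2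
  have e1 : C1 ≤ C := by
    have := (le_max_left C1 C2).trans (le_max_left _ (L : ℝ)); linarith
  have e2 : C2 ≤ C := by
    have := (le_max_right C1 C2).trans (le_max_left _ (L : ℝ)); linarith
  have e3 : (L : ℝ) ≤ C := by
    have := le_max_right (max C1 C2) (L : ℝ); linarith
  have e0 : 0 < C := by
    have := le_max_right (max C1 C2) (L : ℝ); linarith
  refine ⟨C, e0, fun a ha => (hC1 a ha).trans e1, fun a ha => (hC2 a ha).trans e2,
    fun a ha b hb => ?_, fun a ha b hb => ?_⟩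
  · exact hc.norm_image_sub_le_of_norm_fderiv_le hdiff (fun x hx => (hC2 x hx).trans e2) ha hb
  · have hseg : segment ℝ a b ⊆ K := hc.segment_subset ha hb
    have h1 := (convex_segment a b).norm_image_sub_le_of_norm_fderiv_le' (C := C * ‖b - a‖)
      (φ := fderiv ℝ g a) (fun x hx => hdiff x (hseg hx)) (fun x hx => by
        have h2 := hL.norm_sub_le (hseg hx) ha
        have h3 : ‖x - a‖ ≤ ‖b - a‖ := by
          have := norm_sub_le_of_mem_segment hx
          exact this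
        calc _ ≤ L * ‖x - a‖ := h2
          _ ≤ C * ‖b - a‖ := mul_le_mul e3 h3 (norm_nonneg _) e0.le)
      (left_mem_segment ℝ a b) (right_mem_segment ℝ a b)
    calc _ ≤ C * ‖b - a‖ * ‖b - a‖ := h1
      _ = _ := by ring

theorem tail_small {u : ℕ → ℝ} (hu : Summable u) {ε : ℝ} (hε : 0 < ε) :
    ∃ n1, ∀ n m, n1 ≤ n → ∑ j ∈ Ico n m, u j ≤ ε := by
  obtain ⟨s, hs⟩ := summable_iff_vanishing_norm.1 hu ε hε
  refine ⟨s.sup id + 1, fun n m hn => ?_⟩
  refine (le_abs_self _).trans (hs _ ?_).le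
  rw [Finset.disjoint_left]
  intro j hj hjs
  have := Finset.le_sup (f := id) hjs
  simp only [Finset.mem_Ico, id] at hj this
  omega

theorem conv_of_isolated {E : Type*} [NormedAddCommGroup E] {K : Set E} (hK : IsCompact K)
    {G : E → ℝ} (hG : ContinuousOn G K) (hG0 : ∀ x ∈ K, 0 ≤ G x)
    (hiso : ∀ p ∈ K, G p = 0 → ∃ ε > 0, ∀ x ∈ K, G x = 0 → ‖x - p‖ < ε → x = p)
    {z : ℕ → E} (hz : ∀ n, z n ∈ K) {γ : ℕ → ℝ} (hγ0 : ∀ n, 0 ≤ γ n)
    (hγ : Tendsto γ atTop (𝓝 0)) (hγs : ¬ Summable γ) {C : ℝ} (hC : 0 < C)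
    (hstep : ∀ n, ‖z (n + 1) - z n‖ ≤ C * γ n) (hsum : Summable (fun n => γ n * G (z n))) :
    ∃ p ∈ K, G p = 0 ∧ Tendsto z atTop (𝓝 p) := by
  have hfreq : ∀ δ > 0, ∃ᶠ n in atTop, G (z n) < δ := by
    intro δ hδ
    by_contra hn
    rw [Filter.not_frequently] at hn
    apply hγs
    refine Summable.of_norm_bounded_eventually_nat (hsum.mul_left (1 / δ)) ?_
    filter_upwards [hn] with n hn
    rw [Real.norm_eq_abs, abs_of_nonneg (hγ0 n)]
    have h1 : δ ≤ G (z n) := not_lt.1 hn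
    have h2 := mul_le_mul_of_nonneg_left h1 (hγ0 n)
    rw [one_div, inv_mul_eq_div, le_div_iff₀ hδ]
    exact h2
  obtain ⟨φ, hφ, hφG⟩ := Filter.extraction_forall_of_frequently
    (P := fun k n => G (z n) < 1 / ((k : ℝ) + 1)) (fun k => hfreq _ (by positivity))
  obtain ⟨p, hpK, ψ, hψ, hlim⟩ := hK.tendsto_subseq (x := fun k => z (φ k)) (fun k => hz _)
  have hGp : G p = 0 := by
    have h1 : Tendsto (fun k => G (z (φ (ψ k)))) atTop (𝓝 (G p)) :=
      (hG p hpK).tendsto.comp (tendsto_nhdsWithin_iff.2 ⟨hlim, Eventually.of_forall fun k => hz _⟩)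
    have h2 : Tendsto (fun k => 1 / ((ψ k : ℝ) + 1)) atTop (𝓝 0) :=
      tendsto_one_div_add_atTop_nhds_zero_nat.comp hψ.tendsto_atTop
    exact le_antisymm (le_of_tendsto_of_tendsto' h1 h2 (fun k => (hφG _).le)) (hG0 p hpK)
  refine ⟨p, hpK, hGp, ?_⟩
  obtain ⟨ε0, hε0, hiso'⟩ := hiso p hpK hGp
  rw [NormedAddCommGroup.tendsto_atTop]
  intro ε1 hε1
  set ε := min ε1 (ε0 / 2) with hεdef
  have hε : 0 < ε := lt_min hε1 (by linarith)
  have hεa : ε ≤ ε1 := min_le_left _ _
  have hεb : ε ≤ ε0 / 2 := min_le_right _ _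
  obtain ⟨c, hc, hcA⟩ : ∃ c > 0, ∀ x ∈ K, ε / 2 ≤ ‖x - p‖ → ‖x - p‖ ≤ ε → c ≤ G x := by
    set A := K ∩ {x | ε / 2 ≤ ‖x - p‖ ∧ ‖x - p‖ ≤ ε} with hA
    have hcn : Continuous (fun x : E => ‖x - p‖) := by fun_prop
    have hAc : IsCompact A := hK.inter_right
      (IsClosed.and (isClosed_le continuous_const hcn) (isClosed_le hcn continuous_const))
    rcases A.eq_empty_or_nonempty with h | h
    · refine ⟨1, one_pos, fun x hx h1 h2 => ?_⟩
      have : x ∈ A := ⟨hx, h1, h2⟩
      rw [h] at this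
      exact this.elim
    · obtain ⟨x0, hx0, hmin⟩ := hAc.exists_isMinOn h (hG.mono Set.inter_subset_left)
      refine ⟨G x0, ?_, fun x hx h1 h2 => hmin (show x ∈ A from ⟨hx, h1, h2⟩)⟩
      rcases (hG0 x0 hx0.1).lt_or_eq with h1 | h1
      · exact h1
      · have := hiso' x0 hx0.1 h1.symm (by linarith [hx0.2.2])
        have h2 := hx0.2.1
        rw [this, sub_self, norm_zero] at h2
        linarith
  obtain ⟨n1, hn1⟩ := tail_small hsum (ε := c * ε / (8 * C)) (by positivity)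
  obtain ⟨n2, hn2⟩ := eventually_atTop.1
    (hγ.eventually (gt_mem_nhds (show (0 : ℝ) < ε / (8 * C) by positivity)))
  obtain ⟨k, hk1, hk2⟩ := ((NormedAddCommGroup.tendsto_nhds_zero.1
    (tendsto_sub_nhds_zero_iff.2 hlim) (ε / 2) (by linarith)).and
    (((hφ.comp hψ).tendsto_atTop).eventually (eventually_ge_atTop (max n1 n2)))).exists
  set n3 := φ (ψ k) with hn3
  have hk1' : ‖z n3 - p‖ < ε / 2 := hk1
  have hk2' : max n1 n2 ≤ n3 := hk2
  have main : ∀ j, ‖z (n3 + j) - p‖ ≤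
      5 * ε / 8 + C / c * ∑ i ∈ Ico n3 (n3 + j), γ i * G (z i) := by
    intro j
    induction j with
    | zero => simp only [add_zero, Finset.Ico_self, Finset.sum_empty]; linarith
    | succ j ih =>
      have hs0 : 0 ≤ ∑ i ∈ Ico n3 (n3 + j), γ i * G (z i) :=
        Finset.sum_nonneg (fun i _ => mul_nonneg (hγ0 i) (hG0 _ (hz i)))
      have ht0 := mul_nonneg (hγ0 (n3 + j)) (hG0 _ (hz (n3 + j)))
      rw [← add_assoc, Finset.sum_Ico_succ_top (by omega), mul_add]
      have h1 : ‖z (n3 + j + 1) - p‖ ≤ ‖z (n3 + j) - p‖ + C * γ (n3 + j) := by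
        have := norm_sub_le_norm_sub_add_norm_sub (z (n3 + j + 1)) (z (n3 + j)) p
        linarith [hstep (n3 + j)]
      have hCc : 0 ≤ C / c := by positivity
      by_cases hsm : ‖z (n3 + j) - p‖ < ε / 2
      · have h2 := hn2 (n3 + j) (by omega)
        rw [lt_div_iff₀ (by positivity)] at h2
        have := mul_nonneg hCc hs0
        have := mul_nonneg hCc ht0
        nlinarith
      · have h2 := hn1 n3 (n3 + j) (by omega)
        have h3 : C / c * ∑ i ∈ Ico n3 (n3 + j), γ i * G (z i) ≤ ε / 8 := by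
          refine (mul_le_mul_of_nonneg_left h2 hCc).trans (le_of_eq ?_)
          field_simp
        have h4 := hcA _ (hz (n3 + j)) (not_lt.1 hsm) (by linarith)
        have h5 : C * γ (n3 + j) ≤ C / c * (γ (n3 + j) * G (z (n3 + j))) := by
          have := mul_le_mul_of_nonneg_left h4 (mul_nonneg hCc (hγ0 (n3 + j)))
          calc C * γ (n3 + j) = C / c * γ (n3 + j) * c := by field_simp
            _ ≤ _ := this
            _ = _ := by ring
        linarith
  refine ⟨n3, fun n hn => ?_⟩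
  have h1 := main (n - n3)
  rw [show n3 + (n - n3) = n by omega] at h1
  have h2 := hn1 n3 n (by omega)
  have h3 : C / c * ∑ i ∈ Ico n3 n, γ i * G (z i) ≤ ε / 8 := by
    refine (mul_le_mul_of_nonneg_left h2 (by positivity)).trans (le_of_eq ?_)
    field_simp
  linarith

theorem summable_of_lyap {L u e : ℕ → ℝ} {M : ℝ} (hL : ∀ n, |L n| ≤ M) (hu : ∀ n, 0 ≤ u n)
    (he0 : ∀ n, 0 ≤ e n) (he : Summable e) (hstep : ∀ n, L n + u n - e n ≤ L (n + 1)) :
    Summable u := by
  refine summable_of_sum_range_le (c := 2 * M + ∑' n, e n) hu (fun n => ?_)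
  have h1 : ∑ i ∈ range n, u i ≤ L n - L 0 + ∑ i ∈ range n, e i := by
    induction n with
    | zero => simp
    | succ n ih => rw [Finset.sum_range_succ, Finset.sum_range_succ]; linarith [hstep n]
  have h2 := he.sum_le_tsum (range n) (fun i _ => he0 i)
  have h3 := abs_le.1 (hL n)
  have h4 := abs_le.1 (hL 0)
  linarith

theorem rate_ab {a b γ τ : ℕ → ℝ} {C : ℝ} (hC : 0 < C) {n0 : ℕ} (ha : ∀ n, 0 ≤ a n)
    (hγ0 : ∀ n, 0 ≤ γ n) (hγ1 : ∀ n, γ n ≤ 1) (hτ : ∀ n, 0 < τ n)
    (hτm : ∀ n, τ (n + 1) ≤ τ n)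
    (hτl : ∀ n, n0 ≤ n → (1 - 6 / 10 * γ n) * τ n ≤ τ (n + 1))
    (hb0 : Tendsto b atTop (𝓝 0))
    (hbs : ∀ n, n0 ≤ n → (1 + γ n) * b n - γ n * ((a n + b n) / 10 + C * τ n) ≤ b (n + 1))
    (has : ∀ n, n0 ≤ n → a (n + 1) ≤ (1 - 9 / 10 * γ n) * a n +
      γ n * ((a n + b n) / 10 + C * τ n)) :
    ∃ D, 0 < D ∧ ∀ n, n0 ≤ n → a n + b n ≤ D * τ n := by
  have claim1 : ∀ n, n0 ≤ n → b n ≤ a n + 4 * C * τ n := by
    intro n hn
    by_contra hcon
    have hcon := not_le.1 hcon
    have hτn := hτ n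
    have pers : ∀ j, a (n + j) ≤ b (n + j) ∧ 4 * C * τ (n + j) ≤ b (n + j) ∧ b n ≤ b (n + j) := by
      intro j
      induction j with
      | zero =>
        have : 0 < 4 * C * τ n := by positivity
        exact ⟨by simp only [add_zero]; linarith, by simp only [add_zero]; linarith [ha n], le_rfl⟩
      | succ j ih =>
        obtain ⟨h1, h2, h3⟩ := ih
        have h4 := hbs (n + j) (by omega)
        have h5 := has (n + j) (by omega)
        have g0 := hγ0 (n + j)
        have g1 := hγ1 (n + j)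
        have a0 := ha (n + j)
        have t1 := mul_le_mul_of_nonneg_left (hτm (n + j)) (by positivity : 0 ≤ 4 * C)
        have h6 : γ (n + j) * ((a (n + j) + b (n + j)) / 10 + C * τ (n + j)) ≤
            γ (n + j) * (9 / 20 * b (n + j)) := mul_le_mul_of_nonneg_left (by linarith) g0
        have h7 : 0 ≤ γ (n + j) * b (n + j) := mul_nonneg g0 (by linarith)
        have h8 : b (n + j) ≤ b (n + j + 1) := by linarith
        have h9 : (1 - 9 / 10 * γ (n + j)) * a (n + j) ≤ (1 - 9 / 10 * γ (n + j)) * b (n + j) :=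
          mul_le_mul_of_nonneg_left h1 (by linarith)
        rw [← add_assoc]
        exact ⟨by linarith, by linarith, by linarith⟩
    have hbn : 0 < b n := by
      have : 0 < 4 * C * τ n := by positivity
      linarith [ha n]
    have : b n ≤ 0 := ge_of_tendsto hb0 (by
      filter_upwards [eventually_ge_atTop n] with k hk
      have := (pers (k - n)).2.2
      rwa [show n + (k - n) = k by omega] at this)
    linarith
  set D := max (14 * C) (a n0 / τ n0) with hD
  have hD1 : 14 * C ≤ D := le_max_left _ _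
  have claim2 : ∀ j, a (n0 + j) ≤ D * τ (n0 + j) := by
    intro j
    induction j with
    | zero =>
      have := le_max_right (14 * C) (a n0 / τ n0)
      rw [div_le_iff₀ (hτ n0)] at this
      exact this
    | succ j ih =>
      have h1 := claim1 (n0 + j) (by omega)
      have h5 := has (n0 + j) (by omega)
      have h6 := mul_le_mul_of_nonneg_left (hτl (n0 + j) (by omega)) (by linarith : 0 ≤ D)
      have g0 := hγ0 (n0 + j)
      have g1 := hγ1 (n0 + j)
      have t0 := hτ (n0 + j)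
      have h7 : γ (n0 + j) * ((a (n0 + j) + b (n0 + j)) / 10 + C * τ (n0 + j)) ≤
          γ (n0 + j) * (a (n0 + j) / 5 + D / 10 * τ (n0 + j)) := by
        refine mul_le_mul_of_nonneg_left ?_ g0
        have := mul_le_mul_of_nonneg_right hD1 t0.le
        linarith
      have h8 : (1 - 7 / 10 * γ (n0 + j)) * a (n0 + j) ≤
          (1 - 7 / 10 * γ (n0 + j)) * (D * τ (n0 + j)) :=
        mul_le_mul_of_nonneg_left ih (by linarith)
      rw [← add_assoc]
      linarith
  refine ⟨2 * D + 4 * C, by linarith, fun n hn => ?_⟩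
  have h1 := claim1 n hn
  have h2 := claim2 (n - n0)
  rw [show n0 + (n - n0) = n by omega] at h2
  linarith

end Pool.Agent.H422Z.Urn
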