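import Pool.Agent.H422Z.Urn.Eqm
import Pool.Agent.H422Z.Urn.Det

/-!
Calculus for the mean-field map, the Lyapunov function, isolation of equilibria and the spectral
data at an interior equilibrium.
-/

set_option autoImplicit false

open Filter Topology Finset

namespace Pool.Agent.H422Z.Urn

theorem fderiv_line {E F : Type*} [NormedAddCommGroup E] [NormedSpace ℝ E]
    [NormedAddCommGroup F] [NormedSpace ℝ F] {g : E → F} {y v : E} {d : F}
    (hg : DifferentiableAt ℝ g y) (h : HasDerivAt (fun t : ℝ => g (y + t • v)) d 0) :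
    fderiv ℝ g y v = d := by
  have h1 : HasDerivAt (fun t : ℝ => y + t • v) v 0 := by
    simpa using ((hasDerivAt_id (0 : ℝ)).smul_const v).const_add y
  have h2 : HasFDerivAt g (fderiv ℝ g y) (y + (0 : ℝ) • v) := by simpa using hg.hasFDerivAt
  exact (h2.comp_hasDerivAt (0 : ℝ) h1).unique h

theorem hasDerivAt_pow_line {α a u : ℝ} (hα : 2 ≤ α) (ha : 0 ≤ a) :
    HasDerivAt (fun t : ℝ => (a + t * u) ^ α) (α * a ^ α * (u / a)) 0 := by
  have h1 : HasDerivAt (fun t : ℝ => a + t * u) u 0 := by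
    simpa using ((hasDerivAt_id (0 : ℝ)).mul_const u).const_add a
  have h2 := h1.rpow_const (p := α) (Or.inr (by linarith))
  simp only [zero_mul, add_zero] at h2
  rw [Real.rpow_sub_one' ha (by linarith)] at h2
  convert h2 using 1
  ring

theorem hasDerivAt_q {α a b u v : ℝ} (hα : 2 ≤ α) (ha : 0 ≤ a) (hb : 0 ≤ b) (hab : 0 < a + b) :
    HasDerivAt (fun t : ℝ => q α (a + t * u) (b + t * v))
      (α * (q α a b * q α b a) * (u / a - v / b)) 0 := by
  have h1 := hasDerivAt_pow_line (u := u) hα ha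
  have h2 := hasDerivAt_pow_line (u := v) hα hb
  have hd := den_pos (α := α) ha hb hab
  have h3 := h1.div (h1.add h2) (by simpa using hd.ne')
  simp only [Pi.add_apply, zero_mul, add_zero] at h3
  refine HasDerivAt.congr_deriv (f := fun t : ℝ => q α (a + t * u) (b + t * v)) h3 ?_
  unfold q
  rw [add_comm (b ^ α)]
  generalize u / a = s
  generalize v / b = r
  field_simp
  ring

theorem hasDerivAt_log {α a b u v : ℝ} (hα : 2 ≤ α) (ha : 0 ≤ a) (hb : 0 ≤ b) (hab : 0 < a + b) :
    HasDerivAt (fun t : ℝ => Real.log ((a + t * u) ^ α + (b + t * v) ^ α))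
      (α * (q α a b * (u / a)) + α * (q α b a * (v / b))) 0 := by
  have h1 := hasDerivAt_pow_line (u := u) hα ha
  have h2 := hasDerivAt_pow_line (u := v) hα hb
  have hd := den_pos (α := α) ha hb hab
  have h3 := (h1.add h2).log (by simpa using hd.ne')
  simp only [Pi.add_apply, zero_mul, add_zero] at h3
  convert h3 using 1
  unfold q
  rw [add_comm (b ^ α)]
  generalize u / a = s
  generalize v / b = r
  field_simp

variable {V : Type*} [Fintype V] (G : SimpleGraph V)

/-- admissible points -/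
def Adm (y : V → ℝ) : Prop := (∀ i, 0 ≤ y i) ∧ ∀ i j, G.Adj i j → 0 < y i + y j

open Classical in
/-- the Lyapunov function -/
noncomputable def Lam (α : ℝ) (x : V → ℝ) : ℝ :=
  ∑ i, ∑ j, if G.Adj i j then Real.log (x i ^ α + x j ^ α) else 0

open Classical in
/-- the number of edges, as half the number of ordered adjacent pairs -/
noncomputable def Nn : ℝ := (∑ i, ∑ j, if G.Adj i j then (1 : ℝ) else 0) / 2

/-- the compact convex domain -/
def KK (c : ℝ) : Set (V → ℝ) :=
  {y | (∀ i, 0 ≤ y i) ∧ ∑ i, y i = Nn G ∧ ∀ i j, G.Adj i j → c ≤ y i + y j}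

variable {G}

theorem Eqm.adm {α : ℝ} {y : V → ℝ} (h : Eqm G α y) : Adm G y := ⟨h.1, h.2.1⟩

theorem KK_adm {c : ℝ} (hc : 0 < c) {y : V → ℝ} (h : y ∈ KK G c) : Adm G y :=
  ⟨h.1, fun i j hij => lt_of_lt_of_le hc (h.2.2 i j hij)⟩

theorem KK_le {c : ℝ} {y : V → ℝ} (h : y ∈ KK G c) (i : V) : y i ≤ Nn G := by
  rw [← h.2.1]
  exact Finset.single_le_sum (fun j _ => h.1 j) (mem_univ i)

theorem KK_compact (c : ℝ) : IsCompact (KK G c) := by
  refine (isCompact_Icc (a := (0 : V → ℝ)) (b := fun _ => Nn G)).of_isClosed_subset ?_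
    (fun y hy => ⟨hy.1, KK_le hy⟩)
  have e : KK G c = (⋂ i, {y : V → ℝ | 0 ≤ y i}) ∩ ({y | ∑ i, y i = Nn G} ∩
      ⋂ i, ⋂ j, ⋂ _ : G.Adj i j, {y : V → ℝ | c ≤ y i + y j}) := by
    ext y; simp [KK]
  rw [e]
  refine (isClosed_iInter fun i => isClosed_le continuous_const (continuous_apply i)).inter
    ((isClosed_eq (by fun_prop) continuous_const).inter
      (isClosed_iInter fun i => isClosed_iInter fun j => isClosed_iInter fun _ =>
        isClosed_le continuous_const (by fun_prop)))

theorem KK_convex (c : ℝ) : Convex ℝ (KK G c) := by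
  intro x hx y hy a b ha hb hab
  refine ⟨fun i => ?_, ?_, fun i j hij => ?_⟩
  · simp only [Pi.add_apply, Pi.smul_apply, smul_eq_mul]
    exact add_nonneg (mul_nonneg ha (hx.1 i)) (mul_nonneg hb (hy.1 i))
  · simp only [Pi.add_apply, Pi.smul_apply, smul_eq_mul]
    rw [Finset.sum_add_distrib, ← Finset.mul_sum, ← Finset.mul_sum, hx.2.1, hy.2.1, ← add_mul,
      hab, one_mul]
  · simp only [Pi.add_apply, Pi.smul_apply, smul_eq_mul]
    have h1 := mul_le_mul_of_nonneg_left (hx.2.2 i j hij) ha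
    have h2 := mul_le_mul_of_nonneg_left (hy.2.2 i j hij) hb
    have : c = a * c + b * c := by rw [← add_mul, hab, one_mul]
    linarith

theorem sum_ff {α : ℝ} {y : V → ℝ} (hy : Adm G y) : ∑ i, ff G α y i = Nn G := by
  classical
  have h1 : ∑ i, ff G α y i = ∑ i, ∑ j, if G.Adj i j then q α (y j) (y i) else 0 := by
    unfold ff
    rw [Finset.sum_comm]
    refine Finset.sum_congr rfl (fun i _ => Finset.sum_congr rfl (fun j _ => ?_))
    simp only [G.adj_comm]
  have h2 : ∑ i, ff G α y i + ∑ i, ff G α y i = 2 * Nn G := by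
    conv_lhs => rw [h1]
    conv_lhs => enter [1]; rw [← h1]
    unfold ff Nn
    rw [mul_div_cancel₀ _ (two_ne_zero), ← Finset.sum_add_distrib]
    refine Finset.sum_congr rfl (fun i _ => ?_)
    rw [← Finset.sum_add_distrib]
    refine Finset.sum_congr rfl (fun j _ => ?_)
    split_ifs with h
    · exact q_add (hy.1 i) (hy.1 j) (hy.2 i j h)
    · simp
  linarith

theorem contDiffAt_pow {α : ℝ} (hα : 2 ≤ α) (y : V → ℝ) (i : V) :
    ContDiffAt ℝ 2 (fun x : V → ℝ => x i ^ α) y :=
  (contDiffAt_apply ℝ ℝ i y).rpow_const_of_le (m := 2) (by simpa using hα)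

theorem contDiffAt_ff {α : ℝ} (hα : 2 ≤ α) {y : V → ℝ} (hy : Adm G y) :
    ContDiffAt ℝ 2 (ff G α) y := by
  refine contDiffAt_pi.2 (fun i => ?_)
  unfold ff
  refine ContDiffAt.sum (fun j _ => ?_)
  split_ifs with h
  · exact (contDiffAt_pow hα y i).div ((contDiffAt_pow hα y i).add (contDiffAt_pow hα y j))
      (den_pos (hy.1 i) (hy.1 j) (hy.2 i j h)).ne'
  · exact contDiffAt_const

theorem contDiffAt_Lam {α : ℝ} (hα : 2 ≤ α) {y : V → ℝ} (hy : Adm G y) :
    ContDiffAt ℝ 2 (Lam G α) y := by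
  unfold Lam
  refine ContDiffAt.sum (fun i _ => ContDiffAt.sum (fun j _ => ?_))
  split_ifs with h
  · exact ((contDiffAt_pow hα y i).add (contDiffAt_pow hα y j)).log
      (den_pos (hy.1 i) (hy.1 j) (hy.2 i j h)).ne'
  · exact contDiffAt_const

theorem fderiv_ff {α : ℝ} (hα : 2 ≤ α) {y : V → ℝ} (hy : Adm G y) (v : V → ℝ) (i : V) :
    fderiv ℝ (ff G α) y v i = ∑ j, W G α y i j * (v i / y i - v j / y j) := by
  have := fderiv_line (v := v) (d := fun i => ∑ j, W G α y i j * (v i / y i - v j / y j))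
    ((contDiffAt_ff hα hy).differentiableAt (by norm_num)) (by
      refine hasDerivAt_pi.2 (fun i => ?_)
      unfold ff W
      refine HasDerivAt.fun_sum (fun j _ => ?_)
      split_ifs with h
      · exact hasDerivAt_q hα (hy.1 i) (hy.1 j) (hy.2 i j h)
      · simpa using hasDerivAt_const (0 : ℝ) (0 : ℝ))
  rw [this]

theorem fderiv_Lam {α : ℝ} (hα : 2 ≤ α) {y : V → ℝ} (hy : Adm G y) (v : V → ℝ) :
    fderiv ℝ (Lam G α) y v = 2 * α * ∑ i, ff G α y i * (v i / y i) := by
  classical
  have := fderiv_line (v := v) (d := ∑ i, ∑ j, if G.Adj i j then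
      α * (q α (y i) (y j) * (v i / y i)) + α * (q α (y j) (y i) * (v j / y j)) else 0)
    ((contDiffAt_Lam hα hy).differentiableAt (by norm_num)) (by
      unfold Lam
      refine HasDerivAt.fun_sum (fun i _ => HasDerivAt.fun_sum (fun j _ => ?_))
      split_ifs with h
      · exact hasDerivAt_log hα (hy.1 i) (hy.1 j) (hy.2 i j h)
      · simpa using hasDerivAt_const (0 : ℝ) (0 : ℝ))
  rw [this]
  have e1 : ∀ i j, (if G.Adj i j then
      α * (q α (y i) (y j) * (v i / y i)) + α * (q α (y j) (y i) * (v j / y j)) else 0) =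
      α * ((if G.Adj i j then q α (y i) (y j) else 0) * (v i / y i)) +
      α * ((if G.Adj j i then q α (y j) (y i) else 0) * (v j / y j)) := by
    intro i j
    by_cases h : G.Adj i j
    · rw [if_pos h, if_pos h, if_pos h.symm]
    · rw [if_neg h, if_neg h, if_neg (fun h' => h h'.symm)]; simp
  simp only [e1, Finset.sum_add_distrib]
  rw [Finset.sum_comm (f := fun i j =>
    α * ((if G.Adj j i then q α (y j) (y i) else 0) * (v j / y j)))]
  unfold ff
  simp only [Finset.sum_mul, Finset.mul_sum]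
  rw [← Finset.sum_add_distrib]
  refine Finset.sum_congr rfl (fun i _ => ?_)
  rw [← Finset.sum_add_distrib]
  refine Finset.sum_congr rfl (fun j _ => ?_)
  ring

theorem lyap_lower {α c : ℝ} (hα : 2 ≤ α) (hc : 0 < c) (hN : 0 < Nn G) {z : V → ℝ}
    (hz : z ∈ KK G c) :
    2 * α / Nn G * ∑ i, (ff G α z i - z i) ^ 2 ≤ fderiv ℝ (Lam G α) z (ff G α z - z) := by
  have hy := KK_adm hc hz
  rw [fderiv_Lam hα hy]
  have h1 : ∀ i, (ff G α z i - z i) ^ 2 / Nn G + (ff G α z i - z i) ≤
      ff G α z i * ((ff G α z - z) i / z i) := by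
    intro i
    rcases (hz.1 i).lt_or_eq with h | h
    · have e : ff G α z i * ((ff G α z - z) i / z i) =
          (ff G α z i - z i) ^ 2 / z i + (ff G α z i - z i) := by
        simp only [Pi.sub_apply]; field_simp; ring
      rw [e]
      have := div_le_div_of_nonneg_left (sq_nonneg (ff G α z i - z i)) h (KK_le hz i)
      linarith
    · have e : ff G α z i = 0 := by
        refine Finset.sum_eq_zero (fun j _ => ?_)
        rw [q, ← h, Real.zero_rpow (by linarith), zero_div, ite_self]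
      rw [e, ← h]; simp
  have h2 := Finset.sum_le_sum (s := Finset.univ) (fun i _ => h1 i)
  rw [Finset.sum_add_distrib, Finset.sum_sub_distrib, sum_ff hy, hz.2.1, sub_self, add_zero,
    ← Finset.sum_div] at h2
  have h3 := mul_le_mul_of_nonneg_left h2 (by linarith : 0 ≤ 2 * α)
  refine le_trans (le_of_eq ?_) h3
  ring

variable (G) in
/-- the structural property of large exponents -/
def Good (α : ℝ) : Prop :=
  2 ≤ α ∧ ∀ y, Eqm G α y → (∀ i, y i = 0 ∨ 1 / 3 ≤ y i) ∧ ∀ d u : V → ℝ,
    (∀ i, 1 / 30 ≤ d i ∧ d i ≤ 2 * (Fintype.card V + 1)) →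
    (∀ i, d i * u i = ∑ j, W G α y i j * (u i - u j)) → ∀ i, u i = 0

variable (G) in
theorem eventually_good : ∀ᶠ α : ℝ in atTop, Good G α := by
  set M : ℝ := Fintype.card V + 1 with hM
  have hM0 : 0 < M := by positivity
  filter_upwards [eventually_ge_atTop 2,
    two_scales G (K0 := 2 * M * (M + 1) * (2 * M) + 1) (ε := 1 / (240 * M ^ 2)) (by positivity)]
    with α h1 h2
  refine ⟨h1, fun y hy => ⟨(h2 y hy).1, fun d u hd heq => ?_⟩⟩
  refine gap_lemma (W G α y) (W_symm α y) (W_nonneg (by linarith) hy.1) (M := M) le_rfl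
    (h2 y hy).2 d u hd (by norm_num) (by positivity) heq (by linarith) ?_
  have : 4 * M ^ 2 * (1 / (240 * M ^ 2)) = 1 / 60 := by field_simp; norm_num
  rw [this]; norm_num

theorem Good.isolated {α : ℝ} (hG : Good G α) {p : V → ℝ} (hp : Eqm G α p) :
    ∃ ε > 0, ∀ x, ff G α x = x → ‖x - p‖ < ε → x = p := by
  obtain ⟨hα, hG⟩ := hG
  obtain ⟨hz, hu⟩ := hG p hp
  have hd : HasFDerivAt (fun x => ff G α x - x)
      (fderiv ℝ (ff G α) p - ContinuousLinearMap.id ℝ (V → ℝ)) p :=
    ((contDiffAt_ff hα hp.adm).differentiableAt (by norm_num)).hasFDerivAt.sub (hasFDerivAt_id p)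
  have hker : LinearMap.ker ((fderiv ℝ (ff G α) p - ContinuousLinearMap.id ℝ (V → ℝ) :
      (V → ℝ) →L[ℝ] (V → ℝ)) : (V → ℝ) →ₗ[ℝ] (V → ℝ)) = ⊥ := by
    rw [LinearMap.ker_eq_bot']
    intro v hv
    have hv' : ∀ i, v i = ∑ j, W G α p i j * (v i / p i - v j / p j) := fun i => by
      have := congrFun hv i
      simp only [ContinuousLinearMap.coe_coe, ContinuousLinearMap.sub_apply,
        ContinuousLinearMap.id_apply, Pi.sub_apply, Pi.zero_apply] at this
      rw [fderiv_ff hα hp.adm] at this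
      linarith
    have hW0 : ∀ i, p i = 0 → ∀ j, W G α p i j = 0 := fun i hi j => by
      rw [W, q, hi, Real.zero_rpow (by linarith)]; simp
    have hm0 : (0 : ℝ) ≤ Fintype.card V := Nat.cast_nonneg _
    have := hu (fun i => if p i = 0 then 1 else p i) (fun i => v i / p i) (fun i => by
      split_ifs with h
      · constructor <;> linarith
      · have := (hz i).resolve_left h
        have := hp.le_card i
        constructor <;> linarith) (fun i => by
      split_ifs with h
      · simp [h, hW0 i h]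
      · rw [← hv' i]; field_simp)
    funext i
    by_cases h : p i = 0
    · rw [hv' i]; simp [hW0 i h]
    · have := this i
      simpa [h] using this
  obtain ⟨K, -, hK⟩ := LinearMap.exists_antilipschitzWith _ hker
  have h1 := hd.eventually_ne (c := 0) ⟨K, hK⟩
  rw [eventually_nhdsWithin_iff, Metric.eventually_nhds_iff] at h1
  obtain ⟨ε, hε, h1⟩ := h1
  refine ⟨ε, hε, fun x hx hxp => ?_⟩
  by_contra hne
  exact h1 (by rwa [dist_eq_norm]) hne (by simp [hx])

theorem Good.countable {α : ℝ} (hG : Good G α) : {p | Eqm G α p}.Countable := by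
  refine (IsLindelof.of_coe).countable_of_isDiscrete ?_
  rw [isDiscrete_iff_forall_exists_isOpen]
  intro p hp
  obtain ⟨ε, hε, h⟩ := hG.isolated hp
  refine ⟨Metric.ball p ε, Metric.isOpen_ball, ?_⟩
  ext x
  constructor
  · rintro ⟨h1, h2⟩
    exact h x (funext h2.2.2) (by rwa [Metric.mem_ball, dist_eq_norm] at h1)
  · rintro rfl
    exact ⟨Metric.mem_ball_self hε, hp⟩

end Pool.Agent.H422Z.Urn
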