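import Pool.Agent.H422Z.Urn.Prob

/-!
Concentration of bounded martingales for finite-choice processes.
-/

set_option autoImplicit false

open MeasureTheory Filter Topology Finset

namespace Pool.Agent.H422Z.Urn

variable {Ω : Type*} [MeasurableSpace Ω] {P : Measure Ω} [IsProbabilityMeasure P]
variable {Ch : Type*} [Fintype Ch] {C : ℕ → Ω → Ch} {w : ℕ → (ℕ → Ch) → Ch → ℝ}

theorem Chain.exp_moment (H : Chain P C w) {S : ℕ → (ℕ → Ch) → ℝ} (hS : ∀ n, Dep n (S n))
    (h0 : ∀ h, S 0 h = 0) {K : ℝ} (hK : 0 < K)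
    (hstep : ∀ n h, ∃ ξ : Ch → ℝ, (∀ c, |ξ c| ≤ K) ∧ ∑ c, w n h c * ξ c = 0 ∧
      ∀ c, S (n + 1) (Function.update h n c) = S n h + ξ c)
    {l : ℝ} (hl : 0 ≤ l) (hlK : l * K ≤ 1) (n : ℕ) :
    ∫ ω, Real.exp (l * S n (fun k => C k ω)) ∂P ≤ Real.exp (n * (l * K) ^ 2) := by
  induction n with
  | zero => simp [h0]
  | succ n ih =>
    have hd : ∀ n, Dep n (fun h => Real.exp (l * S n h)) := fun n h h' hh => by
      simp only [hS n h h' hh]
    have h1 := H.step_le (n := n) (g := fun h => Real.exp (l * S (n + 1) h))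
      (g' := fun h => Real.exp ((l * K) ^ 2) * Real.exp (l * S n h)) (hd (n + 1))
      (fun h h' hh => by simp only [hS n h h' hh]) (fun h => by
        obtain ⟨ξ, hb, hm, hs⟩ := hstep n h
        have : ∀ c, w n h c * Real.exp (l * S (n + 1) (Function.update h n c)) ≤
            Real.exp (l * S n h) * (w n h c * (1 + (l * K) ^ 2) + l * (w n h c * ξ c)) := by
          intro c
          rw [hs c, mul_add, Real.exp_add]
          have ha : |l * ξ c| ≤ l * K := by
            rw [abs_mul, abs_of_nonneg hl]; exact mul_le_mul_of_nonneg_left (hb c) hl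
          have hb2 := Real.abs_exp_sub_one_sub_id_le (ha.trans hlK)
          have h3 : (l * ξ c) ^ 2 ≤ (l * K) ^ 2 := by
            rw [← sq_abs (l * ξ c)]; exact pow_le_pow_left₀ (abs_nonneg _) ha 2
          have h4 : Real.exp (l * ξ c) ≤ 1 + (l * K) ^ 2 + l * ξ c := by
            have := (abs_le.1 hb2).2; linarith
          have h5 := H.nonneg n h c
          have h6 := Real.exp_pos (l * S n h)
          calc w n h c * (Real.exp (l * S n h) * Real.exp (l * ξ c))
              = Real.exp (l * S n h) * (w n h c * Real.exp (l * ξ c)) := by ring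
            _ ≤ Real.exp (l * S n h) * (w n h c * (1 + (l * K) ^ 2 + l * ξ c)) := by gcongr
            _ = _ := by ring
        refine (Finset.sum_le_sum (fun c _ => this c)).trans ?_
        rw [← Finset.mul_sum, Finset.sum_add_distrib, ← Finset.sum_mul, ← Finset.mul_sum, hm,
          H.sum_one, mul_comm]
        have := Real.add_one_le_exp ((l * K) ^ 2)
        have h6 := Real.exp_pos (l * S n h)
        gcongr
        linarith)
    refine h1.trans ?_
    rw [integral_const_mul]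
    calc Real.exp ((l * K) ^ 2) * ∫ ω, Real.exp (l * S n (fun k => C k ω)) ∂P
        ≤ Real.exp ((l * K) ^ 2) * Real.exp (n * (l * K) ^ 2) := by gcongr
      _ = _ := by rw [← Real.exp_add]; push_cast; ring_nf

theorem Chain.conc (H : Chain P C w) {S : ℕ → (ℕ → Ch) → ℝ} (hS : ∀ n, Dep n (S n))
    (h0 : ∀ h, S 0 h = 0) {K : ℝ} (hK : 0 < K)
    (hstep : ∀ n h, ∃ ξ : Ch → ℝ, (∀ c, |ξ c| ≤ K) ∧ ∑ c, w n h c * ξ c = 0 ∧
      ∀ c, S (n + 1) (Function.update h n c) = S n h + ξ c) :
    ∀ᵐ ω ∂P, ∀ᶠ n : ℕ in atTop, S n (fun k => C k ω) ≤ K * (n : ℝ) ^ (7 / 10 : ℝ) := by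
  set s : ℕ → Set Ω := fun n => {ω | K * (n : ℝ) ^ (7 / 10 : ℝ) < S n (fun k => C k ω)} with hs
  have hb : ∀ n, P (s n) ≤ ENNReal.ofReal (Real.exp 1 * (Nat.factorial 10) * (1 / (n : ℝ) ^ 2)) := by
    intro n
    rcases Nat.eq_zero_or_pos n with rfl | hn
    · have : s 0 = ∅ := by
        ext ω; simp [hs, h0]
      simp [this]
    have hn' : (0 : ℝ) < n := by exact_mod_cast hn
    have hn1 : (1 : ℝ) ≤ n := by exact_mod_cast hn
    set l : ℝ := (n : ℝ) ^ (-(1 / 2) : ℝ) / K with hl
    have hl0 : 0 < l := by positivity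
    have hlK : l * K = (n : ℝ) ^ (-(1 / 2) : ℝ) := by rw [hl]; field_simp
    have hlK1 : l * K ≤ 1 := by
      rw [hlK]; exact Real.rpow_le_one_of_one_le_of_nonpos hn1 (by norm_num)
    have hm := H.exp_moment hS h0 hK hstep hl0.le hlK1 n
    have e1 : (n : ℝ) * (l * K) ^ 2 = 1 := by
      rw [hlK, ← Real.rpow_natCast, ← Real.rpow_mul hn'.le]
      norm_num
      rw [Real.rpow_neg_one]; field_simp
    rw [e1] at hm
    have hint : Integrable (fun ω => Real.exp (l * S n (fun k => C k ω))) P :=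
      H.integrable (n := n) (g := fun h => Real.exp (l * S n h))
        (fun h h' hh => by simp only [hS n h h' hh])
    have hmk := mul_meas_ge_le_integral_of_nonneg (μ := P)
      (Filter.Eventually.of_forall (fun ω => (Real.exp_pos _).le)) hint
      (Real.exp ((n : ℝ) ^ (1 / 5 : ℝ)))
    have hsub : s n ⊆ {ω | Real.exp ((n : ℝ) ^ (1 / 5 : ℝ)) ≤
        Real.exp (l * S n (fun k => C k ω))} := by
      intro ω hω
      simp only [hs, Set.mem_ofPred_eq] at hω ⊢
      apply Real.exp_le_exp.2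
      have : l * (K * (n : ℝ) ^ (7 / 10 : ℝ)) = (n : ℝ) ^ (1 / 5 : ℝ) := by
        rw [← mul_assoc, hlK, ← Real.rpow_add hn']; norm_num
      rw [← this]
      exact mul_le_mul_of_nonneg_left hω.le hl0.le
    have h2 : P.real (s n) ≤ P.real {ω | Real.exp ((n : ℝ) ^ (1 / 5 : ℝ)) ≤
        Real.exp (l * S n (fun k => C k ω))} := measureReal_mono hsub
    have h3 := Real.pow_div_factorial_le_exp ((n : ℝ) ^ (1 / 5 : ℝ)) (by positivity) 10
    have e2 : ((n : ℝ) ^ (1 / 5 : ℝ)) ^ 10 = (n : ℝ) ^ 2 := by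
      rw [← Real.rpow_natCast, ← Real.rpow_mul hn'.le]; norm_num
    rw [e2] at h3
    have h4 : (n : ℝ) ^ 2 / (Nat.factorial 10) * P.real (s n) ≤ Real.exp 1 := by
      refine le_trans ?_ (hmk.trans hm)
      exact mul_le_mul h3 h2 measureReal_nonneg (Real.exp_pos _).le
    have h5 : P.real (s n) ≤ Real.exp 1 * (Nat.factorial 10) * (1 / (n : ℝ) ^ 2) := by
      have hf : (0 : ℝ) < (Nat.factorial 10 : ℕ) := by positivity
      rw [div_mul_eq_mul_div, div_le_iff₀ hf] at h4
      rw [mul_one_div, le_div_iff₀ (by positivity)]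
      linarith
    rw [← ENNReal.ofReal_toReal (measure_ne_top P (s n))]
    exact ENNReal.ofReal_le_ofReal h5
  have hsum : Summable (fun n : ℕ => Real.exp 1 * (Nat.factorial 10) * (1 / (n : ℝ) ^ 2)) :=
    (Real.summable_one_div_nat_pow.2 (by norm_num)).mul_left _
  have hne : ∑' n, P (s n) ≠ ⊤ :=
    ne_top_of_le_ne_top hsum.tsum_ofReal_ne_top (ENNReal.tsum_le_tsum hb)
  filter_upwards [ae_eventually_notMem hne] with ω hω
  filter_upwards [hω] with n hn
  simpa [hs] using hn

end Pool.Agent.H422Z.Urn
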