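import Mathlib

/-!
The graph-based Polya urn.
-/

set_option autoImplicit false

open MeasureTheory

namespace Pool.Agent.H422Z.UrnModel

variable {m : ℕ} (G : SimpleGraph (Fin m)) [DecidableRel G.Adj]

/-- The outcome of one step: every edge chooses one of its two endpoints. -/
abbrev Choice := (e : G.edgeSet) → {v : Fin m // v ∈ (e : Sym2 (Fin m))}

/-- `balls G B₀ h n v` is the number of balls at the vertex `v` after `n` steps, when the initial
configuration is `B₀` and the outcomes of the steps `1, 2, 3, ...` are `h 0, h 1, h 2, ...`. -/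
def balls (B₀ : Fin m → ℕ) (h : ℕ → Choice G) : ℕ → Fin m → ℕ
  | 0 => B₀
  | n + 1 => fun v =>
      balls B₀ h n v + (Finset.univ.filter (fun e : G.edgeSet => (h n e : Fin m) = v)).card

/-- The probability `B v ^ α / (B v ^ α + B w ^ α)` that the edge `e` with endpoints `v` and `w`
gives its ball to `v` in the configuration `B`. -/
noncomputable def winProb (α : ℝ) (B : Fin m → ℕ) (e : G.edgeSet)
    (v : {v : Fin m // v ∈ (e : Sym2 (Fin m))}) : ℝ :=
  (B v : ℝ) ^ α / ((B v : ℝ) ^ α + (B (Sym2.Mem.other v.2) : ℝ) ^ α)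

/-- The random outcomes `C 0, C 1, ...` form the urn process: given the outcomes of the first `n`
steps, in the next step the edges choose independently with the probabilities `winProb`. -/
structure IsUrn (α : ℝ) (B₀ : Fin m → ℕ) {Ω : Type*} [MeasurableSpace Ω] (P : Measure Ω)
    (C : ℕ → Ω → Choice G) : Prop where
  meas : ∀ n c, MeasurableSet {ω | C n ω = c}
  step : ∀ (n : ℕ) (h : ℕ → Choice G), P {ω | ∀ k ≤ n, C k ω = h k} =
    P {ω | ∀ k < n, C k ω = h k} *
      ENNReal.ofReal (∏ e : G.edgeSet, winProb G α (balls G B₀ h n) e (h n e))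

/-- The proportions `x i (n) = B i (n) / (N₀ + n N)`, `N` the number of edges. -/
noncomputable def prop (B₀ : Fin m → ℕ) (h : ℕ → Choice G) (n : ℕ) (i : Fin m) : ℝ :=
  (balls G B₀ h n i : ℝ) / ((∑ j, B₀ j : ℕ) + n * G.edgeFinset.card)

end Pool.Agent.H422Z.UrnModel
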