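import Pool.Agent.H422Z.Urn.Gap

/-!
Equilibria of the mean-field dynamics for large exponent: two scales of edge weights.
-/

set_option autoImplicit false

open Filter Topology Finset

namespace Pool.Agent.H422Z.Urn

/-- the winning probability -/
noncomputable def q (α a b : ℝ) : ℝ := a ^ α / (a ^ α + b ^ α)

theorem den_pos {α a b : ℝ} (ha : 0 ≤ a) (hb : 0 ≤ b) (hab : 0 < a + b) :
    0 < a ^ α + b ^ α := by
  rcases ha.lt_or_eq with h | h
  · exact add_pos_of_pos_of_nonneg (Real.rpow_pos_of_pos h _) (Real.rpow_nonneg hb _)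
  · exact add_pos_of_nonneg_of_pos (Real.rpow_nonneg ha _)
      (Real.rpow_pos_of_pos (by linarith) _)

theorem q_nonneg {α a b : ℝ} (ha : 0 ≤ a) (hb : 0 ≤ b) : 0 ≤ q α a b :=
  div_nonneg (Real.rpow_nonneg ha _) (add_nonneg (Real.rpow_nonneg ha _) (Real.rpow_nonneg hb _))

theorem q_add {α a b : ℝ} (ha : 0 ≤ a) (hb : 0 ≤ b) (hab : 0 < a + b) :
    q α a b + q α b a = 1 := by
  have := den_pos (α := α) ha hb hab
  rw [q, q, add_comm (b ^ α), ← add_div, div_self this.ne']

theorem q_le_one {α a b : ℝ} (ha : 0 ≤ a) (hb : 0 ≤ b) : q α a b ≤ 1 :=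
  div_le_one_of_le₀ (le_add_of_nonneg_right (Real.rpow_nonneg hb _))
    (add_nonneg (Real.rpow_nonneg ha _) (Real.rpow_nonneg hb _))

theorem q_le_rpow {α a b r : ℝ} (hα : 0 ≤ α) (ha : 0 ≤ a) (hb : 0 < b) (hr : 0 ≤ r)
    (h : a ≤ r * b) : q α a b ≤ r ^ α := by
  have h1 : a ^ α ≤ r ^ α * b ^ α := by
    rw [← Real.mul_rpow hr hb.le]; exact Real.rpow_le_rpow ha h hα
  have h2 := Real.rpow_pos_of_pos hb α
  have h3 := Real.rpow_nonneg ha α
  have h4 := Real.rpow_nonneg hr α
  rw [q, div_le_iff₀ (by linarith)]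
  nlinarith

theorem q_ge {α a b r : ℝ} (hα : 0 ≤ α) (ha : 0 < a) (hb : 0 ≤ b) (hr : 0 ≤ r)
    (h : b ≤ r * a) : 1 / (1 + r ^ α) ≤ q α a b := by
  have h1 : b ^ α ≤ r ^ α * a ^ α := by
    rw [← Real.mul_rpow hr ha.le]; exact Real.rpow_le_rpow hb h hα
  have h2 := Real.rpow_pos_of_pos ha α
  have h3 := Real.rpow_nonneg hb α
  have h4 := Real.rpow_nonneg hr α
  rw [q, div_le_div_iff₀ (by linarith) (by linarith)]
  nlinarith

variable {V : Type*} [Fintype V] (G : SimpleGraph V)

open Classical in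
/-- expected number of balls received by each vertex -/
noncomputable def ff (α : ℝ) (x : V → ℝ) : V → ℝ :=
  fun i => ∑ j, if G.Adj i j then q α (x i) (x j) else 0

/-- equilibria -/
def Eqm (α : ℝ) (y : V → ℝ) : Prop :=
  (∀ i, 0 ≤ y i) ∧ (∀ i j, G.Adj i j → 0 < y i + y j) ∧ ∀ i, ff G α y i = y i

open Classical in
/-- edge weights of the linearisation -/
noncomputable def W (α : ℝ) (y : V → ℝ) (i j : V) : ℝ :=
  if G.Adj i j then α * (q α (y i) (y j) * q α (y j) (y i)) else 0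

variable {G}

theorem W_symm (α : ℝ) (y : V → ℝ) (i j : V) : W G α y i j = W G α y j i := by
  unfold W
  by_cases h : G.Adj i j
  · rw [if_pos h, if_pos h.symm, mul_comm (q α (y i) (y j))]
  · rw [if_neg h, if_neg (fun h' => h h'.symm)]

theorem W_nonneg {α : ℝ} (hα : 0 ≤ α) {y : V → ℝ} (hy : ∀ i, 0 ≤ y i) (i j : V) :
    0 ≤ W G α y i j := by
  unfold W
  split_ifs
  · exact mul_nonneg hα (mul_nonneg (q_nonneg (hy _) (hy _)) (q_nonneg (hy _) (hy _)))
  · exact le_rfl

theorem ff_nonneg {α : ℝ} {y : V → ℝ} (hy : ∀ i, 0 ≤ y i) (i : V) : 0 ≤ ff G α y i :=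
  Finset.sum_nonneg (fun j _ => by
    split_ifs
    · exact q_nonneg (hy _) (hy _)
    · exact le_rfl)

theorem ff_le_of {α : ℝ} {y : V → ℝ} (i : V) {B : ℝ} (hB : 0 ≤ B)
    (h : ∀ j, G.Adj i j → q α (y i) (y j) ≤ B) : ff G α y i ≤ Fintype.card V * B := by
  have := Finset.sum_le_card_nsmul Finset.univ
    (fun j => open Classical in if G.Adj i j then q α (y i) (y j) else 0) B (fun j _ => by
      split_ifs with hj
      · exact h j hj
      · exact hB)
  rw [nsmul_eq_mul, Finset.card_univ] at this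
  exact this

theorem ff_le_card {α : ℝ} {y : V → ℝ} (hy : ∀ i, 0 ≤ y i) (i : V) :
    ff G α y i ≤ Fintype.card V := by
  simpa using ff_le_of (G := G) (α := α) (y := y) i zero_le_one
    (fun j _ => q_le_one (hy _) (hy _))

theorem q_le_ff {α : ℝ} {y : V → ℝ} (hy : ∀ i, 0 ≤ y i) {i j : V} (h : G.Adj i j) :
    q α (y i) (y j) ≤ ff G α y i := by
  classical
  have := Finset.single_le_sum (s := Finset.univ)
    (f := fun j => open Classical in if G.Adj i j then q α (y i) (y j) else 0) (fun j _ => by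
      split_ifs
      · exact q_nonneg (hy _) (hy _)
      · exact le_rfl) (mem_univ j)
  simp only [if_pos h] at this
  exact this

theorem one_le_ff_add {α : ℝ} {y : V → ℝ} (hy : ∀ i, 0 ≤ y i) {i j : V} (h : G.Adj i j)
    (hp : 0 < y i + y j) : 1 ≤ ff G α y i + ff G α y j := by
  have h1 := q_le_ff (α := α) hy h
  have h2 := q_le_ff (α := α) hy h.symm
  have h3 := q_add (α := α) (hy i) (hy j) hp
  linarith

theorem Eqm.zero_or {α : ℝ} {y : V → ℝ} (hE : Eqm G α y) (hα : 1 ≤ α)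
    (hs : 3 * Fintype.card V * (1 / 2 : ℝ) ^ α < 1) (i : V) : y i = 0 ∨ 1 / 3 ≤ y i := by
  obtain ⟨h0, hp, hf⟩ := hE
  by_contra hn
  push Not at hn
  obtain ⟨hn1, hn2⟩ := hn
  have hyi : 0 < y i := lt_of_le_of_ne (h0 i) (Ne.symm hn1)
  have h1 := ff_le_of (G := G) (α := α) (y := y) i (B := 3 * y i * (1 / 2 : ℝ) ^ α)
    (by positivity) (fun j hj => by
      have h2 := one_le_ff_add (α := α) h0 hj (hp i j hj)
      rw [hf, hf] at h2
      have h3 := q_le_rpow (α := α) (a := y i) (b := y j) (r := 3 * y i * (1 / 2)) (by linarith)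
        (h0 i) (by linarith) (by positivity) (by nlinarith)
      refine h3.trans ?_
      rw [Real.mul_rpow (by positivity) (by norm_num)]
      refine mul_le_mul_of_nonneg_right ?_ (by positivity)
      exact Real.rpow_le_self_of_le_one (by positivity) (by linarith) hα)
  rw [hf] at h1
  have h4 : y i * (3 * Fintype.card V * (1 / 2 : ℝ) ^ α) < y i * 1 :=
    mul_lt_mul_of_pos_left hs hyi
  linarith

theorem Eqm.le_card {α : ℝ} {y : V → ℝ} (hE : Eqm G α y) (i : V) : y i ≤ Fintype.card V := by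
  rw [← hE.2.2 i]; exact ff_le_card hE.1 i

theorem Eqm.cut_sum {α : ℝ} {y : V → ℝ} (hE : Eqm G α y) (U : Finset V) {ε1 ε2 M : ℝ}
    (h1 : 0 ≤ ε1) (h2 : 0 ≤ ε2) (hM : (Fintype.card V : ℝ) ≤ M)
    (h : ∀ v ∈ U, ∀ w, w ∉ U → G.Adj v w → q α (y v) (y w) ≤ ε1 ∨ q α (y w) (y v) ≤ ε2) :
    ∃ a : ℤ, a - 2 * M ^ 2 * ε2 ≤ 2 * ∑ v ∈ U, y v ∧ 2 * ∑ v ∈ U, y v ≤ a + 2 * M ^ 2 * ε1 := by
  classical
  obtain ⟨h0, hp, hf⟩ := hE
  set T : V → V → ℝ := fun v w => if G.Adj v w then q α (y v) (y w) else 0 with hT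
  set t : V → V → ℝ := fun v w => if w ∈ U then T v w + T w v else 2 * T v w with ht
  have hsum : 2 * ∑ v ∈ U, y v = ∑ v ∈ U, ∑ w, t v w := by
    have e1 : ∀ v, y v = ∑ w ∈ U, T v w + ∑ w ∈ Uᶜ, T v w := fun v => by
      rw [Finset.sum_add_sum_compl, ← hf v]; rfl
    have e2 : ∀ v, ∑ w, t v w =
        ∑ w ∈ U, T v w + ∑ w ∈ U, T w v + 2 * ∑ w ∈ Uᶜ, T v w := fun v => by
      rw [← Finset.sum_add_sum_compl U, ← Finset.sum_add_distrib, Finset.mul_sum]
      congr 1
      · exact Finset.sum_congr rfl (fun w hw => by simp only [ht, if_pos hw])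
      · exact Finset.sum_congr rfl (fun w hw => by
          simp only [ht, if_neg (Finset.mem_compl.1 hw)])
    simp only [e2, Finset.sum_add_distrib]
    rw [Finset.sum_congr rfl (fun v _ => e1 v), Finset.sum_add_distrib,
      Finset.sum_comm (s := U) (t := U) (f := fun v w => T w v), ← Finset.mul_sum]
    ring
  have hint : ∀ v w, ∃ n : ℤ, v ∈ U → n - 2 * ε2 ≤ t v w ∧ t v w ≤ n + 2 * ε1 := by
    intro v w
    by_cases hadj : G.Adj v w
    · have ha := q_add (α := α) (h0 v) (h0 w) (hp v w hadj)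
      have hb := q_nonneg (α := α) (h0 v) (h0 w)
      have hc := q_nonneg (α := α) (h0 w) (h0 v)
      by_cases hw : w ∈ U
      · refine ⟨1, fun _ => ?_⟩
        simp only [ht, hT, if_pos hw, if_pos hadj, if_pos hadj.symm]
        push_cast; constructor <;> linarith
      · by_cases hv : v ∈ U
        · rcases h v hv w hw hadj with h3 | h3
          · refine ⟨0, fun _ => ?_⟩
            simp only [ht, hT, if_neg hw, if_pos hadj]
            push_cast; constructor <;> linarith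
          · refine ⟨2, fun _ => ?_⟩
            simp only [ht, hT, if_neg hw, if_pos hadj]
            push_cast; constructor <;> linarith
        · exact ⟨0, fun hv' => absurd hv' hv⟩
    · refine ⟨0, fun _ => ?_⟩
      have hadj' : ¬ G.Adj w v := fun h' => hadj h'.symm
      simp only [ht, hT, if_neg hadj, if_neg hadj']
      split_ifs <;> push_cast <;> constructor <;> linarith
  choose n hn using hint
  have hM0 : 0 ≤ M := le_trans (Nat.cast_nonneg _) hM
  have hU : (U.card : ℝ) ≤ M := le_trans (by exact_mod_cast U.card_le_univ) hM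
  have hcc : (U.card : ℝ) * Fintype.card V ≤ M ^ 2 := by
    rw [sq]; exact mul_le_mul hU hM (Nat.cast_nonneg _) hM0
  refine ⟨∑ v ∈ U, ∑ w, n v w, ?_, ?_⟩
  · have := Finset.sum_le_sum (s := U) (fun v hv => Finset.sum_le_sum (s := Finset.univ)
      (fun w _ => (hn v w hv).1))
    simp only [Finset.sum_sub_distrib, Finset.sum_const, Finset.card_univ, nsmul_eq_mul] at this
    rw [hsum]
    push_cast
    have h3 := mul_le_mul_of_nonneg_right hcc h2
    linarith
  · have := Finset.sum_le_sum (s := U) (fun v hv => Finset.sum_le_sum (s := Finset.univ)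
      (fun w _ => (hn v w hv).2))
    simp only [Finset.sum_add_distrib, Finset.sum_const, Finset.card_univ, nsmul_eq_mul] at this
    rw [hsum]
    push_cast
    have h3 := mul_le_mul_of_nonneg_right hcc h1
    linarith

theorem Eqm.ratio {α : ℝ} {y : V → ℝ} (hE : Eqm G α y) (hα : 0 ≤ α)
    (hz : ∀ i, y i = 0 ∨ 1 / 3 ≤ y i) {c ρ εQ η M : ℝ} (hM : (Fintype.card V : ℝ) + 1 = M)
    (hc : 0 < c) (hρ : 1 ≤ ρ) (hQ : (1 / ρ) ^ α ≤ εQ) (hη : (1 - c / M) ^ α ≤ η)
    (hc1 : (M + 1) * c < 1 / 3) (hc2 : 2 * M ^ 2 * ((2 * M + 1) * c) + 4 * M ^ 3 * εQ < 1)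
    (hc3 : 4 * M ^ 3 * η < 2 / 3 * (ρ - 1)) {i j : V} (hj : 0 < y j) :
    y i ≤ y j * ρ ^ (Fintype.card V + 1) ∨ y j + c ≤ y i := by
  classical
  by_contra hn
  push Not at hn
  obtain ⟨hn1, hn2⟩ := hn
  have h0 := hE.1
  have hm0 : (0 : ℝ) ≤ Fintype.card V := Nat.cast_nonneg _
  have hM1 : 1 ≤ M := by linarith
  have hj3 : 1 / 3 ≤ y j := (hz j).resolve_left hj.ne'
  have hle : ∀ v, y v ≤ M := fun v => by linarith [hE.le_card v]
  have hcM : 0 ≤ 1 - c / M := by
    rw [sub_nonneg, div_le_one (by linarith)]; nlinarith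
  have hεQ : 0 ≤ εQ := le_trans (by positivity) hQ
  have hη0 : 0 ≤ η := le_trans (Real.rpow_nonneg hcM _) hη
  have hfar : ∀ v w, y v + c ≤ y w → q α (y v) (y w) ≤ η := by
    intro v w hvw
    have hw : 0 < y w := by linarith [h0 v]
    refine (q_le_rpow hα (h0 v) hw hcM ?_).trans hη
    have : c / M * y w ≤ c := by
      rw [div_mul_eq_mul_div, div_le_iff₀ (by linarith)]
      exact mul_le_mul_of_nonneg_left (hle w) hc.le
    linarith
  obtain ⟨k, hk, hg⟩ := exists_gap y (fun k => y j * ρ ^ k) (fun a b hab =>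
    mul_le_mul_of_nonneg_left (pow_le_pow_right₀ hρ hab) hj.le)
  obtain ⟨k1, hk1, hg1⟩ := exists_gap y (fun k => y i + k * c) (fun a b hab => by
    have : (a : ℝ) ≤ b := by exact_mod_cast hab
    have := mul_le_mul_of_nonneg_right this hc.le
    simp only; linarith)
  obtain ⟨k2, hk2, hg2⟩ := exists_gap y (fun k => y j - (M + 1) * c + k * c) (fun a b hab => by
    have : (a : ℝ) ≤ b := by exact_mod_cast hab
    have := mul_le_mul_of_nonneg_right this hc.le
    simp only; linarith)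
  push_cast at hg1 hg2
  set τ := y j * ρ ^ k with hτ
  have hg' : ∀ v, y v ≤ τ ∨ τ * ρ < y v := fun v => by
    have := hg v
    rwa [pow_succ, ← mul_assoc] at this
  have hτj : y j ≤ τ := le_mul_of_one_le_right hj.le (one_le_pow₀ hρ)
  have hτi : τ * ρ < y i := by
    refine lt_of_le_of_lt ?_ hn1
    rw [hτ, mul_assoc, ← pow_succ]
    exact mul_le_mul_of_nonneg_left (pow_le_pow_right₀ hρ (by omega)) hj.le
  have hτρ : τ ≤ τ * ρ := le_mul_of_one_le_right (by linarith) hρ
  have hk1' : (k1 : ℝ) * c ≤ (M - 1) * c := by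
    have : (k1 : ℝ) ≤ Fintype.card V := by exact_mod_cast hk1
    exact mul_le_mul_of_nonneg_right (by linarith) hc.le
  have hk2' : (k2 : ℝ) * c ≤ (M - 1) * c := by
    have : (k2 : ℝ) ≤ Fintype.card V := by exact_mod_cast hk2
    exact mul_le_mul_of_nonneg_right (by linarith) hc.le
  have hk10 : 0 ≤ (k1 : ℝ) * c := by positivity
  have hk20 : 0 ≤ (k2 : ℝ) * c := by positivity
  set hi := y i + k1 * c with hhi
  set lo := y j - (M + 1) * c + (k2 + 1) * c with hlo
  set U := Finset.univ.filter (fun v => τ * ρ < y v ∧ y v ≤ hi) with hU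
  set L := Finset.univ.filter (fun v => lo < y v ∧ y v ≤ τ) with hL
  have hUm : ∀ v, v ∈ U ↔ τ * ρ < y v ∧ y v ≤ hi := fun v => by simp [hU]
  have hLm : ∀ v, v ∈ L ↔ lo < y v ∧ y v ≤ τ := fun v => by simp [hL]
  have hiU : i ∈ U := (hUm i).2 ⟨hτi, by linarith⟩
  have hjL : j ∈ L := (hLm j).2 ⟨by linarith, hτj⟩
  have hnear : ∀ v w, y w ≤ τ → τ * ρ < y v → q α (y w) (y v) ≤ εQ := by
    intro v w hw hv
    refine (q_le_rpow hα (h0 w) (by linarith) (by positivity) ?_).trans hQ
    rw [one_div, inv_mul_eq_div, le_div_iff₀ (by linarith)]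
    have := mul_le_mul_of_nonneg_right hw (by linarith : 0 ≤ ρ)
    linarith
  obtain ⟨a, ha1, ha2⟩ := hE.cut_sum U hη0 hεQ (M := M) (by linarith) (fun v hv w hw _ => by
    obtain ⟨hv1, hv2⟩ := (hUm v).1 hv
    rcases hg' w with h | h
    · exact Or.inr (hnear v w h hv1)
    · have h2 : ¬ y w ≤ hi := fun h' => hw ((hUm w).2 ⟨h, h'⟩)
      rcases hg1 w with h3 | h3
      · exact absurd h3 h2
      · exact Or.inl (hfar v w (by linarith)))
  obtain ⟨b, hb1, hb2⟩ := hE.cut_sum L hεQ hη0 (M := M) (by linarith) (fun v hv w hw _ => by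
    obtain ⟨hv1, hv2⟩ := (hLm v).1 hv
    rcases hg' w with h | h
    · have h2 : ¬ lo < y w := fun h' => hw ((hLm w).2 ⟨h', h⟩)
      rcases hg2 w with h3 | h3
      · exact Or.inr (hfar w v (by linarith))
      · exact absurd h3 h2
    · exact Or.inl (hnear w v hv2 h))
  have hcard : ∀ S : Finset V, (S.card : ℝ) ≤ M := fun S => by
    have : (S.card : ℝ) ≤ Fintype.card V := by exact_mod_cast S.card_le_univ
    linarith
  have hU1 : (1 : ℝ) ≤ U.card := by exact_mod_cast Finset.card_pos.2 ⟨i, hiU⟩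
  have hL1 : (1 : ℝ) ≤ L.card := by exact_mod_cast Finset.card_pos.2 ⟨j, hjL⟩
  have hUM := hcard U
  have hLM := hcard L
  have sU1 : (U.card : ℝ) * (τ * ρ) ≤ ∑ v ∈ U, y v := by
    have := Finset.card_nsmul_le_sum U y (τ * ρ) (fun v hv => ((hUm v).1 hv).1.le)
    rwa [nsmul_eq_mul] at this
  have sU2 : ∑ v ∈ U, y v ≤ (U.card : ℝ) * hi := by
    have := Finset.sum_le_card_nsmul U y hi (fun v hv => ((hUm v).1 hv).2)
    rwa [nsmul_eq_mul] at this
  have sL1 : (L.card : ℝ) * lo ≤ ∑ v ∈ L, y v := by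
    have := Finset.card_nsmul_le_sum L y lo (fun v hv => ((hLm v).1 hv).1.le)
    rwa [nsmul_eq_mul] at this
  have sL2 : ∑ v ∈ L, y v ≤ (L.card : ℝ) * τ := by
    have := Finset.sum_le_card_nsmul L y τ (fun v hv => ((hLm v).1 hv).2)
    rwa [nsmul_eq_mul] at this
  set u : ℝ := (U.card : ℝ) with hu
  set l : ℝ := (L.card : ℝ) with hl
  set SU := ∑ v ∈ U, y v
  set SL := ∑ v ∈ L, y v
  have hul : u * l ≤ M ^ 2 := by rw [sq]; exact mul_le_mul hUM hLM (by linarith) (by linarith)
  have hul1 : 1 ≤ u * l := one_le_mul_of_one_le_of_one_le hU1 hL1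
  have D1 : 2 * (u * l) * (τ * (ρ - 1)) ≤ l * (2 * SU) - u * (2 * SL) := by
    have e1 := mul_le_mul_of_nonneg_left sU1 (by linarith : 0 ≤ l)
    have e2 := mul_le_mul_of_nonneg_left sL2 (by linarith : 0 ≤ u)
    linarith
  have D2 : l * (2 * SU) - u * (2 * SL) ≤ 2 * M ^ 2 * ((2 * M + 1) * c) := by
    have e1 := mul_le_mul_of_nonneg_left sU2 (by linarith : 0 ≤ l)
    have e2 := mul_le_mul_of_nonneg_left sL1 (by linarith : 0 ≤ u)
    have e3 : hi - lo ≤ (2 * M + 1) * c := by linarith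
    have e4 : u * l * (hi - lo) ≤ u * l * ((2 * M + 1) * c) :=
      mul_le_mul_of_nonneg_left e3 (by linarith)
    have e5 : u * l * ((2 * M + 1) * c) ≤ M ^ 2 * ((2 * M + 1) * c) :=
      mul_le_mul_of_nonneg_right hul (by positivity)
    linarith
  have D3 : l * a - u * b - 4 * M ^ 3 * εQ ≤ l * (2 * SU) - u * (2 * SL) := by
    have e1 := mul_le_mul_of_nonneg_left ha1 (by linarith : 0 ≤ l)
    have e2 := mul_le_mul_of_nonneg_left hb2 (by linarith : 0 ≤ u)
    have e3 := mul_le_mul_of_nonneg_right hLM (by positivity : 0 ≤ 2 * M ^ 2 * εQ)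
    have e4 := mul_le_mul_of_nonneg_right hUM (by positivity : 0 ≤ 2 * M ^ 2 * εQ)
    linarith
  have D4 : l * (2 * SU) - u * (2 * SL) ≤ l * a - u * b + 4 * M ^ 3 * η := by
    have e1 := mul_le_mul_of_nonneg_left ha2 (by linarith : 0 ≤ l)
    have e2 := mul_le_mul_of_nonneg_left hb1 (by linarith : 0 ≤ u)
    have e3 := mul_le_mul_of_nonneg_right hLM (by positivity : 0 ≤ 2 * M ^ 2 * η)
    have e4 := mul_le_mul_of_nonneg_right hUM (by positivity : 0 ≤ 2 * M ^ 2 * η)
    linarith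
  have hint : l * a - u * b ≤ 0 := by
    have h1 : (((L.card : ℤ) * a - (U.card : ℤ) * b : ℤ) : ℝ) < 1 := by
      push_cast; linarith
    have h2 : (L.card : ℤ) * a - (U.card : ℤ) * b < 1 := by exact_mod_cast h1
    have h3 : (L.card : ℤ) * a - (U.card : ℤ) * b ≤ 0 := by omega
    have h4 : (((L.card : ℤ) * a - (U.card : ℤ) * b : ℤ) : ℝ) ≤ 0 := by exact_mod_cast h3
    push_cast at h4
    exact h4
  have D5 : 1 / 3 * (ρ - 1) ≤ τ * (ρ - 1) :=
    mul_le_mul_of_nonneg_right (by linarith) (by linarith)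
  have D6 : 1 * (τ * (ρ - 1)) ≤ u * l * (τ * (ρ - 1)) :=
    mul_le_mul_of_nonneg_right hul1 (by linarith)
  linarith

theorem tendsto_mul_rpow {r : ℝ} (h0 : 0 < r) (h1 : r < 1) :
    Tendsto (fun α : ℝ => α * r ^ α) atTop (𝓝 0) := by
  have h := tendsto_rpow_mul_exp_neg_mul_atTop_nhds_zero 1 (-Real.log r)
    (by linarith [Real.log_neg h0 h1])
  refine h.congr (fun α => ?_)
  rw [Real.rpow_one, Real.rpow_def_of_pos h0, neg_neg]

variable (G) in
theorem two_scales {K0 ε : ℝ} (hε : 0 < ε) :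
    ∀ᶠ α : ℝ in atTop, ∀ y, Eqm G α y → (∀ i, y i = 0 ∨ 1 / 3 ≤ y i) ∧
      ∀ i j, K0 ≤ W G α y i j ∨ W G α y i j ≤ ε := by
  set M : ℝ := Fintype.card V + 1 with hM
  have hm0 : (0 : ℝ) ≤ Fintype.card V := Nat.cast_nonneg _
  have hM1 : 1 ≤ M := by linarith
  set c : ℝ := 1 / (20 * M ^ 3) with hc
  set Q : ℝ := 8 * M ^ 3 with hQ
  have hM3 : M ≤ M ^ 3 := by
    have := pow_le_pow_right₀ hM1 (show 1 ≤ 3 by norm_num); simpa using this
  have hc0 : 0 < c := by positivity
  have hQ1 : 1 < Q := by linarith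
  have hcM : c * M ^ 3 = 1 / 20 := by rw [hc]; field_simp
  have hcM' : c * M ≤ 1 / 20 := by
    have := mul_le_mul_of_nonneg_left hM3 hc0.le; linarith
  have hc1' : c ≤ c * M := le_mul_of_one_le_right hc0.le hM1
  have hr0 : 0 < 1 - c / M := by
    rw [sub_pos, div_lt_one (by linarith)]; linarith
  have hr1 : 1 - c / M < 1 := by
    have : 0 < c / M := by positivity
    linarith
  have hlQ : 0 < Real.log Q := Real.log_pos hQ1
  have T1 := tendsto_mul_rpow hr0 hr1
  have T2 := tendsto_mul_rpow (r := 1 / 2) (by norm_num) (by norm_num)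
  filter_upwards [eventually_ge_atTop 1,
    eventually_ge_atTop (K0 * (2 * (1 + Q ^ (Fintype.card V + 1)))),
    T1.eventually (gt_mem_nhds hε),
    T1.eventually (gt_mem_nhds (show 0 < Real.log Q / (6 * M ^ 3) by positivity)),
    T2.eventually (gt_mem_nhds (show 0 < 1 / (3 * M) by positivity))] with α hα1 hα2 e1 e2 e3
  intro y hE
  have hα0 : 0 < α := by linarith
  have hz : ∀ i, y i = 0 ∨ 1 / 3 ≤ y i := hE.zero_or hα1 (by
    have h1 : (1 / 2 : ℝ) ^ α ≤ α * (1 / 2 : ℝ) ^ α :=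
      le_mul_of_one_le_left (by positivity) hα1
    rw [lt_div_iff₀ (by positivity)] at e3
    have h2 : (0 : ℝ) ≤ (1 / 2 : ℝ) ^ α := by positivity
    nlinarith)
  refine ⟨hz, ?_⟩
  set ρ : ℝ := Q ^ (1 / α) with hρ
  have hρ1 : 1 ≤ ρ := Real.one_le_rpow hQ1.le (by positivity)
  have hρα : ρ ^ α = Q := by
    rw [hρ, ← Real.rpow_mul (by linarith), one_div_mul_cancel hα0.ne', Real.rpow_one]
  have hρl : Real.log Q / α ≤ ρ - 1 := by
    rw [hρ, Real.rpow_def_of_pos (by linarith)]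
    have := Real.add_one_le_exp (Real.log Q * (1 / α))
    rw [mul_one_div] at this ⊢
    linarith
  have key : ∀ i j, 0 < y j → y i ≤ y j * ρ ^ (Fintype.card V + 1) ∨ y j + c ≤ y i := by
    intro i j hj
    refine hE.ratio hα0.le hz (εQ := 1 / Q) (η := (1 - c / M) ^ α) hM.symm hc0 hρ1 ?_ le_rfl
      (by linarith) ?_ ?_ hj
    · rw [Real.div_rpow zero_le_one (by linarith), Real.one_rpow, hρα]
    · have : 4 * M ^ 3 * (1 / Q) = 1 / 2 := by rw [hQ]; field_simp; norm_num
      have h2 : c * M ^ 2 ≤ c * M ^ 3 :=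
        mul_le_mul_of_nonneg_left (pow_le_pow_right₀ hM1 (by norm_num)) hc0.le
      nlinarith
    · rw [lt_div_iff₀ (by positivity)] at e2
      rw [div_le_iff₀ hα0] at hρl
      have : 4 * M ^ 3 * (1 - c / M) ^ α * α < 2 / 3 * (ρ - 1) * α := by linarith
      exact lt_of_mul_lt_mul_right this hα0.le
  have main : ∀ i j, y j ≤ y i → K0 ≤ W G α y i j ∨ W G α y i j ≤ ε := by
    intro i j hij
    unfold W
    split_ifs with hadj
    · have h0 := hE.1
      have q1 := q_le_one (α := α) (h0 i) (h0 j)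
      have q2 := q_nonneg (α := α) (h0 j) (h0 i)
      rcases (h0 j).lt_or_eq with hj | hj
      · rcases key i j hj with h | h
        · left
          have h1 := q_ge (α := α) (a := y i) (b := y j) (r := 1) hα0.le (by linarith) hj.le
            zero_le_one (by linarith)
          have h2 := q_ge (α := α) (a := y j) (b := y i) (r := ρ ^ (Fintype.card V + 1)) hα0.le
            hj (h0 i) (by positivity) (by linarith)
          rw [Real.one_rpow] at h1
          rw [← Real.rpow_pow_comm (by linarith), hρα] at h2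
          have h3 : 1 / (1 + 1) * (1 / (1 + Q ^ (Fintype.card V + 1))) ≤
              q α (y i) (y j) * q α (y j) (y i) :=
            mul_le_mul h1 h2 (by positivity) (by linarith)
          have h4 := mul_le_mul_of_nonneg_left h3 hα0.le
          refine le_trans ?_ h4
          rw [← mul_assoc, mul_one_div (α * _), le_div_iff₀ (by positivity)]
          linarith
        · right
          have hle : y i ≤ M := by linarith [hE.le_card i]
          have h1 := q_le_rpow (α := α) (a := y j) (b := y i) (r := 1 - c / M) hα0.le (h0 j)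
            (by linarith) hr0.le (by
              have : c / M * y i ≤ c := by
                rw [div_mul_eq_mul_div, div_le_iff₀ (by linarith)]
                exact mul_le_mul_of_nonneg_left hle hc0.le
              linarith)
          have h3 : q α (y i) (y j) * q α (y j) (y i) ≤ 1 * (1 - c / M) ^ α :=
            mul_le_mul q1 h1 q2 zero_le_one
          have h4 := mul_le_mul_of_nonneg_left h3 hα0.le
          linarith
      · right
        have : q α (y j) (y i) = 0 := by rw [q, ← hj, Real.zero_rpow hα0.ne', zero_div]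
        rw [this, mul_zero, mul_zero]
        exact hε.le
    · exact Or.inr hε.le
  intro i j
  rcases le_total (y j) (y i) with h | h
  · exact main i j h
  · rw [W_symm]; exact main j i h

end Pool.Agent.H422Z.Urn
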