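import Pool.Agent.H422Z.Urn.Model

/-!
Existence of a process with prescribed one-step weights.
-/

set_option autoImplicit false

open MeasureTheory Filter Topology Finset

namespace Pool.Agent.H422Z.Urn

/-- the trajectory read off from a table of responses to finite histories -/
noncomputable def traj {Ch : Type} (ω : (Σ n : ℕ, Fin n → Ch) → Ch) : ℕ → Ch
  | n => ω ⟨n, fun k : Fin n => traj ω k⟩
decreasing_by exact k.2

theorem traj_eq {Ch : Type} (ω : (Σ n : ℕ, Fin n → Ch) → Ch) (n : ℕ) :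
    traj ω n = ω ⟨n, fun k : Fin n => traj ω k⟩ := by
  rw [traj]

theorem traj_iff {Ch : Type} (ω : (Σ n : ℕ, Fin n → Ch) → Ch) (h : ℕ → Ch) (n : ℕ) :
    (∀ k < n, traj ω k = h k) ↔ ∀ k < n, ω ⟨k, fun j : Fin k => h j⟩ = h k := by
  constructor
  · intro H k hk
    rw [← H k hk, traj_eq]
    congr 2
    funext j
    exact (H j (j.2.trans hk)).symm
  · intro H k
    induction k using Nat.strong_induction_on with
    | _ k ih =>
      intro hk
      rw [← H k hk, traj_eq]
      congr 2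
      funext j
      exact ih j j.2 (j.2.trans hk)

theorem exists_chain {Ch : Type} [Fintype Ch] [Nonempty Ch] (w : ℕ → (ℕ → Ch) → Ch → ℝ)
    (hdep : ∀ n, Dep n (w n)) (h0 : ∀ n h c, 0 ≤ w n h c) (h1 : ∀ n h, ∑ c, w n h c = 1) :
    ∃ (Ω : Type) (_ : MeasurableSpace Ω) (P : Measure Ω) (_ : IsProbabilityMeasure P)
      (C : ℕ → Ω → Ch), (∀ n c, MeasurableSet {ω | C n ω = c}) ∧
      ∀ n h, P {ω | ∀ k ≤ n, C k ω = h k} =
        P {ω | ∀ k < n, C k ω = h k} * ENNReal.ofReal (w n h (h n)) := by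
  classical
  obtain ⟨d⟩ := ‹Nonempty Ch›
  letI : MeasurableSpace Ch := ⊤
  let pm : (Σ n : ℕ, Fin n → Ch) → PMF Ch := fun i =>
    PMF.ofFintype (fun c => ENNReal.ofReal (w i.1 (ext d i.2) c)) (by
      rw [← ENNReal.ofReal_sum_of_nonneg (fun c _ => h0 _ _ c), h1, ENNReal.ofReal_one])
  let μ : (Σ n : ℕ, Fin n → Ch) → Measure Ch := fun i => (pm i).toMeasure
  haveI : ∀ i, IsProbabilityMeasure (μ i) := fun i => PMF.toMeasure.isProbabilityMeasure _
  have hcyl : ∀ (n : ℕ) (h : ℕ → Ch), Measure.infinitePi μ {ω | ∀ k < n, traj ω k = h k} =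
      ∏ k ∈ range n, ENNReal.ofReal (w k h (h k)) := by
    intro n h
    let emb : ℕ ↪ (Σ n : ℕ, Fin n → Ch) := ⟨fun k => ⟨k, fun j : Fin k => h j⟩,
      fun a b hab => congrArg Sigma.fst hab⟩
    have e : {ω | ∀ k < n, traj ω k = h k} =
        Set.pi ((range n).map emb : Finset _) (fun i => ({h i.1} : Set Ch)) := by
      ext ω
      simp only [Set.mem_ofPred_eq, traj_iff, Set.mem_pi, Finset.mem_coe, Finset.mem_map,
        Finset.mem_range, Set.mem_singleton_iff]
      constructor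
      · rintro H i ⟨k, hk, rfl⟩
        exact H k hk
      · intro H k hk
        exact H (emb k) ⟨k, hk, rfl⟩
    rw [e, Measure.infinitePi_pi μ (fun _ _ => trivial), Finset.prod_map]
    refine Finset.prod_congr rfl (fun k _ => ?_)
    simp only [μ]
    rw [PMF.toMeasure_apply_singleton _ _ MeasurableSpace.measurableSet_top]
    simp only [pm, PMF.ofFintype_apply]
    congr 1
    exact congrFun (hdep k _ _ (fun j hj => by simp [ext, hj, emb])) _
  refine ⟨(Σ n : ℕ, Fin n → Ch) → Ch, inferInstance, Measure.infinitePi μ, inferInstance,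
    fun n ω => traj ω n, ?_, fun n h => ?_⟩
  · intro n
    induction n using Nat.strong_induction_on with
    | _ n ih =>
      intro c
      have e : {ω : (Σ n : ℕ, Fin n → Ch) → Ch | traj ω n = c} =
          ⋃ r : Fin n → Ch, ((⋂ k : Fin n, {ω | traj ω k = r k}) ∩ {ω | ω ⟨n, r⟩ = c}) := by
        ext ω
        simp only [Set.mem_ofPred_eq, Set.mem_iUnion, Set.mem_inter_iff, Set.mem_iInter]
        constructor
        · intro H
          exact ⟨fun k => traj ω k, fun _ => rfl, (traj_eq ω n).symm.trans H⟩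
        · rintro ⟨r, H1, H2⟩
          rw [traj_eq, ← H2]
          congr 2
          funext k
          exact H1 k
      rw [e]
      refine MeasurableSet.iUnion (fun r => (MeasurableSet.iInter (fun k : Fin n => ih k k.2 _)).inter ?_)
      exact measurable_pi_apply (X := fun _ : (Σ n : ℕ, Fin n → Ch) => Ch) ⟨n, r⟩
        (show MeasurableSet ({c} : Set Ch) from trivial)
  · have e : {ω : (Σ n : ℕ, Fin n → Ch) → Ch | ∀ k ≤ n, traj ω k = h k} =
        {ω | ∀ k < n + 1, traj ω k = h k} := by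
      ext ω; simp only [Set.mem_ofPred_eq, Nat.lt_succ_iff]
    rw [e, hcyl, hcyl, Finset.prod_range_succ]

open Pool.Agent.H422Z.UrnModel

theorem exists_urn {m : ℕ} (G : SimpleGraph (Fin m)) [DecidableRel G.Adj] (α : ℝ)
    {B₀ : Fin m → ℕ} (hB : ∀ i, 1 ≤ B₀ i) :
    ∃ (Ω : Type) (_ : MeasurableSpace Ω) (P : Measure Ω) (_ : IsProbabilityMeasure P)
      (C : ℕ → Ω → Choice G), IsUrn G α B₀ P C := by
  haveI : Nonempty (Choice G) := ⟨fun e => ⟨e.1.out.1, Sym2.out_fst_mem _⟩⟩
  obtain ⟨Ω, mΩ, P, hP, C, h1, h2⟩ := exists_chain (Ch := Choice G)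
    (fun n h c => wt α (balls G B₀ h n) c)
    (fun n h h' hh => by
      have := balls_dep B₀ n h h' hh
      simp only at this
      simp only [this])
    (fun n h c => wt_nonneg _ _ _)
    (fun n h => sum_wt α (fun i => (hB i).trans (le_balls B₀ h n i)))
  exact ⟨Ω, mΩ, P, hP, C, h1, h2⟩

end Pool.Agent.H422Z.Urn
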