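import Mathlib

/-!
Pigeonhole cuts, a spectral gap lemma for weighted Laplacians with two scales of weights, and
a coordinate form of the spectral theorem.
-/

set_option autoImplicit false

open Filter Topology Finset

namespace Pool.Agent.H422Z.Urn

variable {V : Type*} [Fintype V]

theorem exists_gap (y : V → ℝ) (s : ℕ → ℝ) (hs : Monotone s) :
    ∃ k ≤ Fintype.card V, ∀ v, y v ≤ s k ∨ s (k + 1) < y v := by
  by_contra hn
  push Not at hn
  choose φ hφ using hn
  have hinj : Function.Injective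
      (fun k : Fin (Fintype.card V + 1) => φ k (Nat.lt_succ_iff.1 k.2)) := by
    intro k l hkl
    simp only at hkl
    have h1 := hφ k (Nat.lt_succ_iff.1 k.2)
    have h2 := hφ l (Nat.lt_succ_iff.1 l.2)
    rw [hkl] at h1
    rcases lt_trichotomy (k : ℕ) l with h | h | h
    · have := hs (show (k : ℕ) + 1 ≤ l from h); linarith [h1.2, h2.1]
    · exact Fin.ext h
    · have := hs (show (l : ℕ) + 1 ≤ k from h); linarith [h1.1, h2.2]
  have := Fintype.card_le_of_injective _ hinj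
  simp at this

theorem gap_aux (W : V → V → ℝ) (hs : ∀ i j, W i j = W j i) (h0 : ∀ i j, 0 ≤ W i j)
    {K0 ε dlo dhi M : ℝ} (hM : (Fintype.card V : ℝ) + 1 ≤ M)
    (hW : ∀ i j, K0 ≤ W i j ∨ W i j ≤ ε) (d u : V → ℝ) (hd : ∀ i, dlo ≤ d i ∧ d i ≤ dhi)
    (hdlo : 0 < dlo) (hε0 : 0 ≤ ε)
    (heq : ∀ i, d i * u i = ∑ j, W i j * (u i - u j))
    (hK : 2 * M * (M + 1) * dhi < K0) (hε : 4 * M ^ 2 * ε < dlo)
    {A : ℝ} (hA : 0 < A) (hu : ∀ v, |u v| ≤ A) (i0 : V) (hi0 : u i0 = A) : False := by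
  classical
  have hm0 : (0 : ℝ) ≤ Fintype.card V := Nat.cast_nonneg _
  have hM0 : 0 < M := by linarith
  set δ := A / (2 * (M + 1)) with hδ
  have hδ0 : 0 < δ := by positivity
  obtain ⟨k, hk, hgap⟩ := exists_gap u (fun k => A / 2 + k * δ) (fun a b hab => by
    have : (a : ℝ) ≤ b := by exact_mod_cast hab
    have := mul_le_mul_of_nonneg_right this hδ0.le
    simp only; linarith)
  push_cast at hgap
  have hk' : (k : ℝ) + 1 ≤ M := by
    have : (k : ℝ) ≤ Fintype.card V := by exact_mod_cast hk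
    linarith
  have hk0 : (0 : ℝ) ≤ k := Nat.cast_nonneg _
  have htop : A / 2 + (k + 1) * δ < A := by
    have h1 : (k + 1) * δ ≤ M * δ := mul_le_mul_of_nonneg_right hk' hδ0.le
    have h2 : (M + 1) * δ = A / 2 := by rw [hδ]; field_simp
    linarith
  set U := Finset.univ.filter (fun v => A / 2 + (k + 1) * δ < u v) with hU
  have hUm : ∀ v, v ∈ U ↔ A / 2 + (k + 1) * δ < u v := fun v => by simp [hU]
  have hi0U : i0 ∈ U := (hUm i0).2 (by rw [hi0]; exact htop)
  have hcut : ∑ i ∈ U, d i * u i = ∑ i ∈ U, ∑ j ∈ Uᶜ, W i j * (u i - u j) := by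
    have h1 : ∑ i ∈ U, ∑ j ∈ U, W i j * (u i - u j) = 0 := by
      have h2 : ∑ i ∈ U, ∑ j ∈ U, W i j * (u i - u j) =
          ∑ i ∈ U, ∑ j ∈ U, -(W i j * (u i - u j)) := by
        rw [Finset.sum_comm]
        refine Finset.sum_congr rfl (fun i _ => Finset.sum_congr rfl (fun j _ => ?_))
        rw [hs j i]; ring
      simp only [Finset.sum_neg_distrib] at h2
      linarith
    calc ∑ i ∈ U, d i * u i = ∑ i ∈ U, (∑ j ∈ U, W i j * (u i - u j) +
          ∑ j ∈ Uᶜ, W i j * (u i - u j)) := by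
          refine Finset.sum_congr rfl (fun i _ => ?_)
          rw [heq i, Finset.sum_add_sum_compl]
      _ = _ := by rw [Finset.sum_add_distrib, h1, zero_add]
  have hcross : ∀ i ∈ U, ∀ j ∈ Uᶜ, δ ≤ u i - u j := by
    intro i hi j hj
    have h1 := (hUm i).1 hi
    have h2 : ¬ (A / 2 + (k + 1) * δ < u j) := fun h => (Finset.mem_compl.1 hj) ((hUm j).2 h)
    rcases hgap j with h | h
    · linarith
    · exact absurd h h2
  have hnn : ∀ i ∈ U, ∀ j ∈ Uᶜ, 0 ≤ W i j * (u i - u j) := fun i hi j hj =>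
    mul_nonneg (h0 i j) (hδ0.le.trans (hcross i hi j hj))
  have hdhi : 0 < dhi := lt_of_lt_of_le hdlo ((hd i0).1.trans (hd i0).2)
  have hUpos : ∀ i ∈ U, A / 2 ≤ u i := fun i hi => by
    have h1 := (hUm i).1 hi
    have : 0 ≤ (k + 1) * δ := by positivity
    linarith
  have hcard : ∀ S : Finset V, (S.card : ℝ) ≤ M := fun S => by
    have : (S.card : ℝ) ≤ Fintype.card V := by exact_mod_cast S.card_le_univ
    linarith
  have hup : ∑ i ∈ U, d i * u i ≤ M * (dhi * A) := by
    have h1 := Finset.sum_le_card_nsmul U (fun i => d i * u i) (dhi * A) (fun i hi =>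
      mul_le_mul (hd i).2 (abs_le.1 (hu i)).2 (by linarith [hUpos i hi]) hdhi.le)
    rw [nsmul_eq_mul] at h1
    exact h1.trans (mul_le_mul_of_nonneg_right (hcard U) (by positivity))
  have hlow : dlo * (A / 2) ≤ ∑ i ∈ U, d i * u i := by
    have h1 := Finset.single_le_sum (f := fun i => d i * u i) (fun i hi =>
      mul_nonneg (hdlo.le.trans (hd i).1) (by linarith [hUpos i hi])) hi0U
    refine le_trans ?_ h1
    exact mul_le_mul (hd i0).1 (hUpos i0 hi0U) (by positivity) (hdlo.le.trans (hd i0).1)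
  have hsmall : ∀ i ∈ U, ∀ j ∈ Uᶜ, W i j ≤ ε := by
    intro i hi j hj
    rcases hW i j with h | h
    · exfalso
      have h1 : W i j * (u i - u j) ≤ ∑ j ∈ Uᶜ, W i j * (u i - u j) :=
        Finset.single_le_sum (f := fun j => W i j * (u i - u j)) (fun j hj => hnn i hi j hj) hj
      have h2 : ∑ j ∈ Uᶜ, W i j * (u i - u j) ≤ ∑ i ∈ U, ∑ j ∈ Uᶜ, W i j * (u i - u j) :=
        Finset.single_le_sum (f := fun i => ∑ j ∈ Uᶜ, W i j * (u i - u j))
          (fun i hi => Finset.sum_nonneg (hnn i hi)) hi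
      have h3 : K0 * δ ≤ W i j * (u i - u j) :=
        mul_le_mul h (hcross i hi j hj) hδ0.le (h0 i j)
      have h4 : 2 * M * (M + 1) * dhi * δ < K0 * δ := mul_lt_mul_of_pos_right hK hδ0
      have h5 : 2 * M * (M + 1) * dhi * δ = M * (dhi * A) := by rw [hδ]; field_simp
      linarith
    · exact h
  have hfin : ∑ i ∈ U, ∑ j ∈ Uᶜ, W i j * (u i - u j) ≤ M * (M * (ε * (2 * A))) := by
    have h1 : ∀ i ∈ U, ∑ j ∈ Uᶜ, W i j * (u i - u j) ≤ M * (ε * (2 * A)) := by
      intro i hi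
      have h2 := Finset.sum_le_card_nsmul Uᶜ (fun j => W i j * (u i - u j)) (ε * (2 * A))
        (fun j hj => mul_le_mul (hsmall i hi j hj)
          (by linarith [(abs_le.1 (hu i)).2, (abs_le.1 (hu j)).1])
          (hδ0.le.trans (hcross i hi j hj)) hε0)
      rw [nsmul_eq_mul] at h2
      exact h2.trans (mul_le_mul_of_nonneg_right (hcard _) (by positivity))
    have h2 := Finset.sum_le_card_nsmul U _ _ h1
    rw [nsmul_eq_mul] at h2
    exact h2.trans (mul_le_mul_of_nonneg_right (hcard _) (by positivity))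
  have h6 : 4 * M ^ 2 * ε * (A / 2) < dlo * (A / 2) := mul_lt_mul_of_pos_right hε (by positivity)
  nlinarith

theorem gap_lemma (W : V → V → ℝ) (hs : ∀ i j, W i j = W j i) (h0 : ∀ i j, 0 ≤ W i j)
    {K0 ε dlo dhi M : ℝ} (hM : (Fintype.card V : ℝ) + 1 ≤ M)
    (hW : ∀ i j, K0 ≤ W i j ∨ W i j ≤ ε) (d u : V → ℝ) (hd : ∀ i, dlo ≤ d i ∧ d i ≤ dhi)
    (hdlo : 0 < dlo) (hε0 : 0 ≤ ε)
    (heq : ∀ i, d i * u i = ∑ j, W i j * (u i - u j))
    (hK : 2 * M * (M + 1) * dhi < K0) (hε : 4 * M ^ 2 * ε < dlo) : ∀ i, u i = 0 := by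
  intro i
  obtain ⟨i0, -, hi0⟩ := Finset.exists_max_image Finset.univ (fun v => |u v|) ⟨i, mem_univ _⟩
  have hu : ∀ v, |u v| ≤ |u i0| := fun v => hi0 v (mem_univ _)
  rcases lt_trichotomy (u i0) 0 with h | h | h
  · exfalso
    refine gap_aux W hs h0 hM hW d (fun v => -u v) hd hdlo hε0 (fun i => ?_) hK hε
      (A := |u i0|) (abs_pos.2 h.ne) (fun v => by rw [abs_neg]; exact hu v) i0
      (by rw [abs_of_neg h])
    rw [mul_neg, heq i, ← Finset.sum_neg_distrib]
    exact Finset.sum_congr rfl (fun j _ => by ring)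
  · have := hu i
    rw [h, abs_zero] at this
    exact abs_nonpos_iff.1 this
  · exfalso
    exact gap_aux W hs h0 hM hW d u hd hdlo hε0 heq hK hε
      (A := |u i0|) (abs_pos.2 h.ne') hu i0 (by rw [abs_of_pos h])

theorem spectral [DecidableEq V] (A : V → V → ℝ) (hA : ∀ i j, A i j = A j i) :
    ∃ (e : V → V → ℝ) (μ : V → ℝ), (∀ k i, ∑ j, A i j * e k j = μ k * e k i) ∧
      (∀ i j, ∑ k, e k i * e k j = if i = j then 1 else 0) ∧ (∀ k, ∑ i, e k i ^ 2 = 1) := by
  have hH : (Matrix.of A).IsHermitian := by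
    ext i j; simp [Matrix.conjTranspose_apply, hA i j]
  refine ⟨fun k i => hH.eigenvectorBasis k i, hH.eigenvalues, fun k i => ?_, fun i j => ?_,
    fun k => ?_⟩
  · have := congrFun (hH.mulVec_eigenvectorBasis k) i
    simpa [Matrix.mulVec, dotProduct] using this
  · have h1 := (Matrix.mem_unitaryGroup_iff).1 hH.eigenvectorUnitary.2
    have := congrFun (congrFun h1 i) j
    simpa [Matrix.mul_apply, Matrix.one_apply, Matrix.star_apply] using this
  · have h1 := (Matrix.mem_unitaryGroup_iff').1 hH.eigenvectorUnitary.2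
    have := congrFun (congrFun h1 k) k
    simpa [Matrix.mul_apply, Matrix.one_apply, Matrix.star_apply, sq] using this

end Pool.Agent.H422Z.Urn
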