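import Pool.Agent.H422Z.Urn.Prob

/-!
An anti-concentration argument: a process cannot stay for ever in a region where a quantity with
non-degenerate noise has to tend to zero.
-/

set_option autoImplicit false

open MeasureTheory Filter Topology Finset

namespace Pool.Agent.H422Z.Urn

theorem cos_step {Ch : Type*} [Fintype Ch] (w η : Ch → ℝ) (hw : ∀ x, 0 ≤ w x)
    (hw1 : ∑ x, w x = 1) {K c b t : ℝ} (hη : ∀ x, |η x| ≤ K) (hm : ∑ x, w x * η x = 0)
    (hc : c ≤ ∑ x, w x * η x ^ 2) (hb : 0 ≤ b) (hbt : b ≤ t) (hK : 0 < K) (htK : t * K ≤ 1)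
    (z r : ℝ) :
    ∃ v : ℝ, c * b ^ 2 / 4 ≤ v ∧ v ≤ K ^ 2 * b ^ 2 / 2 ∧
      ∑ x, w x * Real.cos (z + b * (r + η x)) ≤
        Real.cos z * (1 - v) + K ^ 3 * t * b ^ 2 / 5 + b * |r| := by
  have hδ : ∀ x, |b * η x| ≤ b * K := fun x => by
    rw [abs_mul, abs_of_nonneg hb]; exact mul_le_mul_of_nonneg_left (hη x) hb
  have hbK : b * K ≤ t * K := mul_le_mul_of_nonneg_right hbt hK.le
  have hδ1 : ∀ x, |b * η x| ≤ 1 := fun x => (hδ x).trans (hbK.trans htK)
  refine ⟨1 - ∑ x, w x * Real.cos (b * η x), ?_, ?_, ?_⟩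
  · have : ∀ x, w x * Real.cos (b * η x) ≤ w x - b ^ 2 / 4 * (w x * η x ^ 2) := by
      intro x
      have h1 := (abs_le.1 (Real.cos_bound (hδ1 x))).2
      have h2 : |b * η x| ^ 4 ≤ (b * η x) ^ 2 := by
        rw [← sq_abs (b * η x)]
        exact pow_le_pow_of_le_one (abs_nonneg _) (hδ1 x) (by norm_num)
      have h3 : Real.cos (b * η x) ≤ 1 - (b * η x) ^ 2 / 4 := by
        have := sq_nonneg (b * η x); linarith
      calc w x * Real.cos (b * η x) ≤ w x * (1 - (b * η x) ^ 2 / 4) :=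
            mul_le_mul_of_nonneg_left h3 (hw x)
        _ = _ := by ring
    have h := Finset.sum_le_sum (s := Finset.univ) (fun x _ => this x)
    rw [Finset.sum_sub_distrib, hw1, ← Finset.mul_sum] at h
    have : b ^ 2 / 4 * c ≤ b ^ 2 / 4 * ∑ x, w x * η x ^ 2 :=
      mul_le_mul_of_nonneg_left hc (by positivity)
    linarith
  · have : ∀ x, w x - K ^ 2 * b ^ 2 / 2 * w x ≤ w x * Real.cos (b * η x) := by
      intro x
      have h1 := Real.one_sub_sq_div_two_le_cos (x := b * η x)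
      have h2 : (b * η x) ^ 2 ≤ (b * K) ^ 2 := by
        rw [← sq_abs (b * η x)]; exact pow_le_pow_left₀ (abs_nonneg _) (hδ x) 2
      have h3 : 1 - K ^ 2 * b ^ 2 / 2 ≤ Real.cos (b * η x) := by nlinarith
      calc w x - K ^ 2 * b ^ 2 / 2 * w x = w x * (1 - K ^ 2 * b ^ 2 / 2) := by ring
        _ ≤ _ := mul_le_mul_of_nonneg_left h3 (hw x)
    have h := Finset.sum_le_sum (s := Finset.univ) (fun x _ => this x)
    rw [Finset.sum_sub_distrib, hw1, ← Finset.mul_sum, hw1] at h
    linarith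
  · have : ∀ x, w x * Real.cos (z + b * (r + η x)) ≤
        Real.cos z * (w x * Real.cos (b * η x)) - Real.sin z * b * (w x * η x) +
          (K ^ 3 * t * b ^ 2 / 5 + b * |r|) * w x := by
      intro x
      have h1 : Real.cos (z + b * (r + η x)) ≤ Real.cos (z + b * η x) + b * |r| := by
        have := Real.abs_cos_sub_cos_le (z + b * (r + η x)) (z + b * η x)
        have e : z + b * (r + η x) - (z + b * η x) = b * r := by ring
        rw [e, abs_mul, abs_of_nonneg hb] at this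
        linarith [(abs_le.1 this).2]
      have h2 : |Real.sin (b * η x) - b * η x| ≤ K ^ 3 * t * b ^ 2 / 5 := by
        have h3 := Real.sin_bound (hδ1 x)
        have h4 : |b * η x| ^ 5 ≤ |b * η x| ^ 3 :=
          pow_le_pow_of_le_one (abs_nonneg _) (hδ1 x) (by norm_num)
        have h5 : |b * η x| ^ 3 ≤ (b * K) ^ 3 := pow_le_pow_left₀ (abs_nonneg _) (hδ x) 3
        have h6 : (b * K) ^ 3 ≤ K ^ 3 * t * b ^ 2 := by
          have : b * (K ^ 3 * b ^ 2) ≤ t * (K ^ 3 * b ^ 2) :=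
            mul_le_mul_of_nonneg_right hbt (by positivity)
          nlinarith
        have h7 : |(b * η x) ^ 3 / 6| = |b * η x| ^ 3 / 6 := by
          rw [abs_div, abs_pow]; norm_num
        have h8 : |Real.sin (b * η x) - b * η x| ≤
            |Real.sin (b * η x) - (b * η x - (b * η x) ^ 3 / 6)| + |(b * η x) ^ 3 / 6| := by
          have := abs_sub_le (Real.sin (b * η x)) (b * η x - (b * η x) ^ 3 / 6) (b * η x)
          have e : b * η x - (b * η x) ^ 3 / 6 - b * η x = -((b * η x) ^ 3 / 6) := by ring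
          rwa [e, abs_neg] at this
        have h9 : 0 ≤ |b * η x| ^ 3 := by positivity
        linarith
      have h3 : -(Real.sin z * (Real.sin (b * η x) - b * η x)) ≤ K ^ 3 * t * b ^ 2 / 5 := by
        refine (neg_le_abs _).trans ?_
        rw [abs_mul]
        calc |Real.sin z| * |Real.sin (b * η x) - b * η x| ≤ 1 * (K ^ 3 * t * b ^ 2 / 5) :=
              mul_le_mul (Real.abs_sin_le_one z) h2 (abs_nonneg _) zero_le_one
          _ = _ := one_mul _
      rw [Real.cos_add z (b * η x)] at h1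
      have h4 : Real.cos (z + b * (r + η x)) ≤ Real.cos z * Real.cos (b * η x) -
          Real.sin z * b * η x + (K ^ 3 * t * b ^ 2 / 5 + b * |r|) := by linarith
      calc w x * Real.cos (z + b * (r + η x)) ≤ w x * (Real.cos z * Real.cos (b * η x) -
          Real.sin z * b * η x + (K ^ 3 * t * b ^ 2 / 5 + b * |r|)) :=
            mul_le_mul_of_nonneg_left h4 (hw x)
        _ = _ := by ring
    have h := Finset.sum_le_sum (s := Finset.univ) (fun x _ => this x)
    rw [Finset.sum_add_distrib, Finset.sum_sub_distrib, ← Finset.mul_sum, ← Finset.mul_sum,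
      ← Finset.mul_sum, hm, hw1] at h
    have e : 1 - (1 - ∑ x, w x * Real.cos (b * η x)) = ∑ x, w x * Real.cos (b * η x) := by ring
    rw [e]
    linarith

variable {Ω : Type*} [MeasurableSpace Ω] {P : Measure Ω} [IsProbabilityMeasure P]
variable {Ch : Type*} [Fintype Ch] {C : ℕ → Ω → Ch} {w : ℕ → (ℕ → Ch) → Ch → ℝ}

theorem Chain.trap_block (H : Chain P C w) {E : ℕ → (ℕ → Ch) → Prop} (hE : ∀ n, Dep n (E n))
    (hEm : ∀ n h, E (n + 1) h → E n h)
    {Y : ℕ → (ℕ → Ch) → ℝ} (hY : ∀ n, Dep n (Y n)) {a ρ : ℕ → ℝ} (ha : ∀ n, 0 < a n)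
    {K c t : ℝ} (hc : 0 < c) (hK : 0 < K) (hcK : c ≤ K ^ 2) (ht : 0 < t) (htK : t * K ≤ 1 / 2)
    (htc : K ^ 3 * t / 5 ≤ c / 64) {n m : ℕ} (hnm : n < m)
    (hR : ∑ j ∈ Ico n m, ρ j ^ 2 ≤ (c / 4) ^ 2 * t ^ 2 / 32)
    (hbd : ∀ h, E m h → Y m h ^ 2 ≤ c / 16 * a n ^ 2)
    (hstep : ∀ k, n ≤ k → ∀ h, E k h → ∃ (η : Ch → ℝ) (r : ℝ), |r| ≤ ρ k ∧ (∀ x, |η x| ≤ K) ∧
      ∑ x, w k h x * η x = 0 ∧ c ≤ ∑ x, w k h x * η x ^ 2 ∧
      ∀ x, Y (k + 1) (Function.update h k x) = Y k h + a k * (r + η x)) :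
    (2 - c / 4 * t ^ 2 / 8) * P.real {ω | E m (fun k => C k ω)} ≤
      (2 - c / 4 * t ^ 2 / 4) * P.real {ω | E n (fun k => C k ω)} := by
  classical
  set σ2 : ℝ := ∑ j ∈ Ico n m, a j ^ 2 with hσ2
  have haσ : ∀ k, n ≤ k → k < m → a k ^ 2 ≤ σ2 := fun k h1 h2 =>
    Finset.single_le_sum (f := fun j => a j ^ 2) (fun j _ => sq_nonneg _)
      (Finset.mem_Ico.2 ⟨h1, h2⟩)
  have hσ2p : 0 < σ2 := lt_of_lt_of_le (pow_pos (ha n) 2) (haσ n le_rfl hnm)
  set σ : ℝ := √σ2 with hσ
  have hσp : 0 < σ := Real.sqrt_pos.2 hσ2p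
  have hσsq : σ ^ 2 = σ2 := Real.sq_sqrt hσ2p.le
  set b : ℕ → ℝ := fun k => t * a k / σ with hb
  have hb0 : ∀ k, 0 ≤ b k := fun k => by have := ha k; simp only [hb]; positivity
  have hbt : ∀ k, n ≤ k → k < m → b k ≤ t := fun k h1 h2 => by
    simp only [hb]
    rw [div_le_iff₀ hσp]
    exact mul_le_mul_of_nonneg_left (Real.le_sqrt_of_sq_le (haσ k h1 h2)) ht.le
  set s : ℕ → ℝ := fun k => ∑ j ∈ Ico k m, b j ^ 2 with hs
  set R : ℕ → ℝ := fun k => ∑ j ∈ Ico k m, ρ j ^ 2 with hRdef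
  have hsn : s n = t ^ 2 := by
    simp only [hs, hb, div_pow, mul_pow]
    rw [← Finset.sum_div, ← Finset.mul_sum, hσsq]
    field_simp
    rfl
  have hs0 : ∀ k, 0 ≤ s k := fun k => Finset.sum_nonneg (fun _ _ => sq_nonneg _)
  have hR0 : ∀ k, 0 ≤ R k := fun k => Finset.sum_nonneg (fun _ _ => sq_nonneg _)
  have hsle : ∀ k, n ≤ k → s k ≤ t ^ 2 := fun k hk => by
    rw [← hsn]
    exact Finset.sum_le_sum_of_subset_of_nonneg (Finset.Ico_subset_Ico hk le_rfl)
      (fun _ _ _ => sq_nonneg _)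
  have hss : ∀ k, k < m → s k = b k ^ 2 + s (k + 1) := fun k hk =>
    Finset.sum_eq_sum_Ico_succ_bot hk _
  have hRs : ∀ k, k < m → R k = ρ k ^ 2 + R (k + 1) := fun k hk =>
    Finset.sum_eq_sum_Ico_succ_bot hk _
  have hKt : K ^ 2 * t ^ 2 ≤ 1 / 4 := by
    have : (t * K) ^ 2 ≤ (1 / 2) ^ 2 := pow_le_pow_left₀ (by positivity) htK 2
    nlinarith
  set α : ℕ → ℝ := fun k => 1 + (K ^ 2 - 3 * (c / 4) / 8) * s k + 16 / c * R k with hα
  set θ : ℕ → ℝ := fun k => 1 - K ^ 2 * s k with hθ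
  have hθl : ∀ k, n ≤ k → 1 / 2 ≤ θ k := fun k hk => by
    have := mul_le_mul_of_nonneg_left (hsle k hk) (sq_nonneg K)
    simp only [hθ]; linarith
  have hθu : ∀ k, θ k ≤ 1 := fun k => by
    have := mul_nonneg (sq_nonneg K) (hs0 k)
    simp only [hθ]; linarith
  have hα1 : ∀ k, 1 ≤ α k := fun k => by
    have h1 : 0 ≤ (K ^ 2 - 3 * (c / 4) / 8) * s k := mul_nonneg (by linarith) (hs0 k)
    have h2 : 0 ≤ 16 / c * R k := mul_nonneg (by positivity) (hR0 k)
    simp only [hα]; linarith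
  have hΦ0 : ∀ k, n ≤ k → ∀ z, 0 ≤ α k + θ k * Real.cos z := fun k hk z => by
    have h1 := Real.neg_one_le_cos z
    have h2 := hθl k hk
    have h3 := hθu k
    have h4 := hα1 k
    nlinarith
  set g : ℕ → (ℕ → Ch) → ℝ := fun k h =>
    if E k h then α k + θ k * Real.cos (t * Y k h / σ) else 0 with hg
  have hgd : ∀ k, Dep k (g k) := fun k h h' hh => by
    simp only [hg, hE k h h' hh, hY k h h' hh]
  have hstep' : ∀ k, n ≤ k → k < m →
      ∫ ω, g (k + 1) (fun j => C j ω) ∂P ≤ ∫ ω, g k (fun j => C j ω) ∂P := by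
    intro k hk hkm
    refine H.step_le (hgd (k + 1)) (hgd k) (fun h => ?_)
    by_cases hEk : E k h
    · obtain ⟨η, r, hr, hη, hm0, hcv, hYs⟩ := hstep k hk h hEk
      obtain ⟨v, hv1, hv2, hv3⟩ := cos_step (w k h) η (H.nonneg k h) (H.sum_one k h) hη hm0 hcv
        (hb0 k) (hbt k hk hkm) hK (by linarith) (t * Y k h / σ) r
      have h1 : ∀ x, w k h x * g (k + 1) (Function.update h k x) ≤
          α (k + 1) * w k h x +
            θ (k + 1) * (w k h x * Real.cos (t * Y k h / σ + b k * (r + η x))) := by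
        intro x
        have e : t * Y (k + 1) (Function.update h k x) / σ =
            t * Y k h / σ + b k * (r + η x) := by
          rw [hYs x]; simp only [hb]; ring
        have h2 : g (k + 1) (Function.update h k x) ≤
            α (k + 1) + θ (k + 1) * Real.cos (t * Y k h / σ + b k * (r + η x)) := by
          simp only [hg]
          split_ifs
          · rw [e]
          · exact hΦ0 (k + 1) (by omega) _
        calc _ ≤ w k h x * (α (k + 1) + θ (k + 1) *
              Real.cos (t * Y k h / σ + b k * (r + η x))) :=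
              mul_le_mul_of_nonneg_left h2 (H.nonneg k h x)
          _ = _ := by ring
      refine (Finset.sum_le_sum (fun x _ => h1 x)).trans ?_
      rw [Finset.sum_add_distrib, ← Finset.mul_sum, ← Finset.mul_sum, H.sum_one, mul_one]
      simp only [hg, if_pos hEk]
      set z := t * Y k h / σ
      have hθ1 := hθl (k + 1) (by omega)
      have hθ2 := hθu (k + 1)
      have e1 : θ k = θ (k + 1) - K ^ 2 * b k ^ 2 := by
        simp only [hθ, hss k hkm]; ring
      have e2 : α k = α (k + 1) + (K ^ 2 - 3 * (c / 4) / 8) * b k ^ 2 + 16 / c * ρ k ^ 2 := by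
        simp only [hα, hss k hkm, hRs k hkm]; ring
      have h3 : b k * |r| ≤ c / 64 * b k ^ 2 + 16 / c * ρ k ^ 2 := by
        have h4 : b k * |r| ≤ b k * ρ k := mul_le_mul_of_nonneg_left hr (hb0 k)
        have h5 : c / 64 * b k ^ 2 + 16 / c * ρ k ^ 2 - b k * ρ k =
            (c * b k - 32 * ρ k) ^ 2 / (64 * c) := by field_simp; ring
        have h6 : 0 ≤ (c * b k - 32 * ρ k) ^ 2 / (64 * c) := by positivity
        linarith
      have h4 : K ^ 3 * t * b k ^ 2 / 5 ≤ c / 64 * b k ^ 2 := by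
        have := mul_le_mul_of_nonneg_right htc (sq_nonneg (b k))
        linarith
      have h5 : 0 ≤ K ^ 3 * t * b k ^ 2 / 5 + b k * |r| := by
        have := hb0 k
        positivity
      have h6 : θ (k + 1) * ∑ x, w k h x * Real.cos (z + b k * (r + η x)) ≤
          θ (k + 1) * (Real.cos z * (1 - v)) + (K ^ 3 * t * b k ^ 2 / 5 + b k * |r|) := by
        have h7 := mul_le_mul_of_nonneg_left hv3 (by linarith : 0 ≤ θ (k + 1))
        have h8 := mul_le_mul_of_nonneg_right hθ2 h5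
        linarith
      have hb2 := sq_nonneg (b k)
      have hv0 : 0 ≤ v := le_trans (by positivity) hv1
      have h9 : c * b k ^ 2 / 8 ≤ θ (k + 1) * v := by nlinarith
      have h10 : θ (k + 1) * v ≤ K ^ 2 * b k ^ 2 := by
        have : 0 ≤ K ^ 2 * b k ^ 2 := by positivity
        nlinarith
      have h11 : Real.cos z * (K ^ 2 * b k ^ 2 - θ (k + 1) * v) ≤
          K ^ 2 * b k ^ 2 - θ (k + 1) * v := by
        have := Real.cos_le_one z
        nlinarith
      rw [e1, e2]
      nlinarith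
    · simp only [hg, if_neg hEk]
      refine le_of_eq (Finset.sum_eq_zero (fun x _ => ?_))
      rw [if_neg, mul_zero]
      intro h2
      have := hEm k _ h2
      rw [(hE k).update] at this
      exact hEk this
  have hchain : ∀ j, n + j ≤ m →
      ∫ ω, g (n + j) (fun i => C i ω) ∂P ≤ ∫ ω, g n (fun i => C i ω) ∂P := by
    intro j
    induction j with
    | zero => intro _; exact le_rfl
    | succ j ih =>
      intro hj
      exact (hstep' (n + j) (by omega) (by omega)).trans (ih (by omega))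
  have hfin := hchain (m - n) (by omega)
  rw [show n + (m - n) = m by omega] at hfin
  have hlow : (2 - c / 4 * t ^ 2 / 8) * P.real {ω | E m (fun k => C k ω)} ≤
      ∫ ω, g m (fun i => C i ω) ∂P := by
    rw [mul_comm, ← smul_eq_mul, ← integral_indicator_const _ (H.measurableSet (hE m))]
    refine integral_mono ((integrable_const _).indicator (H.measurableSet (hE m)))
      (H.integrable (hgd m)) (fun ω => ?_)
    by_cases hω : E m (fun k => C k ω)
    · rw [Set.indicator_of_mem (by exact hω)]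
      simp only [hg, if_pos hω, hα, hθ, hs, hRdef, Finset.Ico_self, Finset.sum_empty]
      have h1 := Real.one_sub_sq_div_two_le_cos (x := t * Y m (fun k => C k ω) / σ)
      have h2 : (t * Y m (fun k => C k ω) / σ) ^ 2 ≤ c / 16 * t ^ 2 := by
        rw [div_pow, mul_pow, hσsq, div_le_iff₀ hσ2p]
        have h3 := (hbd _ hω).trans
          (mul_le_mul_of_nonneg_left (haσ n le_rfl hnm) (by positivity : 0 ≤ c / 16))
        have := mul_le_mul_of_nonneg_left h3 (sq_nonneg t)
        linarith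
      linarith
    · rw [Set.indicator_of_notMem (by exact hω)]
      simp only [hg, if_neg hω, le_refl]
  have hup : ∫ ω, g n (fun i => C i ω) ∂P ≤
      (2 - c / 4 * t ^ 2 / 4) * P.real {ω | E n (fun k => C k ω)} := by
    rw [mul_comm, ← smul_eq_mul, ← integral_indicator_const _ (H.measurableSet (hE n))]
    refine integral_mono (H.integrable (hgd n))
      ((integrable_const _).indicator (H.measurableSet (hE n))) (fun ω => ?_)
    by_cases hω : E n (fun k => C k ω)
    · rw [Set.indicator_of_mem (by exact hω)]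
      simp only [hg, if_pos hω]
      have h1 := Real.cos_le_one (t * Y n (fun k => C k ω) / σ)
      have h2 := hθl n le_rfl
      have h3 : θ n * Real.cos (t * Y n (fun k => C k ω) / σ) ≤ θ n := by nlinarith
      have h4 : 16 / c * R n ≤ c / 4 * t ^ 2 / 8 := by
        have := mul_le_mul_of_nonneg_left hR (by positivity : 0 ≤ 16 / c)
        refine this.trans (le_of_eq ?_)
        field_simp; ring
      have h5 : α n + θ n = 2 - 3 * (c / 4) / 8 * t ^ 2 + 16 / c * R n := by
        simp only [hα, hθ, hsn]; ring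
      linarith
    · rw [Set.indicator_of_notMem (by exact hω)]
      simp only [hg, if_neg hω, le_refl]
  exact hlow.trans (hfin.trans hup)

theorem Chain.trap (H : Chain P C w) {good : ℕ → (ℕ → Ch) → Prop} (hgood : ∀ n, Dep n (good n))
    {Y : ℕ → (ℕ → Ch) → ℝ} (hY : ∀ n, Dep n (Y n)) {a ρ y : ℕ → ℝ} (ha : ∀ n, 0 < a n)
    (hρ : Summable (fun n => ρ n ^ 2)) (hy : Tendsto y atTop (𝓝 0))
    {K c : ℝ} (hc : 0 < c) (hK : 0 < K) (hcK : c ≤ K ^ 2) (n0 : ℕ)
    (hbd : ∀ n, n0 ≤ n → ∀ h, good n h → |Y n h| ≤ y n)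
    (hstep : ∀ k, n0 ≤ k → ∀ h, good k h → ∃ (η : Ch → ℝ) (r : ℝ), |r| ≤ ρ k ∧
      (∀ x, |η x| ≤ K) ∧ ∑ x, w k h x * η x = 0 ∧ c ≤ ∑ x, w k h x * η x ^ 2 ∧
      ∀ x, Y (k + 1) (Function.update h k x) = Y k h + a k * (r + η x)) :
    P {ω | ∀ n, n0 ≤ n → good n (fun k => C k ω)} = 0 := by
  set E : ℕ → (ℕ → Ch) → Prop := fun n h => ∀ k, n0 ≤ k → k ≤ n → good k h with hEdef
  have hE : ∀ n, Dep n (E n) := fun n h h' hh => by
    simp only [hEdef]
    refine propext (forall_congr' fun k => forall_congr' fun _ => forall_congr' fun hk => ?_)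
    rw [((hgood k).mono hk) h h' hh]
  have hEm : ∀ n h, E (n + 1) h → E n h := fun n h hh k h1 h2 => hh k h1 (by omega)
  set t : ℝ := min (1 / (2 * K)) (5 * c / (64 * K ^ 3)) with ht
  have ht0 : 0 < t := lt_min (by positivity) (by positivity)
  have htK : t * K ≤ 1 / 2 := by
    have := mul_le_mul_of_nonneg_right (min_le_left (1 / (2 * K)) (5 * c / (64 * K ^ 3))) hK.le
    refine this.trans (le_of_eq ?_)
    field_simp
  have htc : K ^ 3 * t / 5 ≤ c / 64 := by
    have := mul_le_mul_of_nonneg_left (min_le_right (1 / (2 * K)) (5 * c / (64 * K ^ 3)))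
      (by positivity : 0 ≤ K ^ 3)
    have e : K ^ 3 * (5 * c / (64 * K ^ 3)) = 5 * c / 64 := by field_simp
    rw [e] at this
    linarith
  have hct : c * t ^ 2 ≤ 1 / 4 := by
    have h1 : (t * K) ^ 2 ≤ (1 / 2) ^ 2 := pow_le_pow_left₀ (by positivity) htK 2
    have h2 := mul_le_mul_of_nonneg_right hcK (sq_nonneg t)
    nlinarith
  have hct0 : 0 < c * t ^ 2 := by positivity
  -- tails of the series of squares
  obtain ⟨n1, hn1⟩ : ∃ n1, ∀ n m, n1 ≤ n →
      ∑ j ∈ Ico n m, ρ j ^ 2 ≤ (c / 4) ^ 2 * t ^ 2 / 32 := by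
    have h1 := summable_iff_vanishing_norm.1 hρ ((c / 4) ^ 2 * t ^ 2 / 32) (by positivity)
    obtain ⟨s, hs⟩ := h1
    refine ⟨s.sup id + 1, fun n m hn => ?_⟩
    refine (le_abs_self _).trans (hs _ ?_).le
    rw [Finset.disjoint_left]
    intro j hj hjs
    have := Finset.le_sup (f := id) hjs
    simp only [Finset.mem_Ico, id] at hj this
    omega
  set p : ℕ → ℝ := fun n => P.real {ω | E n (fun k => C k ω)} with hp
  set r : ℝ := (2 - c / 4 * t ^ 2 / 4) / (2 - c / 4 * t ^ 2 / 8) with hr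
  have hden : 0 < 2 - c / 4 * t ^ 2 / 8 := by linarith
  have hr0 : 0 ≤ r := div_nonneg (by linarith) hden.le
  have hr1 : r < 1 := by rw [hr, div_lt_one hden]; linarith
  have key : ∀ n, max n0 n1 ≤ n → ∃ m, n < m ∧ p m ≤ r * p n := by
    intro n hn
    have hε : 0 < √(c / 16 * a n ^ 2) := Real.sqrt_pos.2 (by have := ha n; positivity)
    obtain ⟨m, hm1, hm2⟩ :=
      ((hy.eventually (gt_mem_nhds hε)).and (eventually_gt_atTop n)).exists
    refine ⟨m, hm2, ?_⟩
    have hn0 : n0 ≤ n := (le_max_left _ _).trans hn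
    have := H.trap_block hE hEm hY ha hc hK hcK ht0 htK htc hm2
      (hn1 n m ((le_max_right _ _).trans hn))
      (fun h hh => by
        have h1 := (hbd m (by omega) h (hh m (by omega) le_rfl)).trans hm1.le
        have h2 := pow_le_pow_left₀ (abs_nonneg _) h1 2
        rwa [sq_abs, Real.sq_sqrt (by have := ha n; positivity)] at h2)
      (fun k hk h hh => hstep k (by omega) h (hh k (by omega) le_rfl))
    rw [hr, div_mul_eq_mul_div, le_div_iff₀ hden, mul_comm]
    exact this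
  have iter : ∀ j : ℕ, ∃ n, max n0 n1 ≤ n ∧ p n ≤ r ^ j := by
    intro j
    induction j with
    | zero => exact ⟨_, le_rfl, by simpa [hp] using measureReal_le_one⟩
    | succ j ih =>
      obtain ⟨n, h1, h2⟩ := ih
      obtain ⟨m, h3, h4⟩ := key n h1
      refine ⟨m, by omega, h4.trans ?_⟩
      rw [pow_succ']
      exact mul_le_mul_of_nonneg_left h2 hr0
  have hq : ∀ j : ℕ, P.real {ω | ∀ n, n0 ≤ n → good n (fun k => C k ω)} ≤ r ^ j := by
    intro j
    obtain ⟨n, -, h2⟩ := iter j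
    refine le_trans ?_ h2
    have hsub : {ω | ∀ n, n0 ≤ n → good n (fun k => C k ω)} ⊆ {ω | E n (fun k => C k ω)} :=
      fun ω hω k h1 _ => hω k h1
    exact measureReal_mono hsub
  have h0 : P.real {ω | ∀ n, n0 ≤ n → good n (fun k => C k ω)} ≤ 0 :=
    ge_of_tendsto' (tendsto_pow_atTop_nhds_zero_of_lt_one hr0 hr1) hq
  exact (measureReal_eq_zero_iff (measure_ne_top _ _)).1 (le_antisymm h0 measureReal_nonneg)

end Pool.Agent.H422Z.Urn
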