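import Pool.Agent.H422Z.Urn.Model
import Pool.Agent.H422Z.Urn.Conc
import Pool.Agent.H422Z.Urn.Trap

/-!
Almost sure convergence of the graph-based urn to a boundary point for large exponents.
-/

set_option autoImplicit false

open MeasureTheory Filter Topology Finset

namespace Pool.Agent.H422Z.Urn

open Pool.Agent.H422Z.UrnModel

variable {m : ℕ} {G : SimpleGraph (Fin m)} [DecidableRel G.Adj]

/-- normalised configuration -/
noncomputable def XX (B₀ : Fin m → ℕ) (t0 : ℝ) (h : ℕ → Choice G) (n : ℕ) : Fin m → ℝ :=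
  fun i => (balls G B₀ h n i : ℝ) / (n + t0)

/-- compensator -/
noncomputable def AA (α : ℝ) (B₀ : Fin m → ℕ) (t0 : ℝ) (h : ℕ → Choice G) (n : ℕ) : Fin m → ℝ :=
  fun i => B₀ i + ∑ k ∈ range n, ff G α (XX B₀ t0 h k) i

/-- normalised compensator -/
noncomputable def ZZ (α : ℝ) (B₀ : Fin m → ℕ) (t0 : ℝ) (h : ℕ → Choice G) (n : ℕ) : Fin m → ℝ :=
  fun i => AA α B₀ t0 h n i / (n + t0)

theorem XX_dep (B₀ : Fin m → ℕ) (t0 : ℝ) (n : ℕ) :
    Dep n (fun h : ℕ → Choice G => XX B₀ t0 h n) := fun h h' hh => by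
  have := balls_dep B₀ n h h' hh
  simp only at this
  funext i
  simp only [XX, this]

theorem AA_dep (α : ℝ) (B₀ : Fin m → ℕ) (t0 : ℝ) (n : ℕ) :
    Dep (n - 1) (fun h : ℕ → Choice G => AA α B₀ t0 h n) := fun h h' hh => by
  funext i
  simp only [AA]
  congr 1
  refine Finset.sum_congr rfl (fun k hk => ?_)
  have := (XX_dep B₀ t0 k).mono (show k ≤ n - 1 by have := Finset.mem_range.1 hk; omega) h h' hh
  simp only at this
  rw [this]

section
variable {B₀ : Fin m → ℕ} (hB : ∀ i, 1 ≤ B₀ i) {t0 : ℝ} (ht0 : 0 < t0)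
  (hsum : ∑ i, (B₀ i : ℝ) = Nn G * t0)
include hB ht0 hsum

omit hB ht0 in
theorem sum_balls (h : ℕ → Choice G) (n : ℕ) :
    ∑ i, (balls G B₀ h n i : ℝ) = Nn G * (n + t0) := by
  induction n with
  | zero => simpa [balls] using hsum
  | succ n ih =>
    simp only [balls_succ, Finset.sum_add_distrib, ih, sum_cnt, ← Nn_eq]
    push_cast; ring

omit ht0 hsum in
theorem balls_adj (h : ℕ → Choice G) (n : ℕ) {i j : Fin m} (hij : G.Adj i j) :
    (n : ℝ) + 2 ≤ balls G B₀ h n i + balls G B₀ h n j := by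
  induction n with
  | zero =>
    have h1 : (1 : ℝ) ≤ B₀ i := by exact_mod_cast hB i
    have h2 : (1 : ℝ) ≤ B₀ j := by exact_mod_cast hB j
    simp only [balls]; push_cast; linarith
  | succ n ih =>
    rw [balls_succ, balls_succ]
    have := one_le_cnt_add (h n) hij
    push_cast; linarith

omit hB hsum in
theorem low_aux (n : ℕ) {a b : ℝ} (hab : (n : ℝ) + 2 ≤ a + b) :
    1 / (1 + t0) ≤ a / (n + t0) + b / (n + t0) := by
  have hn : (0 : ℝ) ≤ n := Nat.cast_nonneg _
  rw [← add_div, div_le_div_iff₀ (by positivity) (by positivity)]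
  nlinarith

theorem XX_mem (h : ℕ → Choice G) (n : ℕ) : XX B₀ t0 h n ∈ KK G (1 / (1 + t0)) := by
  refine ⟨fun i => by unfold XX; positivity, ?_, fun i j hij => ?_⟩
  · simp only [XX]
    rw [← Finset.sum_div, sum_balls hsum]
    field_simp
  · exact low_aux ht0 n (balls_adj hB h n hij)

theorem ZZ_mem (α : ℝ) (h : ℕ → Choice G) (n : ℕ) :
    ZZ α B₀ t0 h n ∈ KK G (1 / (1 + t0)) := by
  have hadm : ∀ k, Adm G (XX B₀ t0 h k) := fun k =>
    KK_adm (by positivity) (XX_mem hB ht0 hsum h k)
  refine ⟨fun i => ?_, ?_, fun i j hij => ?_⟩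
  · exact div_nonneg (add_nonneg (Nat.cast_nonneg _)
      (Finset.sum_nonneg (fun k _ => ff_nonneg (hadm k).1 i))) (by positivity)
  · simp only [ZZ, AA]
    rw [← Finset.sum_div, Finset.sum_add_distrib, Finset.sum_comm, hsum]
    simp only [sum_ff (hadm _), Finset.sum_const, Finset.card_range, nsmul_eq_mul]
    field_simp
    ring
  · refine low_aux ht0 n ?_
    have h1 : (1 : ℝ) ≤ B₀ i := by exact_mod_cast hB i
    have h2 : (1 : ℝ) ≤ B₀ j := by exact_mod_cast hB j
    have h3 := Finset.sum_le_sum (s := range n) (fun k _ =>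
      one_le_ff_add (α := α) (hadm k).1 hij ((hadm k).2 i j hij))
    simp only [Finset.sum_const, Finset.card_range, nsmul_eq_mul, mul_one,
      Finset.sum_add_distrib] at h3
    simp only [AA]
    linarith

omit hB hsum in
theorem ZZ_rec (α : ℝ) (h : ℕ → Choice G) (n : ℕ) :
    ZZ α B₀ t0 h (n + 1) =
      ZZ α B₀ t0 h n + gam t0 n • (ff G α (XX B₀ t0 h n) - ZZ α B₀ t0 h n) := by
  funext i
  simp only [ZZ, AA, Finset.sum_range_succ, gam, Pi.add_apply, Pi.smul_apply, Pi.sub_apply,
    smul_eq_mul]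
  push_cast
  field_simp
  ring

omit hsum in
theorem mean_noise (α : ℝ) (h : ℕ → Choice G) (n : ℕ) (i : Fin m) :
    ∑ c : Choice G, wt α (balls G B₀ h n) c * (cnt c i - ff G α (XX B₀ t0 h n) i) = 0 := by
  have hb : ∀ v, 1 ≤ balls G B₀ h n v := fun v => (hB v).trans (le_balls B₀ h n v)
  simp only [mul_sub, Finset.sum_sub_distrib]
  rw [mean_cnt α hb, ← Finset.sum_mul, sum_wt α hb, one_mul, sub_eq_zero]
  have := ff_div (G := G) α (y := fun v => (balls G B₀ h n v : ℝ)) (fun i => by positivity)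
    (t := n + t0) (by positivity)
  exact (congrFun this i).symm

omit hB hsum in
theorem noise_bound (α : ℝ) (h : ℕ → Choice G) (n : ℕ) (i : Fin m) (c : Choice G) :
    |cnt c i - ff G α (XX B₀ t0 h n) i| ≤ Nn G + m + 1 := by
  have h0 : ∀ v, 0 ≤ XX B₀ t0 h n v := fun v => by unfold XX; positivity
  have h1 := ff_nonneg (G := G) (α := α) h0 i
  have h2 := ff_le_card (G := G) (α := α) h0 i
  have h3 := cnt_nonneg c i
  have h4 := cnt_le c i
  rw [← Nn_eq] at h4
  rw [Fintype.card_fin] at h2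
  rw [abs_le]
  constructor <;> linarith

variable {Ω : Type*} [MeasurableSpace Ω] {P : Measure Ω} [IsProbabilityMeasure P]
  {C : ℕ → Ω → Choice G} {α : ℝ}

omit hsum in
theorem ae_close (H : IsUrn G α B₀ P C) :
    ∀ᵐ ω ∂P, ∃ D : ℝ, ∀ n,
      ‖XX B₀ t0 (fun k => C k ω) n - ZZ α B₀ t0 (fun k => C k ω) n‖ ≤ D * tau t0 n := by
  have HC := chain_of_isUrn hB H
  have hN0 : 0 ≤ Nn G := by rw [Nn_eq]; positivity
  have hK : 0 < Nn G + m + 1 := by positivity
  have key : ∀ (i : Fin m) (s : ℝ), |s| = 1 → ∀ᵐ ω ∂P, ∀ᶠ n : ℕ in atTop,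
      s * ((balls G B₀ (fun k => C k ω) n i : ℝ) - AA α B₀ t0 (fun k => C k ω) n i) ≤
        (Nn G + m + 1) * (n : ℝ) ^ (7 / 10 : ℝ) := by
    intro i s hs
    refine HC.conc (S := fun n h => s * ((balls G B₀ h n i : ℝ) - AA α B₀ t0 h n i))
      (fun n h h' hh => ?_) (fun h => by simp [balls, AA]) hK (fun n h => ?_)
    · have h1 := balls_dep B₀ n h h' hh
      have h2 := (AA_dep α B₀ t0 n).mono (Nat.sub_le n 1) h h' hh
      simp only at h1 h2
      simp only [h1, h2]
    · refine ⟨fun c => s * (cnt c i - ff G α (XX B₀ t0 h n) i), fun c => ?_, ?_, fun c => ?_⟩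
      · rw [abs_mul, hs, one_mul]; exact noise_bound ht0 α h n i c
      · have := mean_noise hB ht0 α h n i
        simp only [mul_left_comm _ s]
        rw [← Finset.mul_sum, this, mul_zero]
      · have h1 := (balls_dep B₀ n).update h c
        have h2 := (AA_dep α B₀ t0 (n + 1)).update h c
        simp only [Nat.add_sub_cancel] at h1 h2
        simp only [balls_succ, h1, h2, Function.update_self]
        simp only [AA, Finset.sum_range_succ]
        ring
  have h1 := ae_all_iff.2 (fun i => key i 1 abs_one)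
  have h2 := ae_all_iff.2 (fun i => key i (-1) (by simp))
  filter_upwards [h1, h2] with ω h1 h2
  have h3 : (fun n => XX B₀ t0 (fun k => C k ω) n - ZZ α B₀ t0 (fun k => C k ω) n)
      =O[atTop] tau t0 := by
    refine Asymptotics.IsBigO.of_bound (Nn G + m + 1) ?_
    filter_upwards [eventually_all.2 h1, eventually_all.2 h2] with n h1 h2
    have hτ := tau_pos ht0 n
    rw [Real.norm_eq_abs, abs_of_pos hτ]
    refine (pi_norm_le_iff_of_nonneg (by positivity)).2 (fun i => ?_)
    have hn : (0 : ℝ) < n + t0 := by positivity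
    simp only [Pi.sub_apply, XX, ZZ]
    rw [← sub_div, Real.norm_eq_abs, abs_div, abs_of_pos hn, div_le_iff₀ hn]
    have h4 : |(balls G B₀ (fun k => C k ω) n i : ℝ) - AA α B₀ t0 (fun k => C k ω) n i| ≤
        (Nn G + m + 1) * (n : ℝ) ^ (7 / 10 : ℝ) := by
      rw [abs_le]; constructor <;> linarith [h1 i, h2 i]
    refine h4.trans ?_
    rw [mul_assoc]
    refine mul_le_mul_of_nonneg_left ?_ hK.le
    have e : tau t0 n * (n + t0) = ((n : ℝ) + t0) ^ (7 / 10 : ℝ) := by
      rw [tau, ← Real.rpow_add_one hn.ne']; norm_num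
    rw [e]
    exact Real.rpow_le_rpow (by positivity) (by linarith) (by norm_num)
  obtain ⟨D, -, hD⟩ := Asymptotics.bound_of_isBigO_nat_atTop h3
  refine ⟨D, fun n => ?_⟩
  have := hD (tau_pos ht0 n).ne'
  rwa [Real.norm_eq_abs (tau t0 n), abs_of_pos (tau_pos ht0 n)] at this

theorem no_interior [Nonempty (Fin m)] (H : IsUrn G α B₀ P C) (hG : Good G α) (hN : 0 < Nn G)
    {p : Fin m → ℝ} (hp : Eqm G α p) (hpK : p ∈ KK G (1 / (1 + t0))) (hpos : ∀ i, 0 < p i)
    (D n1 : ℕ) :
    P {ω | ∀ n, n1 ≤ n → ‖XX B₀ t0 (fun k => C k ω) n - p‖ ≤ D * tau t0 n} = 0 := by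
  classical
  have HC := chain_of_isUrn hB H
  have hα := hG.1
  obtain ⟨u', μ', -, -, hu1, -, -, k, hμ, i, j, hij, hne⟩ := hG.spec hp hpos
  set u := u' k with hu
  set μ := μ' k with hμdef
  have hc0 : 0 < 1 / (1 + t0) := by positivity
  obtain ⟨C1, hC1, -, -, -, ht1⟩ := taylor_pack (KK_compact (G := G) (1 / (1 + t0)))
    (KK_convex _) (fun x hx => contDiffAt_ff hα (KK_adm hc0 hx))
  set Ub : ℝ := ∑ i, |u i| with hUb
  have hUb0 : 0 ≤ Ub := by positivity
  have hdot : ∀ v : Fin m → ℝ, |∑ i, u i * v i| ≤ Ub * ‖v‖ := by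
    intro v
    refine (Finset.abs_sum_le_sum_abs _ _).trans ?_
    rw [hUb, Finset.sum_mul]
    refine Finset.sum_le_sum (fun i _ => ?_)
    rw [abs_mul]
    exact mul_le_mul_of_nonneg_left (norm_le_pi_norm v i) (abs_nonneg _)
  set δ : ℝ := 1 / (1 + (6 * Nn G) ^ α) with hδ
  have hδ0 : 0 < δ := by positivity
  set K : ℝ := Ub * (Nn G + m + 1) + 1 with hK
  have hK0 : 0 < K := by positivity
  have hune : 0 < (u i - u j) ^ 2 := by
    have : u i - u j ≠ 0 := sub_ne_zero.2 hne
    positivity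
  set cv : ℝ := min (δ ^ Fintype.card G.edgeSet * ((u i - u j) ^ 2 / 2)) (K ^ 2) with hcv
  have hcv0 : 0 < cv := lt_min (by positivity) (by positivity)
  obtain ⟨n2, hn2⟩ : ∃ n2, ∀ n, n2 ≤ n → (D : ℝ) * tau t0 n < 1 / 6 := by
    have := (tendsto_tau (t0 := t0)).const_mul (D : ℝ)
    rw [mul_zero] at this
    exact eventually_atTop.1 (this.eventually (gt_mem_nhds (by norm_num)))
  set pp : ℕ → ℝ := fun n => ∏ l ∈ range n, (1 + μ / (l + t0)) with hpp
  have hpp0 : ∀ n, 0 < pp n := fun n => Finset.prod_pos (fun l _ => by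
    have : 0 < μ := by linarith
    positivity)
  have hpp1 : ∀ n : ℕ, (n : ℝ) + t0 ≤ t0 * pp n := by
    intro n
    induction n with
    | zero => simp [hpp]
    | succ n ih =>
      simp only [hpp, Finset.prod_range_succ] at ih ⊢
      have hn : (0 : ℝ) < n + t0 := by positivity
      have h1 : 1 + 1 / (n + t0) ≤ 1 + μ / (n + t0) := by gcongr; linarith
      have h2 := mul_le_mul ih h1 (by positivity) (hn.le.trans ih)
      have e : ((n : ℝ) + t0) * (1 + 1 / (n + t0)) = n + 1 + t0 := by field_simp; ring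
      push_cast
      rw [← mul_assoc, ← e]
      exact h2
  set U : ℕ → (ℕ → Choice G) → ℝ := fun n h =>
    ∑ v, u v * ((balls G B₀ h n v : ℝ) - (n + t0) * p v) with hU
  have hUX : ∀ (n : ℕ) h, U n h = (n + t0) * ∑ v, u v * (XX B₀ t0 h n - p) v := by
    intro n h
    simp only [hU, Finset.mul_sum]
    refine Finset.sum_congr rfl (fun v _ => ?_)
    have hn : (0 : ℝ) < n + t0 := by positivity
    simp only [Pi.sub_apply, XX]
    field_simp
  have htrap := HC.trap (good := fun n h => ‖XX B₀ t0 h n - p‖ ≤ D * tau t0 n)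
    (fun n h h' hh => by
      have := XX_dep B₀ t0 n h h' hh
      simp only at this
      simp only [this])
    (Y := fun n h => U n h / pp n)
    (fun n h h' hh => by
      have := balls_dep B₀ n h h' hh
      simp only at this
      simp only [hU, this])
    (a := fun n => 1 / pp (n + 1)) (ρ := fun n => Ub * C1 * D ^ 2 * tau t0 n ^ 2)
    (y := fun n => Ub * D * t0 * tau t0 n)
    (fun n => by have := hpp0 (n + 1); positivity)
    (((summable_tau_four ht0).mul_left ((Ub * C1 * D ^ 2) ^ 2)).congr (fun n => by ring))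
    (by simpa using (tendsto_tau (t0 := t0)).const_mul (Ub * D * t0))
    hcv0 hK0 (min_le_right _ _) (max n1 n2)
    (fun n _ h hg => by
      have hn : (0 : ℝ) < n + t0 := by positivity
      rw [abs_div, abs_of_pos (hpp0 n), div_le_iff₀ (hpp0 n), hUX, abs_mul, abs_of_pos hn]
      have h1 := (hdot (XX B₀ t0 h n - p)).trans (mul_le_mul_of_nonneg_left hg hUb0)
      have h2 := mul_le_mul (hpp1 n) h1 (abs_nonneg _) (hn.le.trans (hpp1 n))
      linarith)
    (fun n hn h hg => by
      have hnt : (0 : ℝ) < n + t0 := by positivity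
      set X := XX B₀ t0 h n with hX
      have hXK : X ∈ KK G (1 / (1 + t0)) := XX_mem hB ht0 hsum h n
      refine ⟨fun c => ∑ v, u v * (cnt c v - ff G α X v),
        ∑ v, u v * (ff G α X - ff G α p - fderiv ℝ (ff G α) p (X - p)) v, ?_, fun c => ?_, ?_, ?_,
        fun c => ?_⟩
      · refine (hdot _).trans ?_
        have h1 := (ht1 _ hpK _ hXK).trans (mul_le_mul_of_nonneg_left
          (pow_le_pow_left₀ (norm_nonneg _) hg 2) hC1.le)
        have h2 := mul_le_mul_of_nonneg_left h1 hUb0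
        linarith
      · refine (hdot (fun v => cnt c v - ff G α X v)).trans ?_
        have h1 : ‖fun v => cnt c v - ff G α X v‖ ≤ Nn G + m + 1 :=
          (pi_norm_le_iff_of_nonneg (by positivity)).2 (fun v => noise_bound ht0 α h n v c)
        have h2 := mul_le_mul_of_nonneg_left h1 hUb0
        linarith
      · simp only [Finset.mul_sum]
        rw [Finset.sum_comm]
        refine Finset.sum_eq_zero (fun v _ => ?_)
        simp only [mul_left_comm _ (u v)]
        rw [← Finset.mul_sum, mean_noise hB ht0 α h n v, mul_zero]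
      · refine (min_le_left _ _).trans ?_
        have hz := (hG.2 p hp).1
        have hXl : ∀ v, 1 / 6 ≤ X v := by
          intro v
          have h1 := (norm_le_pi_norm (X - p) v).trans hg
          have h2 := hn2 n ((le_max_right _ _).trans hn)
          have h3 := (hz v).resolve_left (hpos v).ne'
          rw [Real.norm_eq_abs, Pi.sub_apply] at h1
          linarith [(abs_le.1 h1).1]
        have hw : ∀ c : Choice G, δ ^ Fintype.card G.edgeSet ≤ wt α (balls G B₀ h n) c := by
          intro c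
          rw [← Finset.card_univ, ← Finset.prod_const]
          refine Finset.prod_le_prod (fun _ _ => hδ0.le) (fun e _ => ?_)
          have hb : ∀ v, (balls G B₀ h n v : ℝ) = X v * (n + t0) := fun v => by
            simp only [hX, XX]; field_simp
          refine q_ge (α := α) (r := 6 * Nn G) (by linarith) ?_ (by positivity) (by positivity) ?_
          · rw [hb]; have := hXl (c e); positivity
          · rw [hb, hb, ← mul_assoc]
            refine mul_le_mul_of_nonneg_right ((KK_le hXK _).trans ?_) hnt.le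
            have := mul_le_mul_of_nonneg_left (hXl (c e)) (by positivity : 0 ≤ 6 * Nn G)
            linarith
        set e0 : G.edgeSet := ⟨s(i, j), hij⟩ with he0
        set cb : Choice G := fun e => ⟨e.1.out.1, Sym2.out_fst_mem _⟩ with hcb
        set c0 : Choice G := Function.update cb e0 ⟨i, Sym2.mem_mk_left i j⟩ with hc0'
        set c1 : Choice G := Function.update cb e0 ⟨j, Sym2.mem_mk_right i j⟩ with hc1'
        have v0 : (c0 e0 : Fin m) = i := by simp [hc0']
        have v1 : (c1 e0 : Fin m) = j := by simp [hc1']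
        have hc01 : c0 ≠ c1 := fun hh => hij.ne (by rw [← v0, ← v1, hh])
        set η : Choice G → ℝ := fun c => ∑ v, u v * (cnt c v - ff G α X v) with hη
        have hdiff : η c0 - η c1 = u i - u j := by
          simp only [hη, mul_sub, Finset.sum_sub_distrib, sum_mul_cnt]
          rw [sub_sub_sub_cancel_right, ← Finset.sum_sub_distrib, Finset.sum_eq_single e0, v0, v1]
          · intro e _ he
            simp only [hc0', hc1', Function.update_of_ne he, sub_self]
          · simp
        have h1 : ∑ c ∈ {c0, c1}, wt α (balls G B₀ h n) c * η c ^ 2 ≤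
            ∑ c, wt α (balls G B₀ h n) c * η c ^ 2 :=
          Finset.sum_le_sum_of_subset_of_nonneg (Finset.subset_univ _)
            (fun c _ _ => mul_nonneg (wt_nonneg _ _ _) (sq_nonneg _))
        rw [Finset.sum_pair hc01] at h1
        refine le_trans ?_ h1
        have h2 := mul_le_mul_of_nonneg_right (hw c0) (sq_nonneg (η c0))
        have h3 := mul_le_mul_of_nonneg_right (hw c1) (sq_nonneg (η c1))
        have h4 : (u i - u j) ^ 2 / 2 ≤ η c0 ^ 2 + η c1 ^ 2 := by
          rw [← hdiff]; nlinarith [sq_nonneg (η c0 + η c1)]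
        have h5 := mul_le_mul_of_nonneg_left h4
          (by positivity : 0 ≤ δ ^ Fintype.card G.edgeSet)
        linarith
      · have h1 := (balls_dep B₀ n).update h c
        have h2 : U (n + 1) (Function.update h n c) = U n h + ∑ v, u v * (cnt c v - p v) := by
          simp only [hU, balls_succ, h1, Function.update_self]
          rw [← Finset.sum_add_distrib]
          refine Finset.sum_congr rfl (fun v _ => ?_)
          push_cast; ring
        have h3 := hu1 k (X - p)
        have h4 : ∑ v, u v * (ff G α X - ff G α p - fderiv ℝ (ff G α) p (X - p)) v +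
            ∑ v, u v * (cnt c v - ff G α X v) =
            ∑ v, u v * (cnt c v - p v) - μ * ∑ v, u v * (X - p) v := by
          rw [← h3, ← Finset.sum_add_distrib, ← Finset.sum_sub_distrib]
          refine Finset.sum_congr rfl (fun v _ => ?_)
          simp only [Pi.sub_apply, hp.2.2 v]; ring
        have h5 : pp (n + 1) = pp n * (1 + μ / (n + t0)) := Finset.prod_range_succ _ _
        have h6 := hpp0 n
        have h7 : 0 < μ := by linarith
        simp only
        rw [h4, h2, hUX, h5]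
        field_simp
        ring)
  refine measure_mono_null ?_ htrap
  intro ω hω n hn
  exact hω n ((le_max_left _ _).trans hn)

end

theorem main (hm : 2 ≤ m) (hG : G.Connected) :
    ∃ α₀ : ℝ, 0 < α₀ ∧ ∀ α > α₀, ∀ B₀ : Fin m → ℕ, (∀ i, 1 ≤ B₀ i) →
      ∀ {Ω : Type*} [MeasurableSpace Ω] (P : Measure Ω) [IsProbabilityMeasure P]
        (C : ℕ → Ω → Choice G), IsUrn G α B₀ P C →
        ∀ᵐ ω ∂P, ∃ v : Fin m → ℝ,
          Tendsto (fun n => prop G B₀ (fun k => C k ω) n) atTop (𝓝 v) ∧
          (∀ i, 0 ≤ v i) ∧ ∑ i, v i = 1 ∧ ∃ i, v i = 0 := by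
  obtain ⟨a, ha⟩ := eventually_atTop.1 (eventually_good G)
  refine ⟨max a 1, lt_max_of_lt_right one_pos, fun α hα B₀ hB Ω _ P _ C H => ?_⟩
  have hgood : Good G α := ha α ((le_max_left _ _).trans hα.le)
  haveI : Nontrivial (Fin m) := Fin.nontrivial_iff_two_le.2 hm
  have hN : 0 < Nn G := by
    rw [Nn_eq]
    obtain ⟨i⟩ : Nonempty (Fin m) := inferInstance
    obtain ⟨j, hj⟩ := hG.preconnected.exists_adj_of_nontrivial i
    have : Nonempty G.edgeSet := ⟨⟨s(i, j), hj⟩⟩
    exact_mod_cast Fintype.card_pos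
  have hB0 : (0 : ℝ) < ∑ i, (B₀ i : ℝ) :=
    Finset.sum_pos (fun i _ => by exact_mod_cast hB i) Finset.univ_nonempty
  set t0 : ℝ := (∑ i, (B₀ i : ℝ)) / Nn G with ht0def
  have ht0 : 0 < t0 := div_pos hB0 hN
  have hsum : ∑ i, (B₀ i : ℝ) = Nn G * t0 := by rw [ht0def]; field_simp
  have h1 := ae_close hB ht0 H
  have h2 : ∀ᵐ ω ∂P, ∀ p ∈ {p | Eqm G α p}, ∀ D n1 : ℕ, p ∈ KK G (1 / (1 + t0)) →
      (∀ i, 0 < p i) →
      ¬ ∀ n, n1 ≤ n → ‖XX B₀ t0 (fun k => C k ω) n - p‖ ≤ D * tau t0 n := by
    refine (ae_ball_iff hgood.countable).2 (fun p hp => ae_all_iff.2 fun D => ae_all_iff.2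
      fun n1 => ?_)
    by_cases hpK : p ∈ KK G (1 / (1 + t0))
    · by_cases hpos : ∀ i, 0 < p i
      · have := no_interior hB ht0 hsum H hgood hN hp hpK hpos D n1
        filter_upwards [measure_eq_zero_iff_ae_notMem.1 this] with ω hω _ _
        exact hω
      · exact Eventually.of_forall (fun ω _ h => absurd h hpos)
    · exact Eventually.of_forall (fun ω h => absurd h hpK)
  filter_upwards [h1, h2] with ω h1 h2
  obtain ⟨D, hD⟩ := h1
  have hc0 : 0 < 1 / (1 + t0) := by positivity
  obtain ⟨p, hpK, hp, hZ, hX⟩ := path_conv hgood hN hc0 ht0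
    (XX_mem hB ht0 hsum (fun k => C k ω)) (ZZ_mem hB ht0 hsum α (fun k => C k ω))
    (ZZ_rec ht0 α (fun k => C k ω)) hD
  refine ⟨fun i => p i / Nn G, ?_, fun i => div_nonneg (hpK.1 i) hN.le, ?_, ?_⟩
  · refine tendsto_pi_nhds.2 (fun i => ?_)
    refine ((tendsto_pi_nhds.1 hX i).div_const (Nn G)).congr (fun n => ?_)
    simp only [XX, prop]
    rw [div_div, SimpleGraph.edgeFinset_card, ← Nn_eq]
    push_cast
    rw [hsum]
    congr 1
    ring
  · rw [← Finset.sum_div, hpK.2.1, div_self hN.ne']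
  · by_contra hn
    push Not at hn
    have hpos : ∀ i, 0 < p i := fun i => lt_of_le_of_ne (hpK.1 i) (fun h => hn i (by
      rw [← h, zero_div]))
    obtain ⟨D', n1, hr⟩ := path_rate hgood hc0 ht0
      (XX_mem hB ht0 hsum (fun k => C k ω)) (ZZ_mem hB ht0 hsum α (fun k => C k ω))
      (ZZ_rec ht0 α (fun k => C k ω)) hD hpK hp hpos hZ
    exact h2 p hp D' n1 hpK hpos hr

end Pool.Agent.H422Z.Urn
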