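import Pool.Agent.H422Z.Urn.Calc

/-!
Pathwise convergence and rate of convergence for perturbed Euler schemes of the mean-field map.
-/

set_option autoImplicit false

open Filter Topology Finset

namespace Pool.Agent.H422Z.Urn

variable {V : Type*} [Fintype V] {G : SimpleGraph V}

theorem lap_symm (Wt : V → V → ℝ) (hs : ∀ i j, Wt i j = Wt j i) (a b : V → ℝ) :
    ∑ i, a i * ∑ j, Wt i j * (b i - b j) = ∑ i, b i * ∑ j, Wt i j * (a i - a j) := by
  simp only [Finset.mul_sum, mul_sub, Finset.sum_sub_distrib]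
  congr 1
  · exact Finset.sum_congr rfl (fun i _ => Finset.sum_congr rfl (fun j _ => by ring))
  · rw [Finset.sum_comm]
    exact Finset.sum_congr rfl (fun i _ => Finset.sum_congr rfl (fun j _ => by rw [hs j i]; ring))

theorem Good.spec [Nonempty V] {α : ℝ} (hG : Good G α) {p : V → ℝ} (hp : Eqm G α p)
    (hpos : ∀ i, 0 < p i) :
    ∃ (u : V → V → ℝ) (μ : V → ℝ) (B : ℝ), 0 < B ∧
      (∀ k v, ∑ i, u k i * fderiv ℝ (ff G α) p v i = μ k * ∑ i, u k i * v i) ∧
      (∀ k, μ k ≤ 1 / 10 ∨ 2 ≤ μ k) ∧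
      (∀ v : V → ℝ, ‖v‖ ≤ B * ∑ k, |∑ i, u k i * v i|) ∧
      ∃ k, 2 ≤ μ k ∧ ∃ i j, G.Adj i j ∧ u k i ≠ u k j := by
  classical
  obtain ⟨hα, hG⟩ := hG
  obtain ⟨hz, hu⟩ := hG p hp
  have hs : ∀ i, 0 < √(p i) := fun i => Real.sqrt_pos.2 (hpos i)
  have hss : ∀ i, √(p i) * √(p i) = p i := fun i => Real.mul_self_sqrt (hpos i).le
  set A : V → V → ℝ := fun i j =>
    ((if i = j then ∑ l, W G α p i l else 0) - W G α p i j) / (√(p i) * √(p j)) with hA
  obtain ⟨e, μ, he1, he2, he3⟩ := spectral A (fun i j => by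
    simp only [hA]
    by_cases h : i = j
    · subst h; rfl
    · rw [if_neg h, if_neg (Ne.symm h), W_symm, mul_comm])
  set u : V → V → ℝ := fun k i => e k i / √(p i) with hudef
  have hE : ∀ k i, μ k * p i * u k i = ∑ j, W G α p i j * (u k i - u k j) := by
    intro k i
    have h1 := he1 k i
    have h2 : ∀ j, A i j * e k j = ((if i = j then (∑ l, W G α p i l) * u k i else 0) -
        W G α p i j * u k j) / √(p i) := by
      intro j
      have := hs i
      have := hs j
      simp only [hA, hudef]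
      split_ifs with h
      · subst h; field_simp
      · field_simp; ring
    simp only [h2] at h1
    rw [← Finset.sum_div, Finset.sum_sub_distrib, Finset.sum_ite_eq, if_pos (mem_univ _),
      div_eq_iff (hs i).ne'] at h1
    simp only [mul_sub, Finset.sum_sub_distrib]
    rw [← Finset.sum_mul, h1]
    simp only [hudef]
    have := hs i
    field_simp
    rw [Real.sq_sqrt (hpos i).le]
    ring
  have hune : ∀ k, ¬ ∀ i, u k i = 0 := by
    intro k h
    have h1 : ∀ i, e k i = 0 := fun i => by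
      have := h i
      simp only [hudef, div_eq_zero_iff, (hs i).ne', or_false] at this
      exact this
    have := he3 k
    simp [h1] at this
  have hm0 : (0 : ℝ) ≤ Fintype.card V := Nat.cast_nonneg _
  have hgap : ∀ k, μ k ≤ 1 / 10 ∨ 2 ≤ μ k := by
    intro k
    by_contra hn
    push Not at hn
    refine hune k (hu (fun i => μ k * p i) (u k) (fun i => ?_) (hE k))
    have h1 := (hz i).resolve_left (hpos i).ne'
    have h2 := hp.le_card i
    constructor <;> nlinarith [hn.1, hn.2]
  refine ⟨u, μ, Fintype.card V + 1, by positivity, fun k v => ?_, hgap, fun v => ?_, ?_⟩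
  · simp only [fderiv_ff hα hp.adm]
    rw [lap_symm _ (W_symm α p) (u k) (fun i => v i / p i), Finset.mul_sum]
    refine Finset.sum_congr rfl (fun i _ => ?_)
    rw [← hE k i]
    have := hpos i
    field_simp
  · refine (pi_norm_le_iff_of_nonneg (by positivity)).2 (fun i => ?_)
    have h1 : v i = √(p i) * ∑ k, e k i * ∑ j, u k j * v j := by
      simp only [Finset.mul_sum]
      rw [Finset.sum_comm]
      have : ∀ j, ∑ k, √(p i) * (e k i * (u k j * v j)) =
          (if i = j then 1 else 0) * (√(p i) * (v j / √(p j))) := by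
        intro j
        rw [← he2 i j, Finset.sum_mul]
        refine Finset.sum_congr rfl (fun k _ => ?_)
        simp only [hudef]; ring
      simp only [this, ite_mul, one_mul, zero_mul, Finset.sum_ite_eq, mem_univ, if_true]
      have := hs i
      field_simp
    rw [Real.norm_eq_abs, h1, abs_mul, abs_of_pos (hs i)]
    refine mul_le_mul ?_ ((Finset.abs_sum_le_sum_abs _ _).trans
      (Finset.sum_le_sum (fun k _ => ?_))) (abs_nonneg _) (by positivity)
    · refine Real.sqrt_le_iff.2 ⟨by positivity, ?_⟩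
      nlinarith [hp.le_card i]
    · rw [abs_mul]
      refine mul_le_of_le_one_left (abs_nonneg _) ?_
      have h2 : e k i ^ 2 ≤ 1 := by
        rw [← he3 k]
        exact Finset.single_le_sum (f := fun i => e k i ^ 2) (fun _ _ => sq_nonneg _) (mem_univ i)
      exact (sq_le_one_iff_abs_le_one _).1 h2
  · have hex : ∃ k, 2 ≤ μ k := by
      by_contra hn
      push Not at hn
      have hall : ∀ k, μ k ≤ 1 / 10 := fun k => (hgap k).resolve_right (not_le.2 (hn k))
      obtain ⟨i0, -, hi0⟩ := Finset.exists_min_image Finset.univ p Finset.univ_nonempty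
      have h1 : A i0 i0 = ∑ k, μ k * (e k i0 * e k i0) := by
        calc A i0 i0 = ∑ j, A i0 j * (if j = i0 then 1 else 0) := by simp
          _ = ∑ j, ∑ k, A i0 j * e k j * e k i0 := by
            refine Finset.sum_congr rfl (fun j _ => ?_)
            rw [← he2 j i0, Finset.mul_sum]
            exact Finset.sum_congr rfl (fun k _ => by ring)
          _ = _ := by
            rw [Finset.sum_comm]
            refine Finset.sum_congr rfl (fun k _ => ?_)
            rw [← Finset.sum_mul, he1 k i0]; ring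
      have h2 : A i0 i0 ≤ 1 / 10 := by
        rw [h1]
        calc ∑ k, μ k * (e k i0 * e k i0) ≤ ∑ k, 1 / 10 * (e k i0 * e k i0) :=
              Finset.sum_le_sum (fun k _ =>
                mul_le_mul_of_nonneg_right (hall k) (mul_self_nonneg _))
          _ = 1 / 10 := by rw [← Finset.mul_sum, he2 i0 i0]; simp
      have h3 : α / 2 * p i0 ≤ ∑ l, W G α p i0 l := by
        rw [← hp.2.2 i0, ff, Finset.mul_sum]
        refine Finset.sum_le_sum (fun l _ => ?_)
        unfold W
        split_ifs with h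
        · have h4 := q_ge (α := α) (a := p l) (b := p i0) (r := 1) (by linarith) (hpos l)
            (hpos i0).le zero_le_one (by linarith [hi0 l (mem_univ l)])
          rw [Real.one_rpow] at h4
          have h5 := q_nonneg (α := α) (hpos i0).le (hpos l).le
          have h6 := mul_le_mul_of_nonneg_left h4 (mul_nonneg (by linarith : 0 ≤ α) h5)
          linarith
        · simp
      have h4 : A i0 i0 = (∑ l, W G α p i0 l) / p i0 := by
        simp only [hA, if_true, hss]
        rw [show W G α p i0 i0 = 0 by simp [W], sub_zero]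
      rw [h4, div_le_iff₀ (hpos i0)] at h2
      have := hpos i0
      nlinarith
    obtain ⟨k, hk⟩ := hex
    refine ⟨k, hk, ?_⟩
    by_contra hn
    push Not at hn
    refine hune k (fun i => ?_)
    have h1 := hE k i
    rw [Finset.sum_eq_zero (fun j _ => by
      by_cases h : G.Adj i j
      · rw [hn i j h, sub_self, mul_zero]
      · simp [W, h])] at h1
    have h2 : μ k * p i ≠ 0 := (mul_pos (by linarith) (hpos i)).ne'
    exact (mul_eq_zero.1 h1).resolve_left h2

/-- step sizes -/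
noncomputable def gam (t0 : ℝ) (n : ℕ) : ℝ := 1 / (n + 1 + t0)

/-- error scale -/
noncomputable def tau (t0 : ℝ) (n : ℕ) : ℝ := (n + t0) ^ (-(3 / 10) : ℝ)

section
variable {t0 : ℝ} (ht0 : 0 < t0)
include ht0

theorem gam_pos (n : ℕ) : 0 < gam t0 n := by unfold gam; positivity

theorem gam_le_one (n : ℕ) : gam t0 n ≤ 1 := by
  unfold gam
  rw [div_le_one (by positivity)]
  have : (0 : ℝ) ≤ n := Nat.cast_nonneg _
  linarith

theorem tau_pos (n : ℕ) : 0 < tau t0 n := by unfold tau; positivity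

theorem summable_rpow {s : ℝ} (hs : 1 < s) : Summable (fun n : ℕ => ((n : ℝ) + t0) ^ (-s)) := by
  refine ((Real.summable_one_div_nat_add_rpow t0 s).2 hs).congr (fun n => ?_)
  rw [abs_of_pos (by positivity), Real.rpow_neg (by positivity), one_div]

theorem gam_le (n : ℕ) : gam t0 n ≤ ((n : ℝ) + t0) ^ (-1 : ℝ) := by
  rw [Real.rpow_neg_one, gam, one_div]
  exact inv_anti₀ (by positivity) (by linarith)

theorem summable_gam_tau : Summable (fun n => gam t0 n * tau t0 n) := by
  refine Summable.of_nonneg_of_le (fun n => (mul_pos (gam_pos ht0 n) (tau_pos ht0 n)).le)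
    (fun n => ?_) (summable_rpow ht0 (s := 13 / 10) (by norm_num))
  calc gam t0 n * tau t0 n ≤ ((n : ℝ) + t0) ^ (-1 : ℝ) * tau t0 n :=
        mul_le_mul_of_nonneg_right (gam_le ht0 n) (tau_pos ht0 n).le
    _ = _ := by rw [tau, ← Real.rpow_add (by positivity)]; norm_num

theorem summable_gam_sq : Summable (fun n => gam t0 n ^ 2) := by
  refine Summable.of_nonneg_of_le (fun n => sq_nonneg _)
    (fun n => ?_) (summable_rpow ht0 (s := 2) (by norm_num))
  calc gam t0 n ^ 2 ≤ (((n : ℝ) + t0) ^ (-1 : ℝ)) ^ 2 :=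
        pow_le_pow_left₀ (gam_pos ht0 n).le (gam_le ht0 n) 2
    _ = _ := by rw [← Real.rpow_natCast, ← Real.rpow_mul (by positivity)]; norm_num

theorem summable_tau_four : Summable (fun n => tau t0 n ^ 4) := by
  refine (summable_rpow ht0 (s := 6 / 5) (by norm_num)).congr (fun n => ?_)
  rw [tau, ← Real.rpow_natCast, ← Real.rpow_mul (by positivity)]; norm_num

theorem not_summable_gam : ¬ Summable (gam t0) := by
  intro h
  have := (Real.summable_one_div_nat_add_rpow (1 + t0) 1).1 (h.congr (fun n => by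
    rw [abs_of_pos (by positivity), Real.rpow_one, gam, add_assoc]))
  exact lt_irrefl _ this

theorem tendsto_gam : Tendsto (gam t0) atTop (𝓝 0) := by
  have h := (summable_gam_sq ht0).tendsto_atTop_zero
  have h2 := (Real.continuous_sqrt.tendsto 0).comp h
  rw [Real.sqrt_zero] at h2
  exact h2.congr (fun n => Real.sqrt_sq (gam_pos ht0 n).le)

omit ht0 in
theorem tendsto_tau : Tendsto (tau t0) atTop (𝓝 0) :=
  (tendsto_rpow_neg_atTop (by norm_num)).comp
    (tendsto_atTop_add_const_right _ t0 tendsto_natCast_atTop_atTop)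

theorem tau_anti (n : ℕ) : tau t0 (n + 1) ≤ tau t0 n := by
  unfold tau
  exact Real.rpow_le_rpow_of_nonpos (by positivity) (by push_cast; linarith) (by norm_num)

theorem tau_lower (n : ℕ) (hn : 1 ≤ n) : (1 - 6 / 10 * gam t0 n) * tau t0 n ≤ tau t0 (n + 1) := by
  set t : ℝ := n + t0 with ht
  have hn' : (1 : ℝ) ≤ n := by exact_mod_cast hn
  have ht1 : 1 ≤ t := by linarith
  have h1 := rpow_one_add_le_one_add_mul_self (s := 1 / t) (p := 3 / 10)
    (by have : 0 ≤ 1 / t := by positivity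
        linarith) (by norm_num) (by norm_num)
  have e1 : tau t0 (n + 1) = tau t0 n / (1 + 1 / t) ^ (3 / 10 : ℝ) := by
    unfold tau
    have : ((n + 1 : ℕ) : ℝ) + t0 = t * (1 + 1 / t) := by push_cast; field_simp; ring
    rw [this, Real.mul_rpow (by linarith) (by positivity), Real.rpow_neg (x := 1 + 1 / t)
      (by positivity)]
    exact (div_eq_mul_inv _ _).symm
  have e2 : gam t0 n = 1 / (t + 1) := by rw [gam, ht]; ring_nf
  rw [e1, e2, le_div_iff₀ (by positivity)]
  have h2 := tau_pos ht0 n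
  have h3 : 1 / t ≤ 2 * (1 / (t + 1)) := by
    rw [mul_one_div, div_le_div_iff₀ (by linarith) (by linarith)]; linarith
  have h4 : 0 < 1 / (t + 1) := by positivity
  have h5 : 1 / (t + 1) ≤ 1 := by rw [div_le_one (by linarith)]; linarith
  have h6 : (1 - 6 / 10 * (1 / (t + 1))) * (1 + 1 / t) ^ (3 / 10 : ℝ) ≤
      (1 - 6 / 10 * (1 / (t + 1))) * (1 + 6 / 10 * (1 / (t + 1))) :=
    mul_le_mul_of_nonneg_left (by linarith) (by linarith)
  have h7 : (1 - 6 / 10 * (1 / (t + 1))) * (1 + 1 / t) ^ (3 / 10 : ℝ) ≤ 1 := by nlinarith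
  nlinarith

end

theorem path_conv {α : ℝ} (hG : Good G α) (hN : 0 < Nn G) {c t0 : ℝ} (hc : 0 < c)
    (ht0 : 0 < t0) {X Z : ℕ → V → ℝ} (hX : ∀ n, X n ∈ KK G c) (hZ : ∀ n, Z n ∈ KK G c)
    (hrec : ∀ n, Z (n + 1) = Z n + gam t0 n • (ff G α (X n) - Z n)) {C : ℝ}
    (hC : ∀ n, ‖X n - Z n‖ ≤ C * tau t0 n) :
    ∃ p ∈ KK G c, Eqm G α p ∧ Tendsto Z atTop (𝓝 p) ∧ Tendsto X atTop (𝓝 p) := by
  have hα := hG.1
  obtain ⟨C1, hC1, hb1, -, hl1, -⟩ := taylor_pack (KK_compact (G := G) c) (KK_convex c)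
    (fun x hx => contDiffAt_ff hα (KK_adm hc hx))
  obtain ⟨C2, hC2, hb2, hd2, -, ht2⟩ := taylor_pack (KK_compact (G := G) c) (KK_convex c)
    (fun x hx => contDiffAt_Lam hα (KK_adm hc hx))
  have hnorm : ∀ x ∈ KK G c, ‖x‖ ≤ Nn G := fun x hx =>
    (pi_norm_le_iff_of_nonneg hN.le).2 (fun i => by
      rw [Real.norm_eq_abs, abs_of_nonneg (hx.1 i)]; exact KK_le hx i)
  set Gf : (V → ℝ) → ℝ := fun z => ∑ i, (ff G α z i - z i) ^ 2 with hGf
  have hGz : ∀ z, Gf z = 0 → ff G α z = z := fun z hz => by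
    funext i
    have := (Finset.sum_eq_zero_iff_of_nonneg (fun i _ => sq_nonneg _)).1 hz i (mem_univ i)
    exact sub_eq_zero.1 (pow_eq_zero_iff two_ne_zero |>.1 this)
  have hEq : ∀ z ∈ KK G c, Gf z = 0 → Eqm G α z := fun z hz h =>
    ⟨hz.1, (KK_adm hc hz).2, congrFun (hGz z h)⟩
  have hstep : ∀ n, ‖Z (n + 1) - Z n‖ ≤ (C1 + Nn G) * gam t0 n := by
    intro n
    rw [hrec n, add_sub_cancel_left, norm_smul, Real.norm_eq_abs, abs_of_pos (gam_pos ht0 n),
      mul_comm]
    exact mul_le_mul_of_nonneg_right ((norm_sub_le _ _).trans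
      (add_le_add (hb1 _ (hX n)) (hnorm _ (hZ n)))) (gam_pos ht0 n).le
  have hC0 : 0 ≤ C := by
    have := (norm_nonneg _).trans (hC 0)
    exact nonneg_of_mul_nonneg_left this (tau_pos ht0 0)
  have hsum : Summable (fun n => 2 * α / Nn G * (gam t0 n * Gf (Z n))) := by
    refine summable_of_lyap (L := fun n => Lam G α (Z n)) (M := C2)
      (e := fun n => C2 * C1 * C * (gam t0 n * tau t0 n) + C2 * (C1 + Nn G) ^ 2 * gam t0 n ^ 2)
      (fun n => hb2 _ (hZ n)) (fun n => ?_) (fun n => ?_) ?_ (fun n => ?_)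
    · have := gam_pos ht0 n
      have : 0 ≤ Gf (Z n) := Finset.sum_nonneg (fun i _ => sq_nonneg _)
      have : 0 ≤ α := by linarith
      positivity
    · have := gam_pos ht0 n
      have := tau_pos ht0 n
      positivity
    · exact ((summable_gam_tau ht0).mul_left _).add ((summable_gam_sq ht0).mul_left _)
    · have h1 := ht2 _ (hZ n) _ (hZ (n + 1))
      have h2 : ‖Z (n + 1) - Z n‖ ^ 2 ≤ ((C1 + Nn G) * gam t0 n) ^ 2 :=
        pow_le_pow_left₀ (norm_nonneg _) (hstep n) 2
      have h3 : fderiv ℝ (Lam G α) (Z n) (Z (n + 1) - Z n) =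
          gam t0 n * (fderiv ℝ (Lam G α) (Z n) (ff G α (Z n) - Z n) +
            fderiv ℝ (Lam G α) (Z n) (ff G α (X n) - ff G α (Z n))) := by
        rw [hrec n, add_sub_cancel_left, map_smul, smul_eq_mul, ← map_add]
        congr 2; abel
      have h4 := lyap_lower hα hc hN (hZ n)
      have h5 : ‖fderiv ℝ (Lam G α) (Z n) (ff G α (X n) - ff G α (Z n))‖ ≤
          C2 * (C1 * (C * tau t0 n)) :=
        (ContinuousLinearMap.le_opNorm _ _).trans (mul_le_mul (hd2 _ (hZ n))
          ((hl1 _ (hZ n) _ (hX n)).trans (mul_le_mul_of_nonneg_left (hC n) hC1.le))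
          (norm_nonneg _) hC2.le)
      rw [Real.norm_eq_abs] at h1 h5
      have h6 := (abs_le.1 h1).1
      have h7 := (abs_le.1 h5).1
      have h8 := mul_le_mul_of_nonneg_left h2 hC2.le
      have h9 := mul_le_mul_of_nonneg_left (add_le_add h4 h7) (gam_pos ht0 n).le
      rw [h3] at h6
      simp only [hGf]
      linarith
  have hsum' : Summable (fun n => gam t0 n * Gf (Z n)) :=
    (summable_mul_left_iff (by have : 0 < α := by linarith
                               positivity)).1 hsum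
  obtain ⟨p, hpK, hp0, hlim⟩ := conv_of_isolated (KK_compact (G := G) c) (G := Gf)
    (by
      refine continuousOn_finsetSum _ (fun i _ => ContinuousOn.pow (ContinuousOn.sub ?_
        (continuous_apply i).continuousOn) 2)
      exact (continuous_apply i).comp_continuousOn (fun x hx =>
        (contDiffAt_ff hα (KK_adm hc hx)).continuousAt.continuousWithinAt))
    (fun x _ => Finset.sum_nonneg (fun i _ => sq_nonneg _))
    (fun p hp h0 => by
      obtain ⟨ε, hε, h⟩ := hG.isolated (hEq p hp h0)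
      exact ⟨ε, hε, fun x _ hx hxp => h x (hGz x hx) hxp⟩)
    hZ (fun n => (gam_pos ht0 n).le) (tendsto_gam ht0) (not_summable_gam ht0)
    (by linarith) hstep hsum'
  refine ⟨p, hpK, hEq p hpK hp0, hlim, ?_⟩
  have h1 : Tendsto (fun n => X n - Z n) atTop (𝓝 0) :=
    squeeze_zero_norm hC (by simpa using (tendsto_tau (t0 := t0)).const_mul C)
  simpa using h1.add hlim

theorem path_rate [Nonempty V] {α : ℝ} (hG : Good G α) {c t0 : ℝ} (hc : 0 < c)
    (ht0 : 0 < t0) {X Z : ℕ → V → ℝ} (hX : ∀ n, X n ∈ KK G c) (hZ : ∀ n, Z n ∈ KK G c)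
    (hrec : ∀ n, Z (n + 1) = Z n + gam t0 n • (ff G α (X n) - Z n)) {C : ℝ}
    (hC : ∀ n, ‖X n - Z n‖ ≤ C * tau t0 n) {p : V → ℝ} (hpK : p ∈ KK G c) (hp : Eqm G α p)
    (hpos : ∀ i, 0 < p i) (hlim : Tendsto Z atTop (𝓝 p)) :
    ∃ D n1 : ℕ, ∀ n, n1 ≤ n → ‖X n - p‖ ≤ D * tau t0 n := by
  classical
  have hα := hG.1
  obtain ⟨u, μ, B, hB, hu1, hu2, hu3, -⟩ := hG.spec hp hpos
  obtain ⟨C1, hC1, -, -, hl1, ht1⟩ := taylor_pack (KK_compact (G := G) c) (KK_convex c)
    (fun x hx => contDiffAt_ff hα (KK_adm hc hx))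
  have hC0 : 0 ≤ C := by
    have := (norm_nonneg _).trans (hC 0)
    exact nonneg_of_mul_nonneg_left this (tau_pos ht0 0)
  set Ub : ℝ := ∑ k, ∑ i, |u k i| with hUb
  have hUb0 : 0 ≤ Ub := by positivity
  set cc : ℕ → V → ℝ := fun n k => ∑ i, u k i * (Z n - p) i with hcc
  set R : ℕ → V → ℝ := fun n => ff G α (X n) - p - fderiv ℝ (ff G α) p (Z n - p) with hR
  set r : ℕ → V → ℝ := fun n k => ∑ i, u k i * R n i with hr
  have hfp : ff G α p = p := funext hp.2.2
  have hcrec : ∀ n k, cc (n + 1) k = (1 + gam t0 n * (μ k - 1)) * cc n k + gam t0 n * r n k := by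
    intro n k
    have h1 := hu1 k (Z n - p)
    have h2 : r n k = ∑ i, u k i * (ff G α (X n) i - p i) - μ k * cc n k := by
      simp only [hr, hR, hcc]
      rw [← h1, ← Finset.sum_sub_distrib]
      exact Finset.sum_congr rfl (fun i _ => by simp only [Pi.sub_apply]; ring)
    have h3 : cc (n + 1) k = (1 - gam t0 n) * cc n k +
        gam t0 n * ∑ i, u k i * (ff G α (X n) i - p i) := by
      simp only [hcc, hrec n, Finset.mul_sum]
      rw [← Finset.sum_add_distrib]
      exact Finset.sum_congr rfl (fun i _ => by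
        simp only [Pi.sub_apply, Pi.add_apply, Pi.smul_apply, smul_eq_mul]; ring)
    rw [h2, h3]; ring
  have hrb : ∀ n, ∑ k, |r n k| ≤ Ub * ‖R n‖ := by
    intro n
    rw [hUb, Finset.sum_mul]
    refine Finset.sum_le_sum (fun k _ => (Finset.abs_sum_le_sum_abs _ _).trans ?_)
    rw [Finset.sum_mul]
    refine Finset.sum_le_sum (fun i _ => ?_)
    rw [abs_mul]
    exact mul_le_mul_of_nonneg_left (norm_le_pi_norm (R n) i) (abs_nonneg _)
  have hRb : ∀ n, ‖R n‖ ≤ C1 * (C * tau t0 n) + C1 * ‖Z n - p‖ ^ 2 := by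
    intro n
    have e : R n = (ff G α (X n) - ff G α (Z n)) +
        (ff G α (Z n) - ff G α p - fderiv ℝ (ff G α) p (Z n - p)) := by
      simp only [hR, hfp]; abel
    rw [e]
    exact (norm_add_le _ _).trans (add_le_add
      ((hl1 _ (hZ n) _ (hX n)).trans (mul_le_mul_of_nonneg_left (hC n) hC1.le))
      (ht1 _ hpK _ (hZ n)))
  set S := Finset.univ.filter (fun k => μ k ≤ 1 / 10) with hS
  set T := Finset.univ.filter (fun k => ¬ μ k ≤ 1 / 10) with hT
  set a : ℕ → ℝ := fun n => ∑ k ∈ S, |cc n k| with ha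
  set b : ℕ → ℝ := fun n => ∑ k ∈ T, |cc n k| with hb
  have hab : ∀ n, a n + b n = ∑ k, |cc n k| := fun n =>
    Finset.sum_filter_add_sum_filter_not _ _ _
  have hZp : ∀ n, ‖Z n - p‖ ≤ B * (a n + b n) := fun n => by rw [hab]; exact hu3 _
  have hlim0 : Tendsto (fun n => Z n - p) atTop (𝓝 0) := tendsto_sub_nhds_zero_iff.2 hlim
  have ev1 : ∀ᶠ n in atTop, Ub * C1 * B * ‖Z n - p‖ < 1 / 10 := by
    have := (tendsto_zero_iff_norm_tendsto_zero.1 hlim0).const_mul (Ub * C1 * B)
    rw [mul_zero] at this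
    exact this.eventually (gt_mem_nhds (by norm_num))
  have ev2 : ∀ᶠ n in atTop, ∀ k, gam t0 n * (1 - μ k) < 1 := by
    refine eventually_all.2 (fun k => ?_)
    have := (tendsto_gam ht0).mul_const (1 - μ k)
    rw [zero_mul] at this
    exact this.eventually (gt_mem_nhds (by norm_num))
  obtain ⟨n0, hn0⟩ := eventually_atTop.1 (ev1.and (ev2.and (eventually_ge_atTop 1)))
  have hrr : ∀ n, n0 ≤ n → ∑ k, |r n k| ≤ (a n + b n) / 10 + (Ub * C1 * C + 1) * tau t0 n := by
    intro n hn
    have h1 := (hrb n).trans (mul_le_mul_of_nonneg_left (hRb n) hUb0)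
    have h2 := (hn0 n hn).1
    have h3 := mul_le_mul_of_nonneg_left (hZp n) (by positivity : 0 ≤ Ub * C1 * ‖Z n - p‖)
    have h4 : 0 ≤ a n + b n := by rw [hab]; positivity
    have h5 := mul_le_mul_of_nonneg_right h2.le h4
    have h6 := tau_pos ht0 n
    nlinarith
  have hb0 : Tendsto b atTop (𝓝 0) := by
    have : Tendsto (fun n => ∑ k ∈ T, |∑ i, u k i * (Z n - p) i|) atTop
        (𝓝 (∑ k ∈ T, |∑ i, u k i * (0 : V → ℝ) i|)) := by
      refine tendsto_finsetSum _ (fun k _ => Tendsto.abs (tendsto_finsetSum _ (fun i _ => ?_)))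
      exact (((continuous_apply i).tendsto _).comp hlim0).const_mul _
    simp only [Pi.zero_apply, mul_zero, Finset.sum_const_zero, abs_zero] at this
    exact this
  obtain ⟨D, hD0, hD⟩ := rate_ab (a := a) (b := b) (γ := gam t0) (τ := tau t0)
    (C := Ub * C1 * C + 1) (by positivity) (n0 := n0) (fun n => by simp only [ha]; positivity)
    (fun n => (gam_pos ht0 n).le) (gam_le_one ht0) (tau_pos ht0) (tau_anti ht0)
    (fun n hn => tau_lower ht0 n (hn0 n hn).2.2) hb0
    (fun n hn => by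
      have g0 := (gam_pos ht0 n).le
      have h1 : ∀ k ∈ T, (1 + gam t0 n) * |cc n k| - gam t0 n * |r n k| ≤ |cc (n + 1) k| := by
        intro k hk
        have h2 : 2 ≤ μ k := (hu2 k).resolve_left (Finset.mem_filter.1 hk).2
        have h3 : 1 + gam t0 n ≤ 1 + gam t0 n * (μ k - 1) := by nlinarith
        have h4 := abs_sub_abs_le_abs_add ((1 + gam t0 n * (μ k - 1)) * cc n k) (gam t0 n * r n k)
        have h7 : 0 ≤ 1 + gam t0 n * (μ k - 1) := by linarith
        rw [← hcrec, abs_mul, abs_mul, abs_of_nonneg g0, abs_of_nonneg h7] at h4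
        have h5 := mul_le_mul_of_nonneg_right h3 (abs_nonneg (cc n k))
        linarith
      have h2 := Finset.sum_le_sum h1
      rw [Finset.sum_sub_distrib, ← Finset.mul_sum, ← Finset.mul_sum] at h2
      have h3 : ∑ k ∈ T, |r n k| ≤ ∑ k, |r n k| :=
        Finset.sum_le_sum_of_subset_of_nonneg (Finset.subset_univ _) (fun _ _ _ => abs_nonneg _)
      have h4 := mul_le_mul_of_nonneg_left (h3.trans (hrr n hn)) g0
      simp only [hb] at h4 ⊢
      linarith)
    (fun n hn => by
      have g0 := (gam_pos ht0 n).le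
      have h1 : ∀ k ∈ S, |cc (n + 1) k| ≤ (1 - 9 / 10 * gam t0 n) * |cc n k| +
          gam t0 n * |r n k| := by
        intro k hk
        have h2 : μ k ≤ 1 / 10 := (Finset.mem_filter.1 hk).2
        have h3 : 1 + gam t0 n * (μ k - 1) ≤ 1 - 9 / 10 * gam t0 n := by nlinarith
        have h6 := (hn0 n hn).2.1 k
        have h4 := abs_add_le ((1 + gam t0 n * (μ k - 1)) * cc n k) (gam t0 n * r n k)
        have h7 : 0 ≤ 1 + gam t0 n * (μ k - 1) := by linarith
        rw [← hcrec, abs_mul, abs_mul, abs_of_nonneg g0, abs_of_nonneg h7] at h4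
        have h5 := mul_le_mul_of_nonneg_right h3 (abs_nonneg (cc n k))
        linarith
      have h2 := Finset.sum_le_sum h1
      rw [Finset.sum_add_distrib, ← Finset.mul_sum, ← Finset.mul_sum] at h2
      have h3 : ∑ k ∈ S, |r n k| ≤ ∑ k, |r n k| :=
        Finset.sum_le_sum_of_subset_of_nonneg (Finset.subset_univ _) (fun _ _ _ => abs_nonneg _)
      have h4 := mul_le_mul_of_nonneg_left (h3.trans (hrr n hn)) g0
      simp only [ha] at h4 ⊢
      linarith)
  obtain ⟨D', hD'⟩ := exists_nat_ge (C + B * D)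
  refine ⟨D', n0, fun n hn => ?_⟩
  have h1 := norm_sub_le_norm_sub_add_norm_sub (X n) (Z n) p
  have h2 := (hZp n).trans (mul_le_mul_of_nonneg_left (hD n hn) hB.le)
  have h3 := mul_le_mul_of_nonneg_right hD' (tau_pos ht0 n).le
  linarith [hC n]

end Pool.Agent.H422Z.Urn
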