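import Mathlib

/-!
Elementary probability for a process making one of finitely many choices at each step.
-/

set_option autoImplicit false

open MeasureTheory Filter Topology Finset

namespace Pool.Agent.H422Z.Urn

/-- `g` depends only on the first `n` coordinates. -/
def Dep {Ch β : Type*} (n : ℕ) (g : (ℕ → Ch) → β) : Prop :=
  ∀ h h' : ℕ → Ch, (∀ k < n, h k = h' k) → g h = g h'

theorem Dep.mono {Ch β : Type*} {n m : ℕ} {g : (ℕ → Ch) → β} (hg : Dep n g) (hnm : n ≤ m) :
    Dep m g := fun h h' hh => hg h h' (fun k hk => hh k (lt_of_lt_of_le hk hnm))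

theorem Dep.update {Ch β : Type*} {n : ℕ} {g : (ℕ → Ch) → β} (hg : Dep n g) (h : ℕ → Ch)
    (c : Ch) : g (Function.update h n c) = g h :=
  hg _ _ (fun k hk => Function.update_of_ne (ne_of_lt hk) _ _)

/-- A process of finite choices with one-step conditional weights `w`. -/
structure Chain {Ω Ch : Type*} [MeasurableSpace Ω] [Fintype Ch] (P : Measure Ω)
    (C : ℕ → Ω → Ch) (w : ℕ → (ℕ → Ch) → Ch → ℝ) : Prop where
  meas : ∀ n c, MeasurableSet {ω | C n ω = c}
  dep : ∀ n, Dep n (w n)
  nonneg : ∀ n h c, 0 ≤ w n h c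
  sum_one : ∀ n h, ∑ c, w n h c = 1
  step : ∀ n h, P {ω | ∀ k ≤ n, C k ω = h k} =
    P {ω | ∀ k < n, C k ω = h k} * ENNReal.ofReal (w n h (h n))

section
variable {Ω : Type*} [MeasurableSpace Ω] {P : Measure Ω} [IsProbabilityMeasure P]

theorem finite_repr {A : Type*} [Fintype A] (X : Ω → A) (φ : A → ℝ) :
    (fun ω => φ (X ω)) = fun ω => ∑ a, ({ω | X ω = a} : Set Ω).indicator (fun _ => φ a) ω := by
  classical
  funext ω
  rw [Finset.sum_eq_single (X ω)]
  · simp
  · intro b _ hb
    rw [Set.indicator_of_notMem]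
    simpa using fun h => hb h.symm
  · simp

theorem integrable_finite {A : Type*} [Fintype A] (X : Ω → A)
    (hX : ∀ a, MeasurableSet {ω | X ω = a}) (φ : A → ℝ) :
    Integrable (fun ω => φ (X ω)) P := by
  rw [finite_repr X φ]
  exact integrable_finsetSum _ (fun a _ => (integrable_const _).indicator (hX a))

theorem integral_finite {A : Type*} [Fintype A] (X : Ω → A)
    (hX : ∀ a, MeasurableSet {ω | X ω = a}) (φ : A → ℝ) :
    ∫ ω, φ (X ω) ∂P = ∑ a, P.real {ω | X ω = a} * φ a := by
  rw [finite_repr X φ, integral_finsetSum _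
    (fun a _ => (integrable_const _).indicator (hX a))]
  refine Finset.sum_congr rfl (fun a _ => ?_)
  rw [integral_indicator_const _ (hX a), smul_eq_mul]

variable {Ch : Type*} [Fintype Ch] {C : ℕ → Ω → Ch} {w : ℕ → (ℕ → Ch) → Ch → ℝ}

/-- extension of a finite history -/
def ext (d : Ch) {n : ℕ} (r : Fin n → Ch) : ℕ → Ch := fun k => if h : k < n then r ⟨k, h⟩ else d

omit [Fintype Ch] in
theorem meas_hist (hm : ∀ n c, MeasurableSet {ω | C n ω = c}) (n : ℕ) (r : Fin n → Ch) :
    MeasurableSet {ω | (fun k : Fin n => C k ω) = r} := by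
  have : {ω | (fun k : Fin n => C k ω) = r} = ⋂ k : Fin n, {ω | C k ω = r k} := by
    ext ω; simp [funext_iff]
  rw [this]
  exact MeasurableSet.iInter (fun k => hm _ _)

theorem Chain.nonempty (H : Chain P C w) : Nonempty Ch := by
  have : Nonempty Ω := by
    by_contra hn
    rw [not_nonempty_iff] at hn
    have := measure_univ (μ := P)
    rw [Set.univ_eq_empty_iff.2 hn] at this
    simp at this
  exact ⟨C 0 this.some⟩

theorem Chain.integrable (H : Chain P C w) {n : ℕ} {g : (ℕ → Ch) → ℝ} (hg : Dep n g) :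
    Integrable (fun ω => g (fun k => C k ω)) P := by
  classical
  obtain ⟨d⟩ := H.nonempty
  have : (fun ω => g (fun k => C k ω)) =
      fun ω => (fun r : Fin n → Ch => g (ext d r)) (fun k : Fin n => C k ω) := by
    funext ω
    exact hg _ _ (fun k hk => by simp [ext, hk])
  rw [this]
  exact integrable_finite (P := P) (fun ω => (fun k : Fin n => C k ω)) (meas_hist H.meas n)
    (fun r : Fin n → Ch => g (ext d r))

theorem Chain.measurableSet (H : Chain P C w) {n : ℕ} {p : (ℕ → Ch) → Prop} (hp : Dep n p) :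
    MeasurableSet {ω | p (fun k => C k ω)} := by
  classical
  obtain ⟨d⟩ := H.nonempty
  have : {ω | p (fun k => C k ω)} =
      ⋃ r ∈ (Finset.univ.filter (fun r : Fin n → Ch => p (ext d r))),
        {ω | (fun k : Fin n => C k ω) = r} := by
    ext ω
    simp only [Set.mem_ofPred_eq, Finset.mem_filter, Finset.mem_univ, true_and, Set.mem_iUnion,
      exists_prop, exists_eq_right']
    rw [hp (fun k => C k ω) (ext d (fun k : Fin n => C k ω)) (fun k hk => by simp [ext, hk])]
  rw [this]
  exact Finset.measurableSet_biUnion _ (fun r _ => meas_hist H.meas n r)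

/-- The one-step identity. -/
theorem Chain.one_step (H : Chain P C w) {n : ℕ} {g : (ℕ → Ch) → ℝ} (hg : Dep (n + 1) g) :
    ∫ ω, g (fun k => C k ω) ∂P =
      ∫ ω, ∑ c, w n (fun k => C k ω) c * g (Function.update (fun k => C k ω) n c) ∂P := by
  classical
  obtain ⟨d⟩ := H.nonempty
  have h1 : (fun ω => g (fun k => C k ω)) =
      fun ω => (fun rc : (Fin n → Ch) × Ch => g (Function.update (ext d rc.1) n rc.2))
        ((fun k : Fin n => C k ω), C n ω) := by
    funext ω
    refine hg _ _ (fun k hk => ?_)
    rcases Nat.lt_succ_iff_lt_or_eq.1 hk with hk | rfl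
    · rw [Function.update_of_ne (ne_of_lt hk)]; simp [ext, hk]
    · simp
  have h2 : (fun ω => ∑ c, w n (fun k => C k ω) c * g (Function.update (fun k => C k ω) n c)) =
      fun ω => (fun r : Fin n → Ch => ∑ c, w n (ext d r) c * g (Function.update (ext d r) n c))
        (fun k : Fin n => C k ω) := by
    funext ω
    refine Finset.sum_congr rfl (fun c _ => ?_)
    rw [H.dep n (fun k => C k ω) (ext d (fun k : Fin n => C k ω))
      (fun k hk => by simp [ext, hk])]
    congr 1
    refine hg _ _ (fun k hk => ?_)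
    rcases Nat.lt_succ_iff_lt_or_eq.1 hk with hk | rfl
    · rw [Function.update_of_ne (ne_of_lt hk), Function.update_of_ne (ne_of_lt hk)]
      simp [ext, hk]
    · simp
  have hm : ∀ rc : (Fin n → Ch) × Ch,
      MeasurableSet {ω | ((fun k : Fin n => C k ω), C n ω) = rc} := by
    rintro ⟨r, c⟩
    have : {ω | ((fun k : Fin n => C k ω), C n ω) = (r, c)} =
        {ω | (fun k : Fin n => C k ω) = r} ∩ {ω | C n ω = c} := by
      ext ω; simp
    rw [this]
    exact (meas_hist H.meas n r).inter (H.meas _ _)
  rw [h1, h2, integral_finite (P := P) (fun ω => ((fun k : Fin n => C k ω), C n ω)) hm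
    (fun rc : (Fin n → Ch) × Ch => g (Function.update (ext d rc.1) n rc.2)),
    integral_finite (P := P) (fun ω => (fun k : Fin n => C k ω)) (meas_hist H.meas n)
    (fun r : Fin n → Ch => ∑ c, w n (ext d r) c * g (Function.update (ext d r) n c)),
    Fintype.sum_prod_type]
  refine Finset.sum_congr rfl (fun r _ => ?_)
  rw [Finset.mul_sum]
  refine Finset.sum_congr rfl (fun c _ => ?_)
  rw [← mul_assoc]
  congr 1
  have hs := H.step n (Function.update (ext d r) n c)
  have e1 : {ω | ∀ k ≤ n, C k ω = Function.update (ext d r) n c k} =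
      {ω | ((fun k : Fin n => C k ω), C n ω) = (r, c)} := by
    ext ω
    simp only [Set.mem_ofPred_eq, Prod.mk.injEq, funext_iff]
    constructor
    · intro hh
      refine ⟨fun k => ?_, by simpa using hh n le_rfl⟩
      have := hh k k.2.le
      rw [Function.update_of_ne (ne_of_lt k.2)] at this
      simpa [ext] using this
    · rintro ⟨ha, hb⟩ k hk
      rcases hk.lt_or_eq with hk | rfl
      · rw [Function.update_of_ne (ne_of_lt hk)]
        simpa [ext, hk] using ha ⟨k, hk⟩
      · simpa using hb
  have e2 : {ω | ∀ k < n, C k ω = Function.update (ext d r) n c k} =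
      {ω | (fun k : Fin n => C k ω) = r} := by
    ext ω
    simp only [Set.mem_ofPred_eq, funext_iff]
    constructor
    · intro hh k
      have := hh k k.2
      rw [Function.update_of_ne (ne_of_lt k.2)] at this
      simpa [ext] using this
    · intro ha k hk
      rw [Function.update_of_ne (ne_of_lt hk)]
      simpa [ext, hk] using ha ⟨k, hk⟩
  rw [e1, e2, (H.dep n).update, Function.update_self] at hs
  simp only [Measure.real, hs, ENNReal.toReal_mul, ENNReal.toReal_ofReal (H.nonneg _ _ _)]

/-- Supermartingale-type comparison in one step. -/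
theorem Chain.step_le (H : Chain P C w) {n : ℕ} {g g' : (ℕ → Ch) → ℝ} (hg : Dep (n + 1) g)
    (hg' : Dep n g') (hle : ∀ h, ∑ c, w n h c * g (Function.update h n c) ≤ g' h) :
    ∫ ω, g (fun k => C k ω) ∂P ≤ ∫ ω, g' (fun k => C k ω) ∂P := by
  rw [H.one_step hg]
  refine integral_mono ?_ (H.integrable hg') (fun ω => hle _)
  refine H.integrable (n := n) (g := fun h => ∑ c, w n h c * g (Function.update h n c)) ?_
  intro h h' hh
  refine Finset.sum_congr rfl (fun c _ => ?_)
  rw [H.dep n h h' hh]
  congr 1
  refine hg _ _ (fun k hk => ?_)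
  rcases Nat.lt_succ_iff_lt_or_eq.1 hk with hk | rfl
  · rw [Function.update_of_ne (ne_of_lt hk), Function.update_of_ne (ne_of_lt hk)]
    exact hh k hk
  · simp

end

end Pool.Agent.H422Z.Urn
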