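import Pool.Agent.H422Z.Urn.Defs
import Pool.Agent.H422Z.Urn.Path
import Pool.Agent.H422Z.Urn.Prob

/-!
Combinatorics of one step of the urn, and existence of the process.
-/

set_option autoImplicit false

open MeasureTheory Filter Topology Finset

namespace Pool.Agent.H422Z.Urn

open Pool.Agent.H422Z.UrnModel

variable {m : ℕ} {G : SimpleGraph (Fin m)} [DecidableRel G.Adj]

/-- number of balls given to `v` -/
def cnt (c : Choice G) (v : Fin m) : ℝ := ∑ e : G.edgeSet, if (c e : Fin m) = v then 1 else 0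

theorem balls_succ (B₀ : Fin m → ℕ) (h : ℕ → Choice G) (n : ℕ) (v : Fin m) :
    (balls G B₀ h (n + 1) v : ℝ) = balls G B₀ h n v + cnt (h n) v := by
  simp only [balls, cnt, Nat.cast_add, Finset.card_filter]
  push_cast
  rfl

theorem balls_dep (B₀ : Fin m → ℕ) (n : ℕ) : Dep n (fun h : ℕ → Choice G => balls G B₀ h n) := by
  induction n with
  | zero => intro h h' _; rfl
  | succ n ih =>
    intro h h' hh
    have h1 := ih h h' (fun k hk => hh k (by omega))
    simp only at h1
    simp only [balls, h1, hh n (by omega)]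

theorem sum_mul_cnt (c : Choice G) (u : Fin m → ℝ) :
    ∑ v, u v * cnt c v = ∑ e : G.edgeSet, u (c e) := by
  simp only [cnt, Finset.mul_sum]
  rw [Finset.sum_comm]
  refine Finset.sum_congr rfl (fun e _ => ?_)
  simp

theorem sum_cnt (c : Choice G) : ∑ v, cnt c v = Fintype.card G.edgeSet := by
  simpa using sum_mul_cnt c (fun _ => 1)

theorem cnt_nonneg (c : Choice G) (v : Fin m) : 0 ≤ cnt c v :=
  Finset.sum_nonneg (fun e _ => by split_ifs <;> norm_num)

theorem cnt_le (c : Choice G) (v : Fin m) : cnt c v ≤ Fintype.card G.edgeSet := by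
  rw [← sum_cnt c]
  exact Finset.single_le_sum (fun v _ => cnt_nonneg c v) (mem_univ v)

theorem one_le_cnt (c : Choice G) (e : G.edgeSet) : 1 ≤ cnt c (c e) := by
  have := Finset.single_le_sum (s := Finset.univ)
    (f := fun e' : G.edgeSet => if (c e' : Fin m) = c e then (1 : ℝ) else 0)
    (fun e _ => by split_ifs <;> norm_num) (mem_univ e)
  simpa [cnt] using this

theorem one_le_cnt_add (c : Choice G) {i j : Fin m} (h : G.Adj i j) : 1 ≤ cnt c i + cnt c j := by
  have h1 := one_le_cnt c ⟨s(i, j), h⟩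
  have h2 := (c ⟨s(i, j), h⟩).2
  rcases Sym2.mem_iff.1 h2 with h3 | h3
  · rw [h3] at h1; linarith [cnt_nonneg c j]
  · rw [h3] at h1; linarith [cnt_nonneg c i]

omit [DecidableRel G.Adj] in
theorem sum_ends {i j : Fin m} (h : G.Adj i j) (F : {v : Fin m // v ∈ s(i, j)} → ℝ) :
    ∑ v, F v = F ⟨i, Sym2.mem_mk_left i j⟩ + F ⟨j, Sym2.mem_mk_right i j⟩ := by
  rw [← Finset.sum_pair (by simpa using h.ne)]
  refine Finset.sum_congr ?_ (fun _ _ => rfl)
  ext ⟨v, hv⟩
  simpa using hv

omit [DecidableRel G.Adj] in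
theorem winProb_left (α : ℝ) (B : Fin m → ℕ) {i j : Fin m} (h : G.Adj i j) :
    winProb G α B ⟨s(i, j), h⟩ ⟨i, Sym2.mem_mk_left i j⟩ = q α (B i) (B j) := by
  have : Sym2.Mem.other (Sym2.mem_mk_left i j) = j :=
    Sym2.congr_right.1 (Sym2.other_spec (Sym2.mem_mk_left i j))
  simp only [winProb, q, this]

omit [DecidableRel G.Adj] in
theorem winProb_right (α : ℝ) (B : Fin m → ℕ) {i j : Fin m} (h : G.Adj i j) :
    winProb G α B ⟨s(i, j), h⟩ ⟨j, Sym2.mem_mk_right i j⟩ = q α (B j) (B i) := by
  have : Sym2.Mem.other (Sym2.mem_mk_right i j) = i :=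
    Sym2.congr_right.1 ((Sym2.other_spec (Sym2.mem_mk_right i j)).trans Sym2.eq_swap)
  simp only [winProb, q, this]

omit [DecidableRel G.Adj] in
theorem sum_winProb (α : ℝ) {B : Fin m → ℕ} (hB : ∀ i, 1 ≤ B i) (e : G.edgeSet) :
    ∑ v, winProb G α B e v = 1 := by
  obtain ⟨e, he⟩ := e
  induction e using Sym2.ind with
  | h i j =>
    have h : G.Adj i j := he
    rw [sum_ends h, winProb_left α B h, winProb_right α B h]
    have h1 : (1 : ℝ) ≤ B i := by exact_mod_cast hB i
    exact q_add (by positivity) (by positivity) (by positivity)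

/-- the weight of an outcome -/
noncomputable def wt (α : ℝ) (B : Fin m → ℕ) (c : Choice G) : ℝ :=
  ∏ e : G.edgeSet, winProb G α B e (c e)

theorem wt_nonneg (α : ℝ) (B : Fin m → ℕ) (c : Choice G) : 0 ≤ wt α B c :=
  Finset.prod_nonneg (fun e _ => by unfold winProb; positivity)

theorem sum_wt (α : ℝ) {B : Fin m → ℕ} (hB : ∀ i, 1 ≤ B i) : ∑ c : Choice G, wt α B c = 1 := by
  unfold wt
  rw [← Fintype.prod_sum (fun e v => winProb G α B e v)]
  exact Finset.prod_eq_one (fun e _ => sum_winProb α hB e)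

theorem marginal (α : ℝ) {B : Fin m → ℕ} (hB : ∀ i, 1 ≤ B i) (e0 : G.edgeSet) (φ : Fin m → ℝ) :
    ∑ c : Choice G, wt α B c * φ (c e0) = ∑ v, winProb G α B e0 v * φ v := by
  have h1 : ∀ c : Choice G, wt α B c * φ (c e0) =
      ∏ e, (winProb G α B e (c e) * if e = e0 then φ (c e) else 1) := by
    intro c
    rw [Finset.prod_mul_distrib, Finset.prod_ite_eq' Finset.univ e0 (fun e => φ (c e)),
      if_pos (mem_univ _), wt]
  simp only [h1]
  rw [← Fintype.prod_sum (fun e v => winProb G α B e v * if e = e0 then φ v else 1),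
    Finset.prod_eq_single e0]
  · simp
  · intro e _ he
    simp only [if_neg he, mul_one]
    exact sum_winProb α hB e
  · simp

theorem mean_cnt (α : ℝ) {B : Fin m → ℕ} (hB : ∀ i, 1 ≤ B i) (i : Fin m) :
    ∑ c : Choice G, wt α B c * cnt c i = ff G α (fun v => (B v : ℝ)) i := by
  simp only [cnt, Finset.mul_sum]
  rw [Finset.sum_comm]
  have h1 : ∀ e : G.edgeSet, ∑ c : Choice G, wt α B c * (if (c e : Fin m) = i then 1 else 0) =
      ∑ j, if (e : Sym2 (Fin m)) = s(i, j) then q α (B i) (B j) else 0 := by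
    intro e
    rw [marginal α hB e (fun v => if v = i then 1 else 0)]
    obtain ⟨e, he⟩ := e
    induction e using Sym2.ind with
    | h a b =>
      have h : G.Adj a b := he
      rw [sum_ends h, winProb_left α B h, winProb_right α B h]
      have hne := h.ne
      by_cases ha : a = i
      · subst ha
        rw [Finset.sum_eq_single b]
        · simp [hne.symm]
        · intro j _ hj
          rw [if_neg]
          simp only [Sym2.eq_iff]
          tauto
        · simp
      · by_cases hb : b = i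
        · subst hb
          rw [Finset.sum_eq_single a]
          · simp [hne]
          · intro j _ hj
            rw [if_neg]
            simp only [Sym2.eq_iff]
            tauto
          · simp
        · rw [Finset.sum_eq_zero]
          · simp [ha, hb]
          · intro j _
            rw [if_neg]
            simp only [Sym2.eq_iff]
            tauto
  simp only [h1]
  rw [Finset.sum_comm, ff]
  refine Finset.sum_congr rfl (fun j _ => ?_)
  split_ifs with h
  · rw [Finset.sum_eq_single ⟨s(i, j), h⟩]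
    · simp
    · intro e _ he
      rw [if_neg (fun h' => he (Subtype.ext h'))]
    · simp
  · refine Finset.sum_eq_zero (fun e _ => if_neg (fun h' => h ?_))
    have := e.2
    rw [h'] at this
    exact this

theorem Nn_eq : Nn G = Fintype.card G.edgeSet := by
  have hB : ∀ i : Fin m, 1 ≤ (fun _ => 1 : Fin m → ℕ) i := fun _ => le_rfl
  rw [← sum_ff (G := G) (α := 1) (y := fun v => ((fun _ => 1 : Fin m → ℕ) v : ℝ))
    ⟨fun i => by simp, fun i j _ => by simp⟩]
  simp only [← mean_cnt 1 hB]
  rw [Finset.sum_comm]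
  simp only [← Finset.mul_sum, sum_cnt]
  rw [← Finset.sum_mul, sum_wt 1 hB, one_mul]

omit [DecidableRel G.Adj] in
theorem ff_div (α : ℝ) {y : Fin m → ℝ} (hy : ∀ i, 0 ≤ y i) {t : ℝ} (ht : 0 < t) :
    ff G α (fun i => y i / t) = ff G α y := by
  funext i
  refine Finset.sum_congr rfl (fun j _ => ?_)
  split_ifs
  · have := Real.rpow_pos_of_pos ht α
    rw [q, q, Real.div_rpow (hy i) ht.le, Real.div_rpow (hy j) ht.le, ← add_div,
      div_div_div_cancel_right₀ this.ne']
  · rfl

theorem le_balls (B₀ : Fin m → ℕ) (h : ℕ → Choice G) (n : ℕ) (v : Fin m) :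
    B₀ v ≤ balls G B₀ h n v := by
  induction n with
  | zero => exact le_rfl
  | succ n ih => exact ih.trans (Nat.le_add_right _ _)

theorem chain_of_isUrn {α : ℝ} {B₀ : Fin m → ℕ} (hB : ∀ i, 1 ≤ B₀ i) {Ω : Type*}
    [MeasurableSpace Ω] {P : Measure Ω} {C : ℕ → Ω → Choice G} (H : IsUrn G α B₀ P C) :
    Chain P C (fun n h c => wt α (balls G B₀ h n) c) where
  meas := H.meas
  dep := fun n h h' hh => by
    have := balls_dep B₀ n h h' hh
    simp only at this
    simp only [this]
  nonneg := fun n h c => wt_nonneg _ _ _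
  sum_one := fun n h => sum_wt α (fun i => (hB i).trans (le_balls B₀ h n i))
  step := H.step

end Pool.Agent.H422Z.Urn
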